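import Pool.Agent.H.MP_83e36b_nt.dc.HypA
import Pool.Agent.H.MP_83e36b_nt.dc.U5

/-! The Witt group of a field over which the forms in five variables are isotropic. -/

set_option autoImplicit false

open Matrix SpinWA

namespace DC83

/-- Proof: pad with zeros. -/
theorem u5_iso {K : Type*} [Field K] (hu : U5 K) {n : ℕ} (hn : 5 ≤ n) (d : Fin n → K)
    (hd : ∀ i, d i ≠ 0) : ∃ x : Fin n → K, x ≠ 0 ∧ ∑ i, d i * x i ^ 2 = 0 := by
  obtain ⟨m, rfl⟩ := Nat.exists_eq_add_of_le hn
  obtain ⟨x, hx, h0⟩ := hu (fun i => d (Fin.castAdd m i)) (fun i => hd _)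
  refine ⟨Fin.append x (fun _ => 0), ?_, ?_⟩
  · intro h
    apply hx
    funext i
    have h1 := congrFun h (Fin.castAdd m i)
    rw [Fin.append_left] at h1
    exact h1
  · rw [Fin.sum_univ_add]
    have h2 : ∀ i : Fin m, d (Fin.natAdd 5 i) *
        (Fin.append x (fun _ : Fin m => (0 : K)) (Fin.natAdd 5 i)) ^ 2 = 0 := by
      intro i
      rw [Fin.append_right]
      ring
    rw [Finset.sum_eq_zero (fun i _ => h2 i), add_zero, ← h0]
    refine Finset.sum_congr rfl fun i _ => ?_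
    rw [Fin.append_left]

/-- An isotropic diagonal form represents everything. -/
private theorem Wit_univ {K : Type*} [Field K] (h2 : (2 : K) ≠ 0) {n : ℕ} {d : Fin n → K}
    (hd : ∀ i, d i ≠ 0) {x : Fin n → K} (hx : x ≠ 0) (h0 : ∑ i, d i * x i ^ 2 = 0) (c : K) :
    ∃ y : Fin n → K, ∑ i, d i * y i ^ 2 = c := by
  obtain ⟨i, hi⟩ := Function.ne_iff.1 hx
  have hi' : x i ≠ 0 := hi
  refine ⟨fun j => (c / d i - 1) / (2 * x i) * x j + Pi.single (M := fun _ => K) i 1 j, ?_⟩
  have h1 : ∀ j, d j * ((c / d i - 1) / (2 * x i) * x j + Pi.single (M := fun _ => K) i 1 j) ^ 2 =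
      ((c / d i - 1) / (2 * x i)) ^ 2 * (d j * x j ^ 2) +
        Pi.single (M := fun _ => K) i (d i * (2 * ((c / d i - 1) / (2 * x i)) * x i + 1)) j := by
    intro j
    by_cases hj : j = i
    · subst hj
      rw [Pi.single_eq_same, Pi.single_eq_same]
      ring
    · rw [Pi.single_eq_of_ne hj, Pi.single_eq_of_ne hj]
      ring
  rw [Finset.sum_congr rfl (fun j _ => h1 j), Finset.sum_add_distrib, ← Finset.mul_sum, h0,
    mul_zero, zero_add, Finset.sum_pi_single']
  rw [if_pos (Finset.mem_univ i)]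
  have hdi := hd i
  field_simp
  ring

/-- Proof: induction on `j`: `u5_iso` and `exists_split` of dc/HypA.lean (`cls_cong`, `cls_diagonal`,
`cl_one_neg`). -/
theorem u5_peel {K : Type*} [Field K] (h2 : (2 : K) ≠ 0) (hu : U5 K) {n : ℕ} (hn : 3 ≤ n) (j : ℕ)
    (d : Fin (n + 2 * j) → K) (hd : ∀ i, d i ≠ 0) :
    ∃ d' : Fin n → K, (∀ i, d' i ≠ 0) ∧ ∑ i, cl (d i) = ∑ i, cl (d' i) := by
  induction j with
  | zero => exact ⟨d, hd, rfl⟩
  | succ j ih =>
    have key : ∀ d : Fin (n + 2 * j + 2) → K, (∀ i, d i ≠ 0) →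
        ∃ d' : Fin n → K, (∀ i, d' i ≠ 0) ∧ ∑ i, cl (d i) = ∑ i, cl (d' i) := by
      intro d hd
      obtain ⟨x, hx, h0⟩ := u5_iso hu (n := n + 2 * j + 2) (by omega) d hd
      obtain ⟨d1, hd1, hc⟩ := exists_split h2 hd hx h0
      obtain ⟨d', hd', he⟩ := ih d1 hd1
      refine ⟨d', hd', ?_⟩
      have hne : ∀ i, (Fin.cons 1 (Fin.cons (-1) d1) : Fin (n + 2 * j + 2) → K) i ≠ 0 := by
        intro i
        refine Fin.cases ?_ (fun i => ?_) i
        · rw [Fin.cons_zero]
          exact one_ne_zero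
        · rw [Fin.cons_succ]
          refine Fin.cases ?_ (fun i => ?_) i
          · rw [Fin.cons_zero]
            exact neg_ne_zero.2 one_ne_zero
          · rw [Fin.cons_succ]
            exact hd1 i
      have h3 := cls_eq_sum h2 hne hc
      have h4 : ∑ i, cl ((Fin.cons 1 (Fin.cons (-1) d1) : Fin (n + 2 * j + 2) → K) i) =
          ∑ i, cl (d1 i) := by
        rw [Fin.sum_univ_succ, Fin.sum_univ_succ]
        simp only [Fin.cons_zero, Fin.cons_succ]
        rw [← add_assoc, cl_one_neg, zero_add]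
      rw [cls_diagonal h2 hd, h4] at h3
      rw [h3, he]
    exact key d hd

/-- Proof: induction on `j`.  A diagonal form `d` in at least 4 variables represents 1: the form
`d ⊥ <-1>` is isotropic (`u5_iso`), so `∑ d i x i ^ 2 = t ^ 2`; if `t ≠ 0` divide by `t`, otherwise `d`
is isotropic and represents everything (`HypA_univ`, private in dc/HypA.lean, copy it).  Then
`wchain_value` of sp/WChain.lean. -/
theorem u5_ones {K : Type*} [Field K] (h2 : (2 : K) ≠ 0) (hu : U5 K) (j : ℕ)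
    (d : Fin (j + 3) → K) (hd : ∀ i, d i ≠ 0) :
    ∃ a b c : K, a ≠ 0 ∧ b ≠ 0 ∧ c ≠ 0 ∧
      ∑ i, cl (d i) = j • cl (1 : K) + (cl a + cl b + cl c) := by
  induction j with
  | zero =>
    have key : ∀ d : Fin 3 → K, (∀ i, d i ≠ 0) → ∃ a b c : K, a ≠ 0 ∧ b ≠ 0 ∧ c ≠ 0 ∧
        ∑ i, cl (d i) = 0 • cl (1 : K) + (cl a + cl b + cl c) := by
      intro d hd
      refine ⟨d 0, d 1, d 2, hd 0, hd 1, hd 2, ?_⟩
      rw [zero_smul, zero_add, Fin.sum_univ_three]
    exact key d hd
  | succ j ih =>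
    have key : ∀ d : Fin (j + 3 + 1) → K, (∀ i, d i ≠ 0) → ∃ a b c : K, a ≠ 0 ∧ b ≠ 0 ∧ c ≠ 0 ∧
        ∑ i, cl (d i) = (j + 1) • cl (1 : K) + (cl a + cl b + cl c) := by
      intro d hd
      have h1 : ∃ x : Fin (j + 3 + 1) → K, ∑ i, d i * x i ^ 2 = 1 := by
        obtain ⟨y, hy, hy0⟩ := u5_iso hu (n := j + 3 + 1 + 1) (by omega) (Fin.cons (-1) d)
          (by
            intro i
            refine Fin.cases ?_ (fun i => ?_) i
            · rw [Fin.cons_zero]
              exact neg_ne_zero.2 one_ne_zero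
            · rw [Fin.cons_succ]
              exact hd i)
        rw [Fin.sum_univ_succ] at hy0
        simp only [Fin.cons_zero, Fin.cons_succ] at hy0
        by_cases hc : y 0 = 0
        · refine Wit_univ h2 hd (x := fun i => y i.succ) ?_ ?_ 1
          · intro hc2
            apply hy
            funext i
            refine Fin.cases ?_ (fun i => ?_) i
            · exact hc
            · exact congrFun hc2 i
          · rw [hc] at hy0
            simpa using hy0
        · refine ⟨fun i => y i.succ / y 0, ?_⟩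
          have h4 : ∀ i : Fin (j + 3 + 1), d i * (y i.succ / y 0) ^ 2 =
              (d i * y i.succ ^ 2) * (y 0 ^ 2)⁻¹ := by
            intro i
            rw [div_pow, div_eq_mul_inv, mul_assoc]
          rw [Finset.sum_congr rfl (fun i _ => h4 i), ← Finset.sum_mul]
          have h5 : ∑ i : Fin (j + 3 + 1), d i * y i.succ ^ 2 = y 0 ^ 2 := by
            linear_combination hy0
          rw [h5]
          exact mul_inv_cancel₀ (pow_ne_zero 2 hc)
      obtain ⟨x, hx⟩ := h1
      obtain ⟨r, hr, -, hr2⟩ := wchain_value (j + 3) d x hd (by rw [hx]; exact one_ne_zero)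
      obtain ⟨a, b, c, ha, hb, hc, he⟩ := ih r hr
      refine ⟨a, b, c, ha, hb, hc, ?_⟩
      rw [hr2, hx, he, succ_nsmul']
      abel
    exact key d hd

/-- the points of a conic with a point.  Proof: `s x ^ 2 + D y ^ 2 = z ^ 2` has a nonzero solution; the
lines through it give (over an infinite field) a solution with `x y z ≠ 0`. -/
theorem conic_point {K : Type*} [Field K] [CharZero K] {s D : K} (hs : s ≠ 0) (hD : D ≠ 0)
    {x y z : K} (h0 : x ≠ 0 ∨ y ≠ 0 ∨ z ≠ 0) (h : s * x ^ 2 + D * y ^ 2 = z ^ 2) :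
    ∃ ν κ : K, ν ≠ 0 ∧ κ ≠ 0 ∧ s * ν ^ 2 + D * κ ^ 2 = 1 := by
  have h2 : (2 : K) ≠ 0 := two_ne_zero
  have h3 : (3 : K) ≠ 0 := three_ne_zero
  have h5 : (5 : K) ≠ 0 := by norm_num
  -- a point with one zero coordinate
  have key : ∀ {s D ν : K}, s ≠ 0 → D ≠ 0 → s * ν ^ 2 = 1 →
      ∃ ν κ : K, ν ≠ 0 ∧ κ ≠ 0 ∧ s * ν ^ 2 + D * κ ^ 2 = 1 := by
    intro s D ν hs hD hν
    have hν0 : ν ≠ 0 := by
      rintro rfl
      rw [zero_pow two_ne_zero, mul_zero] at hν
      exact zero_ne_one hν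
    obtain ⟨t, ht, ht1, ht2⟩ : ∃ t : K, t ≠ 0 ∧ D * t ^ 2 - s ≠ 0 ∧ s + D * t ^ 2 ≠ 0 := by
      by_cases h6 : D - s ≠ 0 ∧ s + D ≠ 0
      · exact ⟨1, one_ne_zero, by simpa using h6.1, by simpa using h6.2⟩
      · refine ⟨2, h2, ?_, ?_⟩
        · intro h7
          apply h6
          refine ⟨?_, ?_⟩
          · intro h8
            apply mul_ne_zero h3 hs
            linear_combination h7 - 4 * h8
          · intro h8
            apply mul_ne_zero h5 hs
            linear_combination 4 * h8 - h7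
        · intro h7
          apply h6
          refine ⟨?_, ?_⟩
          · intro h8
            apply mul_ne_zero h5 hs
            linear_combination h7 - 4 * h8
          · intro h8
            apply mul_ne_zero h3 hs
            linear_combination 4 * h8 - h7
    refine ⟨ν * (D * t ^ 2 - s) / (s + D * t ^ 2), -2 * s * ν * t / (s + D * t ^ 2), ?_, ?_, ?_⟩
    · exact div_ne_zero (mul_ne_zero hν0 ht1) ht2
    · exact div_ne_zero (mul_ne_zero (mul_ne_zero (mul_ne_zero (neg_ne_zero.2 h2) hs) hν0) ht) ht2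
    · rw [div_pow, div_pow, mul_div_assoc', mul_div_assoc', ← add_div, div_eq_one_iff_eq
        (pow_ne_zero 2 ht2)]
      linear_combination (s + D * t ^ 2) ^ 2 * hν
  by_cases hz : z = 0
  · subst hz
    have hx : x ≠ 0 := by
      rintro rfl
      have h6 : D * y ^ 2 = 0 := by linear_combination h
      have h7 : y = 0 := by
        rcases mul_eq_zero.1 h6 with h | h
        · exact absurd h hD
        · exact pow_eq_zero_iff (two_ne_zero) |>.1 h
      subst h7
      simp at h0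
    have hy : y ≠ 0 := by
      rintro rfl
      have h6 : s * x ^ 2 = 0 := by linear_combination h
      rcases mul_eq_zero.1 h6 with h | h
      · exact hs h
      · exact hx (pow_eq_zero_iff (two_ne_zero) |>.1 h)
    obtain ⟨w, hw⟩ : ∃ w, w = s * x ^ 2 := ⟨_, rfl⟩
    have hw0 : w ≠ 0 := by
      rw [hw]
      exact mul_ne_zero hs (pow_ne_zero 2 hx)
    have hwD : D * y ^ 2 = -w := by
      rw [hw]
      linear_combination h
    obtain ⟨u, hu, hu1, hu2⟩ : ∃ u : K, u ≠ 0 ∧ w * u ^ 2 + 1 ≠ 0 ∧ 1 - w * u ^ 2 ≠ 0 := by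
      by_cases h6 : w + 1 ≠ 0 ∧ 1 - w ≠ 0
      · exact ⟨1, one_ne_zero, by simpa using h6.1, by simpa using h6.2⟩
      · refine ⟨2, h2, ?_, ?_⟩
        · intro h7
          apply h6
          refine ⟨?_, ?_⟩
          · intro h8
            apply h3
            linear_combination 4 * h8 - h7
          · intro h8
            apply h5
            linear_combination 4 * h8 + h7
        · intro h7
          apply h6
          refine ⟨?_, ?_⟩
          · intro h8
            apply h5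
            linear_combination 4 * h8 + h7
          · intro h8
            apply h3
            linear_combination 4 * h8 - h7
    refine ⟨x * ((w * u ^ 2 + 1) / (2 * w * u)), y * ((1 - w * u ^ 2) / (2 * w * u)), ?_, ?_, ?_⟩
    · exact mul_ne_zero hx (div_ne_zero hu1 (mul_ne_zero (mul_ne_zero h2 hw0) hu))
    · exact mul_ne_zero hy (div_ne_zero hu2 (mul_ne_zero (mul_ne_zero h2 hw0) hu))
    · have e1 : s * (x * ((w * u ^ 2 + 1) / (2 * w * u))) ^ 2 +
          D * (y * ((1 - w * u ^ 2) / (2 * w * u))) ^ 2 =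
          (s * x ^ 2) * ((w * u ^ 2 + 1) / (2 * w * u)) ^ 2 +
          (D * y ^ 2) * ((1 - w * u ^ 2) / (2 * w * u)) ^ 2 := by ring
      rw [e1, ← hw, hwD]
      field_simp
      ring
  · have hp : s * (x / z) ^ 2 + D * (y / z) ^ 2 = 1 := by
      rw [div_pow, div_pow, mul_div_assoc', mul_div_assoc', ← add_div, h]
      exact div_self (pow_ne_zero 2 hz)
    by_cases hx : x / z = 0
    · rw [hx, zero_pow two_ne_zero, mul_zero, zero_add] at hp
      obtain ⟨ν, κ, h6, h7, h8⟩ := key hD hs hp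
      exact ⟨κ, ν, h7, h6, by rw [add_comm]; exact h8⟩
    · by_cases hy : y / z = 0
      · rw [hy, zero_pow two_ne_zero, mul_zero, add_zero] at hp
        exact key hs hD hp
      · exact ⟨x / z, y / z, hx, hy, hp⟩

/-- Proof: `D = a b c`.  By `hu` for `(a, b, c, -1, D)` there are `y : Fin 3 → K`, `p`, `t`, not all zero,
with `a y_0^2 + b y_1^2 + c y_2^2 = p^2 - D t^2 =: s`.  If `s ≠ 0`: `s * 1 ^ 2 + D t ^ 2 = p ^ 2`, and `s`
is a value of `<a, b, c>`.  If `s = 0` and `y ≠ 0` then `<a, b, c>` is isotropic and represents `s := 1`,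
`1 * 1 ^ 2 + D * 0 ^ 2 = 1 ^ 2`.  If `y = 0` then `p ^ 2 = D t ^ 2`, `t ≠ 0`, `s := a`,
`a * 0 ^ 2 + D t ^ 2 = p ^ 2`.  `conic_point`.  `wchain_value`: `<a, b, c> ≅ <s, u, v>`,
`s u v = D * square` (`Cong.det`, or `cl` of the determinants), so `cl v = cl (u * s * D)`
(`cl_mul_sq`: `v = u s D (w / (s u))²`...). -/
theorem u5_tern {K : Type*} [Field K] [CharZero K] (hu : U5 K) {a b c : K} (ha : a ≠ 0)
    (hb : b ≠ 0) (hc : c ≠ 0) :
    ∃ s u ν κ : K, s ≠ 0 ∧ u ≠ 0 ∧ ν ≠ 0 ∧ κ ≠ 0 ∧ s * ν ^ 2 + a * b * c * κ ^ 2 = 1 ∧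
      cl a + cl b + cl c = cl s + (cl u + cl (u * s * (a * b * c))) := by
  have h2 : (2 : K) ≠ 0 := two_ne_zero
  have hD : a * b * c ≠ 0 := mul_ne_zero (mul_ne_zero ha hb) hc
  have hd : ∀ i, (![a, b, c] : Fin 3 → K) i ≠ 0 := by
    intro i
    fin_cases i
    · exact ha
    · exact hb
    · exact hc
  obtain ⟨s, x, ν, κ, hs, hν, hκ, hpt, hx⟩ : ∃ (s : K) (x : Fin 3 → K) (ν κ : K), s ≠ 0 ∧ ν ≠ 0 ∧
      κ ≠ 0 ∧ s * ν ^ 2 + a * b * c * κ ^ 2 = 1 ∧
      ∑ i, (![a, b, c] : Fin 3 → K) i * x i ^ 2 = s := by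
    obtain ⟨y, hy, hy0⟩ := hu ![a, b, c, -1, a * b * c] (by
      intro i
      fin_cases i
      · exact ha
      · exact hb
      · exact hc
      · exact neg_ne_zero.2 one_ne_zero
      · exact hD)
    have hy1 : a * y 0 ^ 2 + b * y 1 ^ 2 + c * y 2 ^ 2 = y 3 ^ 2 - a * b * c * y 4 ^ 2 := by
      rw [Fin.sum_univ_five] at hy0
      simp only [Matrix.cons_val] at hy0
      linear_combination hy0
    by_cases hs0 : a * y 0 ^ 2 + b * y 1 ^ 2 + c * y 2 ^ 2 = 0
    · by_cases hyy : (![y 0, y 1, y 2] : Fin 3 → K) = 0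
      · have e0 : y 0 = 0 := congrFun hyy 0
        have e1 : y 1 = 0 := congrFun hyy 1
        have e2 : y 2 = 0 := congrFun hyy 2
        have h4 : y 4 ≠ 0 := by
          intro h4
          have h3 : y 3 = 0 := by
            rw [hs0, h4] at hy1
            have : y 3 ^ 2 = 0 := by linear_combination -hy1
            exact pow_eq_zero_iff (two_ne_zero) |>.1 this
          apply hy
          funext i
          fin_cases i
          · exact e0
          · exact e1
          · exact e2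
          · exact h3
          · exact h4
        obtain ⟨ν, κ, h6, h7, h8⟩ := conic_point ha hD (x := 0) (y := y 4) (z := y 3)
          (Or.inr (Or.inl h4)) (by rw [hs0] at hy1; linear_combination hy1)
        refine ⟨a, ![1, 0, 0], ν, κ, ha, h6, h7, h8, ?_⟩
        rw [Fin.sum_univ_three]
        simp
      · obtain ⟨x, hx⟩ := Wit_univ h2 hd hyy (by
          rw [Fin.sum_univ_three]
          simpa using hs0) 1
        obtain ⟨ν, κ, h6, h7, h8⟩ := conic_point (s := (1 : K)) one_ne_zero hD (x := 1) (y := 0)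
          (z := 1) (Or.inl one_ne_zero) (by ring)
        exact ⟨1, x, ν, κ, one_ne_zero, h6, h7, h8, hx⟩
    · obtain ⟨ν, κ, h6, h7, h8⟩ := conic_point hs0 hD (x := 1) (y := y 4) (z := y 3)
        (Or.inl one_ne_zero) (by rw [hy1]; ring)
      refine ⟨_, ![y 0, y 1, y 2], ν, κ, hs0, h6, h7, h8, ?_⟩
      rw [Fin.sum_univ_three]
      simp
  obtain ⟨r, hr, hr1, hr2⟩ := wchain_value 2 ![a, b, c] x hd (by rw [hx]; exact hs)
  rw [hx] at hr1 hr2
  refine ⟨s, r 0, ν, κ, hs, hr 0, hν, hκ, hpt, ?_⟩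
  obtain ⟨e, he, hdet⟩ := hr1.det
  rw [det_diagonal, det_diagonal, Fin.prod_univ_three, Fin.prod_univ_three] at hdet
  have hdet' : s * r 0 * r 1 = e ^ 2 * (a * b * c) := by
    have e1 : (Fin.cons s r : Fin 3 → K) 0 = s := rfl
    have e2 : (Fin.cons s r : Fin 3 → K) 1 = r 0 := rfl
    have e3 : (Fin.cons s r : Fin 3 → K) 2 = r 1 := rfl
    rw [e1, e2, e3] at hdet
    simpa using hdet
  have hr0 := hr 0
  have hr1' : r 1 = r 0 * s * (a * b * c) * (e / (s * r 0)) ^ 2 := by
    field_simp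
    linear_combination hdet'
  have h9 : cl (r 1) = cl (r 0 * s * (a * b * c)) := by
    conv_lhs => rw [hr1']
    exact cl_mul_sq _ (div_ne_zero he (mul_ne_zero hs hr0))
  rw [Fin.sum_univ_three, Fin.sum_univ_two, h9] at hr2
  simpa using hr2

end DC83
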