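import Pool.Agent.H.MP_83e36b_nt.dc.PermA
import Pool.Agent.H.MP_83e36b_nt.sp.WApi

/-! Block permutations and block diagonal matrices. -/

set_option autoImplicit false

open Matrix SpinWA

namespace DC83

variable {n m : ℕ}

/-- the permutation of `Fin (n + m)` given by permutations of the first `n` and the last `m` elements -/
def bP (σ : Equiv.Perm (Fin n)) (ψ : Equiv.Perm (Fin m)) : Equiv.Perm (Fin (n + m)) :=
  finSumFinEquiv.permCongr (Equiv.sumCongr σ ψ)

theorem bP_castAdd (σ : Equiv.Perm (Fin n)) (ψ : Equiv.Perm (Fin m)) (i : Fin n) :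
    bP σ ψ (Fin.castAdd m i) = Fin.castAdd m (σ i) := by
  simp [bP, Equiv.permCongr_apply]

theorem bP_natAdd (σ : Equiv.Perm (Fin n)) (ψ : Equiv.Perm (Fin m)) (j : Fin m) :
    bP σ ψ (Fin.natAdd n j) = Fin.natAdd n (ψ j) := by
  simp [bP, Equiv.permCongr_apply]

theorem bP_one : bP (1 : Equiv.Perm (Fin n)) (1 : Equiv.Perm (Fin m)) = 1 := by
  ext i
  obtain ⟨a, rfl⟩ := finSumFinEquiv.surjective i
  rcases a with a | a
  · simp [bP_castAdd]
  · simp [bP_natAdd]

theorem bP_mul (σ σ' : Equiv.Perm (Fin n)) (ψ ψ' : Equiv.Perm (Fin m)) :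
    bP σ ψ * bP σ' ψ' = bP (σ * σ') (ψ * ψ') := by
  ext i
  obtain ⟨a, rfl⟩ := finSumFinEquiv.surjective i
  rcases a with a | a
  · simp [bP_castAdd]
  · simp [bP_natAdd]

theorem bP_inv (σ : Equiv.Perm (Fin n)) (ψ : Equiv.Perm (Fin m)) : (bP σ ψ)⁻¹ = bP σ⁻¹ ψ⁻¹ := by
  rw [inv_eq_iff_mul_eq_one, bP_mul, mul_inv_cancel, mul_inv_cancel, bP_one]

theorem bP_inj {σ σ' : Equiv.Perm (Fin n)} {ψ ψ' : Equiv.Perm (Fin m)} (h : bP σ ψ = bP σ' ψ') :
    σ = σ' ∧ ψ = ψ' := by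
  constructor
  · ext i
    have h1 := congrArg (fun π => π (Fin.castAdd m i)) h
    simp only [bP_castAdd] at h1
    exact congrArg Fin.val (Fin.castAdd_injective n m h1)
  · ext i
    have h1 := congrArg (fun π => π (Fin.natAdd n i)) h
    simp only [bP_natAdd] at h1
    exact congrArg Fin.val (Fin.natAdd_injective m n h1)

theorem sign_bP (σ : Equiv.Perm (Fin n)) (ψ : Equiv.Perm (Fin m)) :
    Equiv.Perm.sign (bP σ ψ) = Equiv.Perm.sign σ * Equiv.Perm.sign ψ := by
  unfold bP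
  rw [Equiv.Perm.sign_permCongr, Equiv.Perm.sign_sumCongr]

/-- a permutation which preserves the set of the first `n` elements -/
theorem exists_bP {π : Equiv.Perm (Fin (n + m))}
    (h : ∀ i : Fin (n + m), (π i : ℕ) < n ↔ (i : ℕ) < n) : ∃ σ ψ, π = bP σ ψ := by
  have h1 : Set.MapsTo (finSumFinEquiv.symm.permCongr π) (Set.range (Sum.inl : Fin n → Fin n ⊕ Fin m))
      (Set.range Sum.inl) := by
    rintro _ ⟨a, rfl⟩
    have h2 := (h (Fin.castAdd m a)).2 (by simp)
    refine ⟨⟨(π (Fin.castAdd m a) : ℕ), h2⟩, ?_⟩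
    rw [Equiv.permCongr_apply, Equiv.symm_symm, finSumFinEquiv_apply_left,
      ← Equiv.apply_eq_iff_eq finSumFinEquiv, Equiv.apply_symm_apply, finSumFinEquiv_apply_left]
    ext
    simp
  obtain ⟨⟨σ, ψ⟩, h2⟩ := Equiv.Perm.mem_sumCongrHom_range_of_perm_mapsTo_inl h1
  refine ⟨σ, ψ, ?_⟩
  have h3 : Equiv.sumCongr σ ψ = finSumFinEquiv.symm.permCongr π := h2
  unfold bP
  rw [h3]
  ext i
  simp [Equiv.permCongr_apply]

section
variable {R : Type*} [CommRing R]

/-- the block diagonal matrix with the blocks `A`, `B` -/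
def bM (A : Matrix (Fin n) (Fin n) R) (B : Matrix (Fin m) (Fin m) R) :
    Matrix (Fin (n + m)) (Fin (n + m)) R :=
  (fromBlocks A 0 0 B).submatrix finSumFinEquiv.symm finSumFinEquiv.symm

theorem bM_mul (A A' : Matrix (Fin n) (Fin n) R) (B B' : Matrix (Fin m) (Fin m) R) :
    bM A B * bM A' B' = bM (A * A') (B * B') := by
  unfold bM
  rw [Matrix.submatrix_mul_equiv, Matrix.fromBlocks_multiply]
  simp

theorem bM_transpose (A : Matrix (Fin n) (Fin n) R) (B : Matrix (Fin m) (Fin m) R) :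
    (bM A B)ᵀ = bM Aᵀ Bᵀ := by
  unfold bM
  rw [Matrix.transpose_submatrix, Matrix.fromBlocks_transpose]
  simp

theorem bM_map {T : Type*} [CommRing T] (f : R →+* T) (A : Matrix (Fin n) (Fin n) R)
    (B : Matrix (Fin m) (Fin m) R) : (bM A B).map f = bM (A.map f) (B.map f) := by
  unfold bM
  rw [← Matrix.submatrix_map, Matrix.fromBlocks_map]
  simp

theorem bM_one : bM (1 : Matrix (Fin n) (Fin n) R) (1 : Matrix (Fin m) (Fin m) R) = 1 := by
  unfold bM
  rw [Matrix.fromBlocks_one, Matrix.submatrix_one_equiv]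

theorem bM_det (A : Matrix (Fin n) (Fin n) R) (B : Matrix (Fin m) (Fin m) R) :
    (bM A B).det = A.det * B.det := by
  unfold bM
  rw [Matrix.det_submatrix_equiv_self, Matrix.det_fromBlocks_zero₂₁]

theorem bM_inj {A A' : Matrix (Fin n) (Fin n) R} {B B' : Matrix (Fin m) (Fin m) R}
    (h : bM A B = bM A' B') : A = A' ∧ B = B' := by
  have h1 := congrArg (fun M => M.submatrix finSumFinEquiv finSumFinEquiv) h
  simp only [bM, Matrix.submatrix_submatrix, Equiv.symm_comp_self, Matrix.submatrix_id_id] at h1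
  rw [Matrix.fromBlocks_inj] at h1
  exact ⟨h1.1, h1.2.2.2⟩

theorem pM_bP (σ : Equiv.Perm (Fin n)) (ψ : Equiv.Perm (Fin m)) :
    pM R (bP σ ψ) = bM (pM R σ) (pM R ψ) := by
  ext i j
  obtain ⟨a, rfl⟩ := finSumFinEquiv.surjective i
  obtain ⟨b, rfl⟩ := finSumFinEquiv.surjective j
  have h1 : bP σ ψ (finSumFinEquiv a) = finSumFinEquiv (Equiv.sumCongr σ ψ a) := by
    simp [bP, Equiv.permCongr_apply]
  simp only [pM, bM, Matrix.of_apply, Matrix.submatrix_apply, Equiv.symm_apply_apply, h1,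
    Equiv.apply_eq_iff_eq]
  rcases a with a | a <;> rcases b with b | b <;> simp

end

theorem cls_bM {K : Type*} [Field K] (h2 : (2 : K) ≠ 0) {A : Matrix (Fin n) (Fin n) K}
    {B : Matrix (Fin m) (Fin m) K} (hA : Aᵀ = A) (hdA : A.det ≠ 0) (hB : Bᵀ = B)
    (hdB : B.det ≠ 0) : cls (bM A B) = cls A + cls B := by
  unfold bM
  rw [cls_submatrix h2 _ _ finSumFinEquiv.symm, cls_fromBlocks h2 hA hdA hB hdB]
  · rw [Matrix.fromBlocks_transpose, hA, hB]
    simp
  · rw [Matrix.det_fromBlocks_zero₂₁]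
    exact mul_ne_zero hdA hdB

end DC83
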