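import Pool.Agent.H.MP_83e36b_nt.nr.SMain

/-! The matrices of a semilinear action. -/

set_option autoImplicit false

open Matrix

namespace DC83

open CM83 NR83

/-- Proof: `SemiLin.exists_coeff`; the cocycle identity by comparing coefficients (`semi_uniq`); see
`exists_M` in dc/TrB.lean. -/
theorem exists_N {k : Type} [Field k] {K : Type} [Field K] [Algebra k K] {G : Type} [Group G]
    {α : G →* (K ≃ₐ[k] K)} {d : ℕ} (β : G →* (RF K d ≃ₐ[k] RF K d)) (hβ : SemiLin α β) :
    ∃ N : G → Matrix (Fin d) (Fin d) K,
      (∀ g i, β g (xv K i) = ∑ j, algebraMap K (RF K d) (N g i j) * xv K j) ∧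
      N 1 = 1 ∧ ∀ g h, N (g * h) = (N h).map (α g) * N g := by
  obtain ⟨c, hc⟩ := hβ.exists_coeff
  have hone : Matrix.of (c 1) = (1 : Matrix (Fin d) (Fin d) K) := by
    ext i j
    have h1 : ∑ j, algebraMap K (RF K d) (c 1 i j) * xv K j =
        ∑ j, algebraMap K (RF K d) ((1 : Matrix (Fin d) (Fin d) K) i j) * xv K j := by
      rw [← hc, map_one, Finset.sum_eq_single i]
      · rw [Matrix.one_apply_eq, map_one, one_mul]
        rfl
      · intro l _ hl
        rw [Matrix.one_apply_ne' hl, map_zero, zero_mul]
      · intro hi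
        exact absurd (Finset.mem_univ i) hi
    exact congrFun (semi_uniq h1) j
  have hmul : ∀ g h, Matrix.of (c (g * h)) =
      (Matrix.of (c h)).map (α g) * Matrix.of (c g) := by
    intro g h
    ext i j
    have h1 : ∑ j, algebraMap K (RF K d) (c (g * h) i j) * xv K j =
        ∑ j, algebraMap K (RF K d) (((Matrix.of (c h)).map (α g) * Matrix.of (c g)) i j) *
          xv K j := by
      have h2 : β (g * h) (xv K i) = β g (β h (xv K i)) := by
        rw [map_mul]
        rfl
      rw [← hc, h2, hc h i, map_sum]
      have h3 : ∀ l, β g (algebraMap K (RF K d) (c h i l) * xv K l) =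
          ∑ j, algebraMap K (RF K d) (α g (c h i l) * c g l j) * xv K j := by
        intro l
        rw [map_mul, hβ.coeff, hc g l, Finset.mul_sum]
        refine Finset.sum_congr rfl fun j _ => ?_
        rw [map_mul, mul_assoc]
      rw [Finset.sum_congr rfl fun l _ => h3 l, Finset.sum_comm]
      refine Finset.sum_congr rfl fun j _ => ?_
      rw [Matrix.mul_apply, map_sum, Finset.sum_mul]
      rfl
    exact congrFun (semi_uniq h1) j
  exact ⟨fun g => Matrix.of (c g), fun g i => hc g i, hone, hmul⟩

end DC83
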