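import Pool.Agent.H.MP_83e36b_nt.nr.SMain
import Pool.Agent.H.MP_83e36b_nt.dc.Gal

/-! The homomorphism of the Galois group of a local field given by a generic local point, semilinear
version. -/

set_option autoImplicit false

open Matrix

namespace DC83

open CM83 NR83

universe u

private theorem strC_lift {G : Type} [Group G] [Finite G] {F : Type} [Field F]
    [MulSemiringAction G F] {Ω : Type} [Field Ω] [IsAlgClosed Ω]
    (φ : FixedPoints.subfield G F →+* Ω) :
    ∃ θ' : F →+* Ω, ∀ x : FixedPoints.subfield G F, θ' x = φ x := by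
  let _ : Algebra (FixedPoints.subfield G F) Ω := φ.toAlgebra
  let θA : F →ₐ[FixedPoints.subfield G F] Ω := IsAlgClosed.lift
  exact ⟨θA.toRingHom, fun x => θA.commutes x⟩

private theorem strC_conj {G : Type} [Group G] [Finite G] {F : Type} [Field F]
    [MulSemiringAction G F] {Ω : Type} [Field Ω] (θ' f : F →+* Ω)
    (hf : ∀ x : FixedPoints.subfield G F, f x = θ' x) : ∃ g : G, ∀ x, f x = θ' (g • x) := by
  let _ : Algebra F Ω := θ'.toAlgebra
  let fA : F →ₐ[FixedPoints.subfield G F] Ω := { f with commutes' := fun x => hf x }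
  obtain ⟨g, hg⟩ := FixedPoints.toAlgAut_surjective G F
    (Normal.algHomEquivAut (FixedPoints.subfield G F) Ω F fA)
  refine ⟨g, fun x => ?_⟩
  have h1 : (Normal.algHomEquivAut (FixedPoints.subfield G F) Ω F).symm
      (MulSemiringAction.toAlgAut G (FixedPoints.subfield G F) F g) = fA := by
    rw [hg, Equiv.symm_apply_apply]
  have h2 := DFunLike.congr_fun h1 x
  exact h2.symm

/-- two embeddings of a Galois extension which agree on the base field differ by an automorphism -/
private theorem strC_gal {k : Type} [Field k] {K : Type} [Field K] [Algebra k K] [IsGalois k K]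
    {Ω : Type} [Field Ω] (j lam : K →+* Ω)
    (h : ∀ c : k, lam (algebraMap k K c) = j (algebraMap k K c)) :
    ∃ s : K ≃ₐ[k] K, ∀ a, lam a = j (s a) := by
  let _ : Algebra K Ω := j.toAlgebra
  let _ : Algebra k Ω := (j.comp (algebraMap k K)).toAlgebra
  have : IsScalarTower k K Ω := IsScalarTower.of_algebraMap_eq fun _ => rfl
  let lamA : K →ₐ[k] Ω := { lam with commutes' := fun x => h x }
  refine ⟨Normal.algHomEquivAut k Ω K lamA, fun a => ?_⟩
  have h1 : (Normal.algHomEquivAut k Ω K).symm (Normal.algHomEquivAut k Ω K lamA) = lamA := by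
    rw [Equiv.symm_apply_apply]
  have h2 := DFunLike.congr_fun h1 a
  exact h2.symm

private theorem strC_ext {K : Type} [Field K] {d : ℕ} {Ω : Type} [Field Ω]
    {f f' : RF K d →+* Ω} (h : ∀ a : K, f (algebraMap K (RF K d) a) = f' (algebraMap K (RF K d) a))
    (h' : ∀ i, f (xv K i) = f' (xv K i)) : f = f' := by
  refine IsLocalization.ringHom_ext (nonZeroDivisors (MvPolynomial (Fin d) K)) ?_
  refine MvPolynomial.ringHom_ext (fun a => ?_) fun i => h' i
  have e : algebraMap K (RF K d) a =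
      algebraMap (MvPolynomial (Fin d) K) (RF K d) (MvPolynomial.C a) :=
    IsScalarTower.algebraMap_apply K (MvPolynomial (Fin d) K) (RF K d) a
  have h1 := h a
  rw [e] at h1
  exact h1

/-- Proof: as `loc_hom` in dc/TrC.lean.  `algebraMap L Ω ∘ θ ∘ e.symm` on `fixF β` extends to
`θ₁ : RF K d →+* Ω` (`RF K d` is algebraic over `fixF β`).  The two embeddings `θ₁ ∘ algebraMap` and
`lam` of `K` agree on `k` (`hlam`); `K / k` is a Galois extension, so `lam = θ₁ ∘ algebraMap ∘ s` with
`s ∈ Gal(K/k)`, `s = α g`; `θ' = θ₁ ∘ β g`.  For `τ` there is a unique `ρ τ` with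
`τ ∘ θ' = θ' ∘ β (ρ τ)` (`trC_conj`): a homomorphism.  Continuity: `Cts.of_fix` for the images under
`θ'` of the variables and of a basis of `K` over `k`. -/
theorem loc_hom2 {k : Type} [Field k] [CharZero k] {K : Type} [Field K] [Algebra k K]
    [FiniteDimensional k K] [IsGalois k K] {G : Type} [Group G] [Finite G]
    {α : G →* (K ≃ₐ[k] K)} (hα : Function.Surjective α) {d : ℕ}
    (β : G →* (RF K d ≃ₐ[k] RF K d)) (hβ : SemiLin α β) {E : Type u} [Field E] [Algebra k E]
    (e : E ≃ₐ[k] fixF β) {L : Type} [Field L] [CharZero L] {Ω : Type} [Field Ω] [Algebra L Ω]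
    [IsAlgClosed Ω] [Algebra.IsAlgebraic L Ω] (θ : E →+* L) (lam : K →+* Ω)
    (hlam : ∀ c : k, lam (algebraMap k K c) = algebraMap L Ω (θ (algebraMap k E c))) :
    ∃ (θ' : RF K d →+* Ω) (ρ : (Ω ≃ₐ[L] Ω) →* G), Cts ρ ∧
      (∀ z : E, θ' (e z : RF K d) = algebraMap L Ω (θ z)) ∧
      (∀ a : K, θ' (algebraMap K (RF K d) a) = lam a) ∧
      ∀ τ x, τ (θ' x) = θ' (β (ρ τ) x) := by
  let _ : MulSemiringAction G (RF K d) := MulSemiringAction.compHom (RF K d) β
  let ι : FixedPoints.subfield G (RF K d) →+* fixF β :=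
    { toFun := fun x => ⟨x.1, (mem_fixF β x.1).2 fun g => x.2 g⟩
      map_one' := rfl
      map_mul' := fun _ _ => rfl
      map_zero' := rfl
      map_add' := fun _ _ => rfl }
  let φ : FixedPoints.subfield G (RF K d) →+* Ω :=
    (algebraMap L Ω).comp (θ.comp ((e.symm : fixF β →+* E).comp ι))
  obtain ⟨θ₁, hθ₁⟩ := strC_lift φ
  have hφ₁ : ∀ (x : RF K d) (hx : x ∈ fixF β), θ₁ x = algebraMap L Ω (θ (e.symm ⟨x, hx⟩)) :=
    fun x hx => hθ₁ ⟨x, fun g => (mem_fixF β x).1 hx g⟩
  -- the embedding of `K`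
  have hk : ∀ c : k, lam (algebraMap k K c) =
      (θ₁.comp (algebraMap K (RF K d))) (algebraMap k K c) := by
    intro c
    have h1 : algebraMap K (RF K d) (algebraMap k K c) = algebraMap k (RF K d) c :=
      (IsScalarTower.algebraMap_apply k K (RF K d) c).symm
    have h2 : algebraMap k (RF K d) c ∈ fixF β := (fixF β).algebraMap_mem c
    rw [hlam c, RingHom.comp_apply, h1, hφ₁ _ h2]
    have h3 : (⟨algebraMap k (RF K d) c, h2⟩ : fixF β) = algebraMap k (fixF β) c := rfl
    rw [h3, e.symm.commutes]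
  obtain ⟨s, hs⟩ := strC_gal (θ₁.comp (algebraMap K (RF K d))) lam hk
  obtain ⟨g₀, rfl⟩ := hα s
  obtain ⟨θ', hθ'⟩ : ∃ θ' : RF K d →+* Ω, ∀ x, θ' x = θ₁ (β g₀ x) :=
    ⟨θ₁.comp (β g₀ : RF K d →+* RF K d), fun _ => rfl⟩
  have hφ : ∀ (x : RF K d) (hx : x ∈ fixF β), θ' x = algebraMap L Ω (θ (e.symm ⟨x, hx⟩)) := by
    intro x hx
    rw [hθ', (mem_fixF β x).1 hx g₀, hφ₁ x hx]
  have hK : ∀ a : K, θ' (algebraMap K (RF K d) a) = lam a := by
    intro a
    rw [hθ', hβ.coeff, hs]
    rfl
  have hinj : Function.Injective θ' := θ'.injective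
  have hg : ∀ τ : Ω ≃ₐ[L] Ω, ∃ g : G, ∀ x, τ (θ' x) = θ' (β g x) := by
    intro τ
    obtain ⟨g, hg⟩ := strC_conj θ' ((τ : Ω →+* Ω).comp θ')
      (fun x : FixedPoints.subfield G (RF K d) => by
        show τ (θ' x) = θ' x
        rw [hφ x.1 ((mem_fixF β x.1).2 fun g => x.2 g)]
        exact τ.commutes _)
    exact ⟨g, hg⟩
  have huniq : ∀ g g' : G, (∀ x, θ' (β g x) = θ' (β g' x)) → g = g' := by
    intro g g' h
    apply hβ.inj
    ext x
    exact hinj (h x)
  choose r hr using hg
  let ρ : (Ω ≃ₐ[L] Ω) →* G :=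
    { toFun := r
      map_one' := huniq _ _ fun x => by
        rw [← hr, map_one]
        rfl
      map_mul' := fun τ τ' => huniq _ _ fun x => by
        rw [← hr, map_mul]
        show τ (τ' (θ' x)) = θ' (β (r τ) (β (r τ') x))
        rw [hr τ', hr τ] }
  have hρ : ∀ τ x, τ (θ' x) = θ' (β (ρ τ) x) := hr
  let b := Module.finBasis k K
  let y : Fin d ⊕ Fin (Module.finrank k K) → Ω :=
    Sum.elim (fun i => θ' (xv K i)) fun j => θ' (algebraMap K (RF K d) (b j))
  refine ⟨θ', ρ, Cts.of_fix ρ y fun τ hτ => ?_, fun z => ?_, hK, hρ⟩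
  · have h1 : ∀ i, β (ρ τ) (xv K i) = xv K i := by
      intro i
      apply hinj
      rw [← hρ]
      exact hτ (Sum.inl i)
    have h2 : ∀ j, α (ρ τ) (b j) = b j := by
      intro j
      have h3 : β (ρ τ) (algebraMap K (RF K d) (b j)) = algebraMap K (RF K d) (b j) := by
        apply hinj
        rw [← hρ]
        exact hτ (Sum.inr j)
      rw [hβ.coeff] at h3
      exact (algebraMap K (RF K d)).injective h3
    have h3 : ∀ a : K, α (ρ τ) a = a := by
      intro a
      have h4 : ((α (ρ τ)).toLinearMap : K →ₗ[k] K) = LinearMap.id :=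
        b.ext fun j => h2 j
      exact LinearMap.congr_fun h4 a
    apply huniq
    intro x
    have h5 : θ'.comp (β (ρ τ) : RF K d →+* RF K d) = θ' := by
      refine strC_ext (fun a => ?_) fun i => ?_
      · show θ' (β (ρ τ) (algebraMap K (RF K d) a)) = _
        rw [hβ.coeff, h3]
      · show θ' (β (ρ τ) (xv K i)) = _
        rw [h1]
    rw [map_one]
    exact RingHom.congr_fun h5 x
  · rw [hφ (e z : RF K d) (e z).2]
    congr 2
    exact e.symm_apply_apply z

end DC83
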