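import Pool.Agent.H.MP_83e36b_nt.nr.SMain
import Pool.Agent.H.MP_83e36b_nt.dc.Gal

/-! Twisting of invariant polynomials, semilinear version. -/

set_option autoImplicit false

open Matrix

namespace DC83

open CM83 NR83

private theorem STrE_eval {k : Type} [Field k] {K : Type} [Field K] [Algebra k K] {G : Type}
    [Group G] {α : G →* (K ≃ₐ[k] K)} {d : ℕ} {β : G →* (RF K d ≃ₐ[k] RF K d)}
    (hβ : SemiLin α β) {N : G → Matrix (Fin d) (Fin d) K}
    (hN : ∀ g i, β g (xv K i) = ∑ j, algebraMap K (RF K d) (N g i j) * xv K j)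
    {P : MvPolynomial (Fin d) K}
    (hP : ∀ g, β g (algebraMap _ (RF K d) P) = algebraMap _ (RF K d) P)
    {L : Type} [CommRing L] (φ : K →+* L) (g : G) (w : Fin d → L) :
    MvPolynomial.eval₂ (φ.comp ((α g : K ≃ₐ[k] K) : K →+* K)) (((N g).map φ) *ᵥ w) P =
      MvPolynomial.eval₂ φ w P := by
  obtain ⟨θ, hθ⟩ : ∃ θ : MvPolynomial (Fin d) K →+* MvPolynomial (Fin d) K,
      θ = MvPolynomial.eval₂Hom
        ((MvPolynomial.C : K →+* MvPolynomial (Fin d) K).comp ((α g : K ≃ₐ[k] K) : K →+* K))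
        (fun i => ∑ j, MvPolynomial.C (N g i j) * MvPolynomial.X j) := ⟨_, rfl⟩
  have h1 : (algebraMap (MvPolynomial (Fin d) K) (RF K d)).comp θ =
      ((β g : RF K d ≃ₐ[k] RF K d) : RF K d →+* RF K d).comp
        (algebraMap (MvPolynomial (Fin d) K) (RF K d)) := by
    refine MvPolynomial.ringHom_ext (fun a => ?_) (fun i => ?_)
    · have h2 : ∀ b : K, algebraMap (MvPolynomial (Fin d) K) (RF K d) (MvPolynomial.C b) =
          algebraMap K (RF K d) b := fun b =>
        (IsScalarTower.algebraMap_apply K (MvPolynomial (Fin d) K) (RF K d) b).symm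
      rw [RingHom.comp_apply, RingHom.comp_apply, hθ, MvPolynomial.eval₂Hom_C,
        RingHom.comp_apply, h2, h2]
      exact (hβ.coeff g a).symm
    · rw [RingHom.comp_apply, RingHom.comp_apply, hθ, MvPolynomial.eval₂Hom_X', map_sum]
      refine Eq.trans ?_ (hN g i).symm
      refine Finset.sum_congr rfl fun j _ => ?_
      rw [map_mul]
      have h2 : algebraMap (MvPolynomial (Fin d) K) (RF K d) (MvPolynomial.C (N g i j)) =
          algebraMap K (RF K d) (N g i j) :=
        (IsScalarTower.algebraMap_apply K (MvPolynomial (Fin d) K) (RF K d) _).symm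
      rw [h2]
      rfl
  have h3 : θ P = P := by
    apply IsFractionRing.injective (MvPolynomial (Fin d) K) (RF K d)
    have h4 := RingHom.congr_fun h1 P
    rw [RingHom.comp_apply, RingHom.comp_apply] at h4
    rw [h4]
    exact hP g
  have h5 : (MvPolynomial.eval₂Hom φ w).comp θ =
      MvPolynomial.eval₂Hom (φ.comp ((α g : K ≃ₐ[k] K) : K →+* K)) (((N g).map φ) *ᵥ w) := by
    refine MvPolynomial.ringHom_ext (fun a => ?_) (fun i => ?_)
    · rw [RingHom.comp_apply, hθ, MvPolynomial.eval₂Hom_C, MvPolynomial.eval₂Hom_C,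
        RingHom.comp_apply, RingHom.comp_apply, MvPolynomial.eval₂Hom_C]
    · rw [RingHom.comp_apply, hθ, MvPolynomial.eval₂Hom_X', MvPolynomial.eval₂Hom_X', map_sum]
      simp only [map_mul, MvPolynomial.eval₂Hom_C, MvPolynomial.eval₂Hom_X']
      rfl
  have h6 := RingHom.congr_fun h5 P
  rw [RingHom.comp_apply, h3] at h6
  exact h6.symm

/-- An invariant polynomial at a point moved by the group.  Proof: `P^(α g) (N(g) x) = P(x)` as
polynomials (the images in `RF K d` are `β g P` and `P`); see `TrE_eval` in dc/TrE.lean. -/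
theorem eval_invariant2 {k : Type} [Field k] {K : Type} [Field K] [Algebra k K] {G : Type}
    [Group G] {α : G →* (K ≃ₐ[k] K)} {d : ℕ} {β : G →* (RF K d ≃ₐ[k] RF K d)}
    (hβ : SemiLin α β) {N : G → Matrix (Fin d) (Fin d) K}
    (hN : ∀ g i, β g (xv K i) = ∑ j, algebraMap K (RF K d) (N g i j) * xv K j)
    {P : MvPolynomial (Fin d) K}
    (hP : ∀ g, β g (algebraMap _ (RF K d) P) = algebraMap _ (RF K d) P)
    {L : Type} [Field L] (φ : K →+* L) (g : G) (w : Fin d → L) :
    MvPolynomial.eval₂ (φ.comp ((α g : K ≃ₐ[k] K) : K →+* K)) (((N g).map φ) *ᵥ w) P =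
      MvPolynomial.eval₂ φ w P :=
  STrE_eval hβ hN hP φ g w

/-- Proof: the coefficients of the polynomial `P^κ (T x)` over `Ω` are fixed by all `τ`
(`eval_invariant2` for `κ`, `ρ τ` and the points of the infinite field `Ω`, `MvPolynomial.funext`), so
they are in `k` (`exists_of_fixed`); see `exists_twist` in dc/TrE.lean. -/
theorem exists_twist2 {k : Type} [Field k] [CharZero k] {K : Type} [Field K] [Algebra k K]
    {G : Type} [Group G] {α : G →* (K ≃ₐ[k] K)} {d : ℕ} {β : G →* (RF K d ≃ₐ[k] RF K d)}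
    (hβ : SemiLin α β) {N : G → Matrix (Fin d) (Fin d) K}
    (hN : ∀ g i, β g (xv K i) = ∑ j, algebraMap K (RF K d) (N g i j) * xv K j)
    {P : MvPolynomial (Fin d) K}
    (hP : ∀ g, β g (algebraMap _ (RF K d) P) = algebraMap _ (RF K d) P)
    {Ω : Type} [Field Ω] [Algebra k Ω] [IsAlgClosed Ω] [Algebra.IsAlgebraic k Ω]
    {ρ : (Ω ≃ₐ[k] Ω) →* G} {κ : K →+* Ω} (hκ : ∀ τ x, τ (κ x) = κ (α (ρ τ) x))
    {T : Matrix (Fin d) (Fin d) Ω}
    (hT : ∀ τ : Ω ≃ₐ[k] Ω, T.map τ = (N (ρ τ)).map κ * T) :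
    ∃ P' : MvPolynomial (Fin d) k, ∀ (L : Type) [Field L] (j : Ω →+* L) (c : Fin d → L),
      MvPolynomial.eval₂ (j.comp (algebraMap k Ω)) c P' =
        MvPolynomial.eval₂ (j.comp κ) ((T.map j) *ᵥ c) P := by
  classical
  obtain ⟨φ, hφ⟩ : ∃ φ : K →+* MvPolynomial (Fin d) Ω,
      φ = (MvPolynomial.C : Ω →+* MvPolynomial (Fin d) Ω).comp κ := ⟨_, rfl⟩
  obtain ⟨w, hw⟩ : ∃ w : Fin d → MvPolynomial (Fin d) Ω,
      w = fun i => ∑ j, MvPolynomial.C (T i j) * MvPolynomial.X j := ⟨_, rfl⟩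
  obtain ⟨Q, hQ⟩ : ∃ Q, Q = MvPolynomial.eval₂ φ w P := ⟨_, rfl⟩
  have hfix : ∀ τ : Ω ≃ₐ[k] Ω, MvPolynomial.map (τ : Ω →+* Ω) Q = Q := by
    intro τ
    have h1 := STrE_eval hβ hN hP φ (ρ τ) w
    rw [← hQ] at h1
    have h2 : MvPolynomial.map (τ : Ω →+* Ω) Q =
        MvPolynomial.eval₂ (φ.comp ((α (ρ τ) : K ≃ₐ[k] K) : K →+* K))
          (fun i => MvPolynomial.map (τ : Ω →+* Ω) (w i)) P := by
      rw [hQ, MvPolynomial.eval₂_comp_left]
      congr 1
      rw [hφ]
      refine RingHom.ext fun a => ?_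
      rw [RingHom.comp_apply, RingHom.comp_apply, MvPolynomial.map_C, RingHom.comp_apply,
        RingHom.comp_apply]
      congr 1
      exact hκ τ a
    rw [h2, ← h1]
    congr 1
    funext i
    have h3 : ∀ j, τ (T i j) = ∑ l, κ (N (ρ τ) i l) * T l j := by
      intro j
      have h4 := congrFun (congrFun (hT τ) i) j
      rw [Matrix.map_apply, Matrix.mul_apply] at h4
      rw [h4]
      rfl
    have h5 : (((N (ρ τ)).map φ) *ᵥ w) i = ∑ l, φ (N (ρ τ) i l) * w l := rfl
    rw [h5, hw, hφ]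
    simp only [map_sum, map_mul, MvPolynomial.map_C, MvPolynomial.map_X, RingHom.comp_apply,
      Finset.mul_sum]
    rw [Finset.sum_comm]
    refine Finset.sum_congr rfl fun j _ => ?_
    have h6 : (τ : Ω →+* Ω) (T i j) = τ (T i j) := rfl
    rw [h6, h3 j, map_sum, Finset.sum_mul]
    refine Finset.sum_congr rfl fun l _ => ?_
    rw [map_mul, mul_assoc]
  have hcoef : ∀ m, ∃ a : k, algebraMap k Ω a = MvPolynomial.coeff m Q := by
    intro m
    refine exists_of_fixed fun τ => ?_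
    have h1 := congrArg (MvPolynomial.coeff m) (hfix τ)
    rw [MvPolynomial.coeff_map] at h1
    exact h1
  choose a ha using hcoef
  obtain ⟨P', hP'⟩ : ∃ P' : MvPolynomial (Fin d) k,
      P' = ∑ m ∈ Q.support, MvPolynomial.monomial m (a m) := ⟨_, rfl⟩
  have hmap : MvPolynomial.map (algebraMap k Ω) P' = Q := by
    rw [hP', map_sum]
    simp only [MvPolynomial.map_monomial, ha]
    exact MvPolynomial.support_sum_monomial_coeff Q
  refine ⟨P', fun L _ j c => ?_⟩
  have h1 : MvPolynomial.eval₂ (j.comp (algebraMap k Ω)) c P' =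
      MvPolynomial.eval₂ j c (MvPolynomial.map (algebraMap k Ω) P') := by
    rw [MvPolynomial.eval₂_map]
  rw [h1, hmap, hQ]
  have h2 := MvPolynomial.eval₂_comp_left (MvPolynomial.eval₂Hom j c) φ w P
  have h3 : MvPolynomial.eval₂ j c (MvPolynomial.eval₂ φ w P) =
      MvPolynomial.eval₂Hom j c (MvPolynomial.eval₂ φ w P) := rfl
  rw [h3, h2]
  have h4 : (MvPolynomial.eval₂Hom j c).comp φ = j.comp κ := by
    rw [hφ]
    refine RingHom.ext fun b => ?_
    rw [RingHom.comp_apply, RingHom.comp_apply, MvPolynomial.eval₂Hom_C, RingHom.comp_apply]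
  have h5 : (MvPolynomial.eval₂Hom j c) ∘ w = (T.map j) *ᵥ c := by
    funext i
    have h6 : ((T.map j) *ᵥ c) i = ∑ l, j (T i l) * c l := rfl
    rw [Function.comp_apply, h6, hw, map_sum]
    refine Finset.sum_congr rfl fun l _ => ?_
    rw [map_mul, MvPolynomial.eval₂Hom_C, MvPolynomial.eval₂Hom_X']
  rw [h4, h5]

end DC83
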