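import Pool.Agent.H.MP_83e36b_nt.dc.Defs

/-! The subgroup `2.A_n` of `2.A_(n+m)`. -/

set_option autoImplicit false

namespace DC83

/-- the subgroup `2.A_n` of the double cover `2.A_(n+m) = dAlt (n + m)`: the subgroup generated by the
elements `(1/2) (e_i - e_j) (e_k - e_l)` with `i, j, k, l` among the first `n` indices, `i ≠ j`,
`k ≠ l` -/
def dAltIn (n m : ℕ) : Subgroup (dAlt (n + m)) :=
  Subgroup.closure {x | ∃ i j k l : Fin n, i ≠ j ∧ k ≠ l ∧
    (x.1 : Matrix (Ix (n + m)) (Ix (n + m)) ℚ) = (1 / 2 : ℚ) •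
      ((cE ℚ (n + m) (Fin.castAdd m i) - cE ℚ (n + m) (Fin.castAdd m j)) *
        (cE ℚ (n + m) (Fin.castAdd m k) - cE ℚ (n + m) (Fin.castAdd m l)))}

/-- the homomorphism `φ` from `G` to the double cover `2.A_(n+m)` maps the kernel of `α`
isomorphically onto the subgroup `2.A_n` -/
structure KerTwoAlt {n m : ℕ} {G : Type*} [Group G] {A : Type*} [Group A] (α : G →* A)
    (φ : G →* dAlt (n + m)) : Prop where
  inj : ∀ g, α g = 1 → φ g = 1 → g = 1
  image : α.ker.map φ = dAltIn n m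

end DC83
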