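import Pool.Agent.H.MP_83e36b_nt.dc.Perm
import Pool.Agent.H.MP_83e36b_nt.td.Blk
import Pool.Agent.H.MP_83e36b_nt.td.DDef

/-! The subgroup `2.A_n` of `2.A_(n+m)` and the homomorphisms which map a kernel onto it. -/

set_option autoImplicit false

open Matrix

namespace DC83

variable {n m : ℕ}

private theorem Grp_swap (i j : Fin n) :
    Equiv.swap (Fin.castAdd m i) (Fin.castAdd m j) = bP (Equiv.swap i j) (1 : Equiv.Perm (Fin m)) := by
  refine Equiv.ext fun a => ?_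
  refine Fin.addCases (fun a => ?_) (fun a => ?_) a
  · rw [bP_castAdd, (Fin.castAdd_injective n m).swap_apply]
  · rw [bP_natAdd, Equiv.Perm.one_apply, Equiv.swap_apply_of_ne_of_ne]
    · intro h
      have := congrArg Fin.val h
      simp at this
      have := i.2
      omega
    · intro h
      have := congrArg Fin.val h
      simp at this
      have := j.2
      omega

private theorem Grp_sq {i j : Fin n} (h : i ≠ j) :
    (cE ℚ n i - cE ℚ n j) * (cE ℚ n i - cE ℚ n j) = (2 : ℚ) • 1 := by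
  have h1 := cE_anti ℚ n h
  rw [sub_mul, mul_sub, mul_sub, cE_sq, cE_sq, h1, two_smul]
  abel

private theorem Grp_inv {i j k l : Fin n} (h : i ≠ j) (h' : k ≠ l) :
    ((1 / 2 : ℚ) • ((cE ℚ n i - cE ℚ n j) * (cE ℚ n k - cE ℚ n l))) *
      ((1 / 2 : ℚ) • ((cE ℚ n k - cE ℚ n l) * (cE ℚ n i - cE ℚ n j))) = 1 := by
  have e1 := Grp_sq h
  have e2 := Grp_sq h'
  generalize cE ℚ n i - cE ℚ n j = a at *
  generalize cE ℚ n k - cE ℚ n l = b at *
  have e3 : a * b * (b * a) = (4 : ℚ) • 1 := by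
    calc a * b * (b * a) = a * (b * b) * a := by simp only [mul_assoc]
      _ = (2 : ℚ) • (a * a) := by
          rw [e2, Matrix.mul_smul, mul_one, Matrix.smul_mul]
      _ = (4 : ℚ) • 1 := by rw [e1, smul_smul]; norm_num
  rw [Matrix.smul_mul, Matrix.mul_smul, e3, smul_smul, smul_smul]
  norm_num

private theorem Grp_ne {i j : Fin n} (h : i ≠ j) : Fin.castAdd m i ≠ Fin.castAdd m j :=
  fun e => h (Fin.castAdd_injective n m e)

private theorem Grp_gen {x : dAlt (n + m)} {i j k l : Fin n} (h : i ≠ j) (h' : k ≠ l)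
    (hx : (x.1 : Matrix (Ix (n + m)) (Ix (n + m)) ℚ) = (1 / 2 : ℚ) •
      ((cE ℚ (n + m) (Fin.castAdd m i) - cE ℚ (n + m) (Fin.castAdd m j)) *
        (cE ℚ (n + m) (Fin.castAdd m k) - cE ℚ (n + m) (Fin.castAdd m l)))) :
    pi (n + m) x = bP (Equiv.swap i j * Equiv.swap k l) 1 := by
  have h1 := spn_gen (AlgebraicClosure ℚ) (Grp_ne (m := m) h) (Grp_ne (m := m) h')
  rw [← hx] at h1
  have h2 := inv_injective (pM_inj _ (Spn.unique two_ne_zero (spn_pi (AlgebraicClosure ℚ) x) h1))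
  rw [h2, Grp_swap, Grp_swap, bP_mul, mul_one]

private theorem Grp_pair {i j k l : Fin n} (h : i ≠ j) (h' : k ≠ l) :
    ∃ x ∈ dAltIn n m, pi (n + m) x = bP (Equiv.swap i j * Equiv.swap k l) 1 := by
  let u : (Matrix (Ix (n + m)) (Ix (n + m)) ℚ)ˣ :=
    ⟨(1 / 2 : ℚ) • ((cE ℚ (n + m) (Fin.castAdd m i) - cE ℚ (n + m) (Fin.castAdd m j)) *
        (cE ℚ (n + m) (Fin.castAdd m k) - cE ℚ (n + m) (Fin.castAdd m l))),
      (1 / 2 : ℚ) • ((cE ℚ (n + m) (Fin.castAdd m k) - cE ℚ (n + m) (Fin.castAdd m l)) *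
        (cE ℚ (n + m) (Fin.castAdd m i) - cE ℚ (n + m) (Fin.castAdd m j))),
      Grp_inv (Grp_ne h) (Grp_ne h'), Grp_inv (Grp_ne h') (Grp_ne h)⟩
  have hu : u ∈ dAlt (n + m) :=
    Subgroup.subset_closure ⟨_, _, _, _, Grp_ne h, Grp_ne h', rfl⟩
  exact ⟨⟨u, hu⟩, Subgroup.subset_closure ⟨i, j, k, l, h, h', rfl⟩,
    Grp_gen (x := ⟨u, hu⟩) h h' rfl⟩

private theorem Grp_list (k : ℕ) : ∀ l : List (Equiv.Perm (Fin n)), l.length = 2 * k →
    (∀ g ∈ l, Equiv.Perm.IsSwap g) → ∃ x ∈ dAltIn n m, pi (n + m) x = bP l.prod 1 := by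
  induction k with
  | zero =>
    intro l hl _
    have h0 : l = [] := List.eq_nil_of_length_eq_zero (by omega)
    subst h0
    exact ⟨1, one_mem _, by rw [map_one, List.prod_nil, bP_one]⟩
  | succ k ih =>
    intro l hl hv
    match l, hl, hv with
    | [], hl, _ => simp at hl
    | [a], hl, _ => simp at hl; omega
    | a :: b :: t, hl, hv =>
      obtain ⟨x, hxm, hx⟩ := ih t (by simp at hl; omega)
        (fun v hv' => hv v (List.mem_cons_of_mem a (List.mem_cons_of_mem b hv')))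
      obtain ⟨i, j, hij, rfl⟩ := hv a List.mem_cons_self
      obtain ⟨k', l', hkl, rfl⟩ := hv b (List.mem_cons_of_mem _ List.mem_cons_self)
      obtain ⟨y, hym, hy⟩ := Grp_pair (m := m) hij hkl
      exact ⟨y * x, mul_mem hym hxm, by
        rw [map_mul, hx, hy, List.prod_cons, List.prod_cons, bP_mul, mul_one, mul_assoc]⟩

private theorem Grp_neg (hn : 2 ≤ n) {x : dAlt (n + m)}
    (hx : (x.1 : Matrix (Ix (n + m)) (Ix (n + m)) ℚ) = -1) : x ∈ dAltIn n m := by
  have hij : (⟨0, by omega⟩ : Fin n) ≠ ⟨1, by omega⟩ := by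
    intro h
    have := congrArg Fin.val h
    simp at this
  refine Subgroup.subset_closure ⟨⟨0, by omega⟩, ⟨1, by omega⟩, ⟨1, by omega⟩, ⟨0, by omega⟩, hij,
    hij.symm, ?_⟩
  rw [hx]
  have hij' := Grp_ne (m := m) hij
  have e1 := cE_sq ℚ (n + m) (Fin.castAdd m (⟨0, by omega⟩ : Fin n))
  have e2 := cE_sq ℚ (n + m) (Fin.castAdd m (⟨1, by omega⟩ : Fin n))
  have e3 := cE_anti ℚ (n + m) hij'
  generalize cE ℚ (n + m) (Fin.castAdd m (⟨0, by omega⟩ : Fin n)) = x at *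
  generalize cE ℚ (n + m) (Fin.castAdd m (⟨1, by omega⟩ : Fin n)) = y at *
  have e4 : (x - y) * (y - x) = -(2 : ℚ) • 1 := by
    have : (x - y) * (y - x) = x * y + y * x - x * x - y * y := by noncomm_ring
    rw [this, e1, e2, e3]
    rw [neg_smul, two_smul]
    abel
  rw [e4, smul_smul]
  simp

/-- Proof: the generator `(1/2) (e_i - e_j) (e_k - e_l)` is mapped to `swap i j * swap k l`
(`spn_gen` of dc/PermB.lean, `Spn.unique`, `pM_inj`), which is `bP (swap i j * swap k l) 1`. -/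
theorem pi_of_mem {x : dAlt (n + m)} (hx : x ∈ dAltIn n m) :
    ∃ σ : Equiv.Perm (Fin n), Equiv.Perm.sign σ = 1 ∧ pi (n + m) x = bP σ 1 := by
  unfold dAltIn at hx
  induction hx using Subgroup.closure_induction with
  | mem y hy =>
    obtain ⟨i, j, k, l, hij, hkl, e⟩ := hy
    refine ⟨Equiv.swap i j * Equiv.swap k l, ?_, Grp_gen hij hkl e⟩
    rw [Equiv.Perm.sign_mul, Equiv.Perm.sign_swap hij, Equiv.Perm.sign_swap hkl]
    simp
  | one => exact ⟨1, Equiv.Perm.sign_one, by rw [map_one, bP_one]⟩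
  | mul y z _ _ hy hz =>
    obtain ⟨σ, hσ, e⟩ := hy
    obtain ⟨τ, hτ, e'⟩ := hz
    exact ⟨σ * τ, by rw [Equiv.Perm.sign_mul, hσ, hτ, mul_one],
      by rw [map_mul, e, e', bP_mul, mul_one]⟩
  | inv y _ hy =>
    obtain ⟨σ, hσ, e⟩ := hy
    exact ⟨σ⁻¹, by rw [Equiv.Perm.sign_inv, hσ], by rw [map_inv, e, bP_inv, inv_one]⟩

private theorem Grp_even {σ : Equiv.Perm (Fin n)} (hσ : Equiv.Perm.sign σ = 1) :
    ∃ x ∈ dAltIn n m, pi (n + m) x = bP σ 1 := by
  obtain ⟨l, hl, hs⟩ := Equiv.Perm.swapFactors σ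
  have h1 := Equiv.Perm.sign_prod_list_swap hs
  rw [hl, hσ] at h1
  have h2 : Even l.length := by
    rcases Nat.even_or_odd l.length with h3 | h3
    · exact h3
    · exfalso
      rw [h3.neg_one_pow] at h1
      exact absurd h1 (by decide)
  obtain ⟨k, hk⟩ := h2
  obtain ⟨x, hxm, hx⟩ := Grp_list (m := m) k l (by omega) hs
  exact ⟨x, hxm, by rw [hx, hl]⟩

/-- Proof: as `exists_pi` of dc/Perm.lean (product of an even number of transpositions of the first `n`
elements); then `x = ± y`, `y` in the subgroup (`pi_ker`), and `-1` is in the subgroup (`neg_one_mem`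
of dc/PermB.lean, same proof: `(1/2) (e_0 - e_1) (e_1 - e_0)`). -/
theorem mem_of_pi (hn : 2 ≤ n) {x : dAlt (n + m)} {σ : Equiv.Perm (Fin n)}
    (hx : pi (n + m) x = bP σ 1) : x ∈ dAltIn n m := by
  have hs : Equiv.Perm.sign σ = 1 := by
    have h1 := sign_pi x
    rwa [hx, sign_bP, Equiv.Perm.sign_one, mul_one] at h1
  obtain ⟨y, hy, e⟩ := Grp_even (m := m) hs
  have h1 : pi (n + m) (x * y⁻¹) = 1 := by
    rw [map_mul, map_inv, hx, e, mul_inv_cancel]
  have h2 : x * y⁻¹ ∈ dAltIn n m := by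
    rcases pi_ker h1 with h2 | h2
    · have h3 : x * y⁻¹ = 1 := Subtype.ext (Units.ext h2)
      rw [h3]
      exact one_mem _
    · exact Grp_neg hn h2
  have h3 := mul_mem h2 hy
  rwa [inv_mul_cancel_right] at h3

/-- Proof: `sign_pi`: `sign σ = 1`; `exists_pi` of dc/Perm.lean for `bP κ 1` (even) and `mem_of_pi`. -/
theorem exists_in (hn : 2 ≤ n) {κ : Equiv.Perm (Fin n)} (hκ : Equiv.Perm.sign κ = 1) :
    ∃ x ∈ dAltIn n m, pi (n + m) x = bP κ 1 := by
  exact Grp_even hκ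

/-- Proof: `dAltIn n m` is normalised by the elements `φ g` (`image`; the kernel is normal).  For `n ≥ 3`
an element of `Fin (n + m)` is fixed by `pi x` for all `x` of `dAltIn n m` if and only if it is one of
the last `m` (3-cycles, `exists_in`, `pi_of_mem`); so `pi (φ g)` preserves the set of the first `n`:
`exists_bP`: `pi (φ g) = bP (σ g) (ψ g)`; `σ`, `ψ` are homomorphisms (`bP_mul`, `bP_inj`) and `ψ` is
trivial on the kernel of `α` (`pi_of_mem`), so `ψ g = π₂ (α g)` (`MonoidHom.liftOfSurjective` or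
`QuotientGroup.lift`). -/
theorem exists_blocks2 (hn : 3 ≤ n) {G : Type*} [Group G] {A : Type*} [Group A] {α : G →* A}
    (hα : Function.Surjective α) {φ : G →* dAlt (n + m)} (h : KerTwoAlt α φ) :
    ∃ (π₁ : G →* Equiv.Perm (Fin n)) (π₂ : A →* Equiv.Perm (Fin m)),
      ∀ g, pi (n + m) (φ g) = bP (π₁ g) (π₂ (α g)) := by
  -- the subgroup is normalised by the image
  have hnorm : ∀ g, ∀ y ∈ dAltIn n m, φ g * y * (φ g)⁻¹ ∈ dAltIn n m := by
    intro g y hy
    rw [← h.image] at hy ⊢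
    obtain ⟨k, hk, rfl⟩ := Subgroup.mem_map.1 hy
    refine Subgroup.mem_map.2 ⟨g * k * g⁻¹, ?_, by rw [map_mul, map_mul, map_inv]⟩
    rw [MonoidHom.mem_ker] at hk ⊢
    rw [map_mul, map_mul, map_inv, hk, mul_one, mul_inv_cancel]
  -- a first index is mapped to a first index
  have hstep : ∀ (g : G) (i : Fin n), ∃ j : Fin n,
      pi (n + m) (φ g) (Fin.castAdd m i) = Fin.castAdd m j := by
    intro g i
    obtain ⟨b, hb⟩ : ∃ b, pi (n + m) (φ g) (Fin.castAdd m i) = b := ⟨_, rfl⟩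
    revert hb
    refine Fin.addCases (fun j => ?_) (fun j => ?_) b
    · intro hb
      exact ⟨j, hb⟩
    · intro hb
      exfalso
      -- an even permutation which moves `i`
      obtain ⟨a, hai, c, hci, hca⟩ : ∃ a : Fin n, a ≠ i ∧ ∃ c : Fin n, c ≠ i ∧ c ≠ a := by
        have hcard : 2 < Fintype.card (Fin n) := by rw [Fintype.card_fin]; omega
        obtain ⟨x, y, z, hxy, hxz, hyz⟩ := Fintype.two_lt_card_iff.1 hcard
        by_cases h1 : x = i
        · subst h1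
          exact ⟨y, hxy.symm, z, hxz.symm, hyz.symm⟩
        · by_cases h2 : y = i
          · subst h2
            exact ⟨x, hxy, z, hyz.symm, hxz.symm⟩
          · exact ⟨x, h1, y, h2, hxy.symm⟩
      have hκ : Equiv.Perm.sign (Equiv.swap i a * Equiv.swap a c) = 1 := by
        rw [Equiv.Perm.sign_mul, Equiv.Perm.sign_swap hai.symm, Equiv.Perm.sign_swap hca.symm]
        simp
      obtain ⟨y, hy, hpy⟩ := Grp_even (m := m) hκ
      obtain ⟨σ, -, hσ⟩ := pi_of_mem (hnorm g y hy)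
      rw [map_mul, map_mul, map_inv, hpy] at hσ
      have h1 := congrArg (fun P => P (Fin.natAdd n j)) hσ
      simp only [Equiv.Perm.mul_apply] at h1
      have e5 : (pi (n + m) (φ g))⁻¹ (pi (n + m) (φ g) (Fin.castAdd m i)) = Fin.castAdd m i :=
        Equiv.symm_apply_apply _ _
      rw [bP_natAdd, Equiv.Perm.one_apply, ← hb, e5, bP_castAdd] at h1
      have h2 := Fin.castAdd_injective n m ((pi (n + m) (φ g)).injective h1)
      rw [Equiv.Perm.mul_apply, Equiv.swap_apply_of_ne_of_ne hai.symm hci.symm,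
        Equiv.swap_apply_left] at h2
      exact hai h2
  have hlt : ∀ (g : G) (i : Fin (n + m)), (i : ℕ) < n → (pi (n + m) (φ g) i : ℕ) < n := by
    intro g i hi
    obtain ⟨j, hj⟩ := hstep g ⟨i, hi⟩
    have e : Fin.castAdd m ⟨(i : ℕ), hi⟩ = i := Fin.ext rfl
    rw [e] at hj
    rw [hj]
    exact j.2
  have hiff : ∀ (g : G) (i : Fin (n + m)), (pi (n + m) (φ g) i : ℕ) < n ↔ (i : ℕ) < n := by
    intro g i
    refine ⟨fun hi => ?_, hlt g i⟩
    have h1 := hlt g⁻¹ _ hi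
    have e5 : (pi (n + m) (φ g))⁻¹ (pi (n + m) (φ g) i) = i := Equiv.symm_apply_apply _ _
    rwa [map_inv, map_inv, e5] at h1
  choose σ ψ hσψ using fun g => exists_bP (hiff g)
  have hmul : ∀ a b, σ (a * b) = σ a * σ b ∧ ψ (a * b) = ψ a * ψ b := by
    intro a b
    apply bP_inj
    rw [← hσψ, map_mul, map_mul, hσψ a, hσψ b, bP_mul]
  let ψ' : G →* Equiv.Perm (Fin m) := MonoidHom.mk' ψ fun a b => (hmul a b).2
  have hker : α.ker ≤ ψ'.ker := by
    intro k hk
    have h1 : φ k ∈ dAltIn n m := by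
      rw [← h.image]
      exact Subgroup.mem_map_of_mem φ hk
    obtain ⟨τ, -, hτ⟩ := pi_of_mem h1
    rw [hσψ k] at hτ
    exact (bP_inj hτ).2
  refine ⟨MonoidHom.mk' σ fun a b => (hmul a b).1, α.liftOfSurjective hα ⟨ψ', hker⟩, fun g => ?_⟩
  have h1 : α.liftOfSurjective hα ⟨ψ', hker⟩ (α g) = ψ' g :=
    MonoidHom.liftOfRightInverse_comp_apply _ _ _ _ _
  rw [h1]
  exact hσψ g

/-- Proof: let `α g = a`; `φ(g)⁻¹ x` has the permutation `bP ((π₁ g)⁻¹ * σ) 1`, so it is in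
`dAltIn n m` (`mem_of_pi`), the image of `k` in the kernel; `g * k`. -/
theorem exists_lift2 (hn : 2 ≤ n) {G : Type*} [Group G] {A : Type*} [Group A] {α : G →* A}
    (hα : Function.Surjective α) {φ : G →* dAlt (n + m)} (h : KerTwoAlt α φ)
    {π₁ : G →* Equiv.Perm (Fin n)} {π₂ : A →* Equiv.Perm (Fin m)}
    (hπ : ∀ g, pi (n + m) (φ g) = bP (π₁ g) (π₂ (α g))) {x : dAlt (n + m)} {a : A}
    {σ : Equiv.Perm (Fin n)} (hx : pi (n + m) x = bP σ (π₂ a)) : ∃ g, φ g = x ∧ α g = a := by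
  obtain ⟨g, rfl⟩ := hα a
  have h1 : pi (n + m) ((φ g)⁻¹ * x) = bP ((π₁ g)⁻¹ * σ) 1 := by
    rw [map_mul, map_inv, hπ, hx, bP_inv, bP_mul, inv_mul_cancel]
  have h2 := mem_of_pi hn h1
  rw [← h.image] at h2
  obtain ⟨k, hk, e⟩ := Subgroup.mem_map.1 h2
  rw [MonoidHom.mem_ker] at hk
  exact ⟨g * k, by rw [map_mul, e, mul_inv_cancel_left], by rw [map_mul, hk, mul_one]⟩

theorem lift2_inj {G : Type*} [Group G] {A : Type*} [Group A] {α : G →* A}
    {φ : G →* dAlt (n + m)} (h : KerTwoAlt α φ) {g g' : G} (h1 : φ g = φ g') (h2 : α g = α g') :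
    g = g' := by
  have h3 := h.inj (g * g'⁻¹) (by rw [map_mul, map_inv, h2, mul_inv_cancel])
    (by rw [map_mul, map_inv, h1, mul_inv_cancel])
  exact mul_inv_eq_one.1 h3

theorem exists_ker2 (hn : 2 ≤ n) {G : Type*} [Group G] {A : Type*} [Group A] {α : G →* A}
    {φ : G →* dAlt (n + m)} (h : KerTwoAlt α φ) {κ : Equiv.Perm (Fin n)}
    (hκ : Equiv.Perm.sign κ = 1) : ∃ g, α g = 1 ∧ pi (n + m) (φ g) = bP κ 1 := by
  obtain ⟨x, hx, e⟩ := Grp_even (m := m) hκ
  rw [← h.image] at hx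
  obtain ⟨k, hk, rfl⟩ := Subgroup.mem_map.1 hx
  exact ⟨k, MonoidHom.mem_ker.1 hk, e⟩

/-- the element of order 2 -/
theorem exists_neg2 (hn : 2 ≤ n) {G : Type*} [Group G] {A : Type*} [Group A] {α : G →* A}
    {φ : G →* dAlt (n + m)} (h : KerTwoAlt α φ) :
    ∃ z : G, α z = 1 ∧ ((φ z).1 : Matrix (Ix (n + m)) (Ix (n + m)) ℚ) = -1 ∧
      (∀ g, z * g = g * z) ∧ z * z = 1 := by
  let x : dAlt (n + m) := ⟨-1, neg_one_mem (by omega)⟩
  have hx1 : (x.1 : Matrix (Ix (n + m)) (Ix (n + m)) ℚ) = -1 := by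
    show ((-1 : (Matrix (Ix (n + m)) (Ix (n + m)) ℚ)ˣ) : Matrix (Ix (n + m)) (Ix (n + m)) ℚ) = -1
    rw [Units.val_neg, Units.val_one]
  have hx : x ∈ dAltIn n m := Grp_neg hn hx1
  rw [← h.image] at hx
  obtain ⟨z, hz, e⟩ := Subgroup.mem_map.1 hx
  rw [MonoidHom.mem_ker] at hz
  have hcomm : ∀ y : dAlt (n + m), x * y = y * x := by
    intro y
    apply Subtype.ext
    apply Units.ext
    rw [Subgroup.coe_mul, Subgroup.coe_mul, Units.val_mul, Units.val_mul, hx1, neg_one_mul,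
      mul_neg_one]
  have hsq : x * x = 1 := by
    apply Subtype.ext
    apply Units.ext
    rw [Subgroup.coe_mul, Units.val_mul, hx1, neg_mul_neg, one_mul]
    rfl
  refine ⟨z, hz, by rw [e]; exact hx1, fun g => ?_, ?_⟩
  · apply lift2_inj h
    · rw [map_mul, map_mul, e, hcomm]
    · rw [map_mul, map_mul, hz, one_mul, mul_one]
  · apply h.inj
    · rw [map_mul, hz, one_mul]
    · rw [map_mul, e, hsq]

end DC83
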