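import Pool.Agent.H.MP_83e36b_nt.dc.Cmp
import Pool.Agent.H.MP_83e36b_nt.dc.Quad
import Pool.Agent.H.MP_83e36b_nt.td.Grp

/-! Comparison of two lifts to `G`. -/

set_option autoImplicit false

open Matrix Polynomial

namespace DC83

/-- the signs in `G`.  Proof: `exists_neg2`. -/
theorem exists_c {n m : ℕ} (hn : 2 ≤ n) {G : Type} [Group G] {A : Type} [Group A] {α : G →* A}
    {φ : G →* dAlt (n + m)} (h : KerTwoAlt α φ) :
    ∃ c : ℤˣ →* G, (∀ u, α (c u) = 1) ∧ (∀ u, ((φ (c u)).1 : Matrix (Ix (n + m)) (Ix (n + m)) ℚ) =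
      ((u : ℤ) : Matrix (Ix (n + m)) (Ix (n + m)) ℚ)) ∧ ∀ u g, c u * g = g * c u := by
  obtain ⟨z, hz1, hz2, hz3, hz4⟩ := exists_neg2 hn h
  obtain ⟨f, hf1, hf2⟩ : ∃ f : ℤˣ → G, f 1 = 1 ∧ f (-1) = z :=
    ⟨fun u => if u = 1 then 1 else z, if_pos rfl, if_neg (by decide)⟩
  have hmul : ∀ u v, f (u * v) = f u * f v := by
    intro u v
    rcases Int.units_eq_one_or u with rfl | rfl
    · rw [one_mul, hf1, one_mul]
    · rcases Int.units_eq_one_or v with rfl | rfl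
      · rw [mul_one, hf1, mul_one]
      · rw [hf2, hz4, ← hf1]
        rfl
  refine ⟨MonoidHom.mk' f hmul, fun u => ?_, fun u => ?_, fun u g => ?_⟩
  · show α (f u) = 1
    rcases Int.units_eq_one_or u with rfl | rfl
    · rw [hf1, map_one]
    · rw [hf2, hz1]
  · show ((φ (f u)).1 : Matrix (Ix (n + m)) (Ix (n + m)) ℚ) = _
    rcases Int.units_eq_one_or u with rfl | rfl
    · rw [hf1, map_one, Subgroup.coe_one, Units.val_one, Units.val_one, Int.cast_one]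
    · rw [hf2, hz2, Units.val_neg, Units.val_one, Int.cast_neg, Int.cast_one]
  · show f u * g = g * f u
    rcases Int.units_eq_one_or u with rfl | rfl
    · rw [hf1, one_mul, mul_one]
    · rw [hf2, hz3]

/-- Proof: `exists_lift2` for every `t`; a homomorphism by `lift2_inj`. -/
theorem exists_hom2 {n m : ℕ} (hn : 2 ≤ n) {G : Type} [Group G] {A : Type} [Group A] {α : G →* A}
    (hα : Function.Surjective α) {φ : G →* dAlt (n + m)} (h : KerTwoAlt α φ)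
    {π₁ : G →* Equiv.Perm (Fin n)} {π₂ : A →* Equiv.Perm (Fin m)}
    (hπ : ∀ g, pi (n + m) (φ g) = bP (π₁ g) (π₂ (α g))) {T : Type*} [Group T]
    (ρ : T →* dAlt (n + m)) (r : T →* A) (σ : T → Equiv.Perm (Fin n))
    (hρ : ∀ t, pi (n + m) (ρ t) = bP (σ t) (π₂ (r t))) :
    ∃ ρ' : T →* G, (∀ t, φ (ρ' t) = ρ t) ∧ ∀ t, α (ρ' t) = r t := by
  have h1 : ∀ t, ∃ g, φ g = ρ t ∧ α g = r t := fun t => exists_lift2 hn hα h hπ (hρ t)
  choose f hf1 hf2 using h1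
  refine ⟨MonoidHom.mk' f fun t t' => lift2_inj h ?_ ?_, hf1, hf2⟩
  · rw [map_mul, hf1, hf1, hf1, map_mul]
  · rw [map_mul, hf2, hf2, hf2, map_mul]

private theorem Cmp2_root {F : Type*} [Field F] {n : ℕ} {u y : Fin n → F}
    (hu : Function.Injective u)
    (h : ∏ i, (X - C (u i)) = ∏ i, (X - C (y i))) :
    ∃ κ : Equiv.Perm (Fin n), ∀ i, u i = y (κ i) := by
  have h1 : ∀ i, ∃ j, u i = y j := by
    intro i
    have h2 : (∏ j, (X - C (y j))).eval (u i) = 0 := by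
      rw [← h, eval_prod]
      exact Finset.prod_eq_zero (Finset.mem_univ i) (by simp)
    rw [eval_prod, Finset.prod_eq_zero_iff] at h2
    obtain ⟨j, -, hj⟩ := h2
    refine ⟨j, ?_⟩
    rw [eval_sub, eval_X, eval_C] at hj
    exact sub_eq_zero.1 hj
  choose κ hκ using h1
  have hinj : Function.Injective κ := by
    intro i j hij
    apply hu
    rw [hκ, hκ, hij]
  exact ⟨Equiv.ofBijective κ (Finite.injective_iff_bijective.1 hinj), hκ⟩

private theorem Cmp2_vand {F : Type*} [Field F] {n : ℕ} {u y : Fin n → F}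
    {κ : Equiv.Perm (Fin n)} (h : ∀ i, u i = y (κ i)) :
    (vandermonde u).det = ((Equiv.Perm.sign κ : ℤ) : F) * (vandermonde y).det := by
  have h1 : vandermonde u = (vandermonde y).submatrix κ id := by
    ext i j
    rw [submatrix_apply, vandermonde_apply, vandermonde_apply, h]
    rfl
  rw [h1, det_permute]

/-- the sign of a product with a sign is determined -/
private theorem Cmp2_inj {n m : ℕ} {G : Type} [Group G] {φ : G →* dAlt (n + m)} {c : ℤˣ →* G}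
    (hcφ : ∀ u, ((φ (c u)).1 : Matrix (Ix (n + m)) (Ix (n + m)) ℚ) =
      ((u : ℤ) : Matrix (Ix (n + m)) (Ix (n + m)) ℚ)) {u w : ℤˣ} (h : c u = c w) : u = w := by
  have h1 : ((u : ℤ) : Matrix (Ix (n + m)) (Ix (n + m)) ℚ) =
      ((w : ℤ) : Matrix (Ix (n + m)) (Ix (n + m)) ℚ) := by
    rw [← hcφ, ← hcφ, h]
  have a : Ix (n + m) := Classical.arbitrary _
  have h2 := congrFun (congrFun h1 a) a
  rw [← Matrix.diagonal_intCast, ← Matrix.diagonal_intCast, Matrix.diagonal_apply_eq,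
    Matrix.diagonal_apply_eq] at h2
  exact Units.ext (Int.cast_injective h2)

/-- `z` are the roots of a rational polynomial in `Qb`, `y` the roots of the same polynomial in `Ω`.
Proof: as `compare` of dc/Cmp.lean (copy the private lemmas).  `ι (z i) = y (κ i)`, `sign κ = 1`;
`g` from `exists_ker2` with `pi (φ g) = bP κ⁻¹ 1`, so `π₁ g = κ⁻¹` (`bP_inj`).  With `r` of
`exists_res` (dc/Res.lean): `ρ₁ (r τ)` and `g ρ(τ) g⁻¹` have the same image under `α` (`hα`) and under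
`π₁`, so `φ` of them are equal up to sign (`pi_ker`), `ρ₁ (r τ) = c (χ τ) * (g ρ(τ) g⁻¹)` (`lift2_inj`);
`χ` is a homomorphism (`c` is central and injective); continuity: `Cts.of_two`, `Cts.res`. -/
theorem compare2 {K : Type} [Field K] [CharZero K] {Ω : Type} [Field Ω] [CharZero Ω] [Algebra K Ω]
    [IsAlgClosed Ω] [Algebra.IsAlgebraic K Ω] (ι : Qb →+* Ω) {n m : ℕ} (hn : 2 ≤ n) {G : Type}
    [Group G] {A : Type} [Group A] {α : G →* A} {φ : G →* dAlt (n + m)} (h : KerTwoAlt α φ)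
    {π₁ : G →* Equiv.Perm (Fin n)} {π₂ : A →* Equiv.Perm (Fin m)}
    (hπ : ∀ g, pi (n + m) (φ g) = bP (π₁ g) (π₂ (α g))) {c : ℤˣ →* G}
    (hcα : ∀ u, α (c u) = 1) (hcφ : ∀ u, ((φ (c u)).1 : Matrix (Ix (n + m)) (Ix (n + m)) ℚ) =
      ((u : ℤ) : Matrix (Ix (n + m)) (Ix (n + m)) ℚ)) (hcc : ∀ u g, c u * g = g * c u)
    {a : Fin n → ℚ} {z : Fin n → Qb} (hz : Function.Injective z)
    (hza : AnWA.monicPoly (fun i => (Rat.cast (a i) : Qb)) = ∏ i, (X - C (z i)))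
    {ρ₁ : (Qb ≃ₐ[ℚ] Qb) →* G} (hρ₁ : ∀ τ i, τ (z i) = z (π₁ (ρ₁ τ) i)) (hc₁ : Cts ρ₁)
    {y : Fin n → Ω}
    (hya : AnWA.monicPoly (fun i => (Rat.cast (a i) : Ω)) = ∏ i, (X - C (y i)))
    {ρ : (Ω ≃ₐ[K] Ω) →* G} (hρ : ∀ τ i, τ (y i) = y (π₁ (ρ τ) i)) (hc : Cts ρ)
    (hα : ∀ τ τ₀, (∀ x, ι (τ₀ x) = τ (ι x)) → α (ρ₁ τ₀) = α (ρ τ))
    (hdet : (vandermonde y).det ≠ - ι ((vandermonde z).det)) :
    ∃ (g : G) (χ : (Ω ≃ₐ[K] Ω) →* ℤˣ), α g = 1 ∧ Cts χ ∧ ∀ τ τ₀, (∀ x, ι (τ₀ x) = τ (ι x)) →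
      ρ₁ τ₀ = c (χ τ) * (g * ρ τ * g⁻¹) := by
  have hιz : Function.Injective (fun i => ι (z i)) := fun i j h => hz (ι.injective h)
  have hpoly : ∏ i, (X - C (ι (z i))) = ∏ i, (X - C (y i)) := by
    rw [← hya]
    have h1 : (∏ i, (X - C (z i))).map ι = ∏ i, (X - C (ι (z i))) := by
      rw [Polynomial.map_prod]
      refine Finset.prod_congr rfl fun i _ => ?_
      rw [Polynomial.map_sub, Polynomial.map_X, Polynomial.map_C]
    rw [← h1, ← hza, ← AnWA.monicPoly_map]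
    congr 1
    funext i
    exact map_ratCast ι (a i)
  obtain ⟨κ, hκ⟩ := Cmp2_root hιz hpoly
  have hs : Equiv.Perm.sign κ = 1 := by
    rcases Int.units_eq_one_or (Equiv.Perm.sign κ) with h | h
    · exact h
    · exfalso
      apply hdet
      have h1 := Cmp2_vand hκ
      have h2 : ι (vandermonde z).det = (vandermonde fun i => ι (z i)).det := by
        rw [RingHom.map_det]
        congr 1
        ext i j
        rw [RingHom.mapMatrix_apply, map_apply, vandermonde_apply, vandermonde_apply, map_pow]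
      rw [h2, h1, h]
      simp
  have hy : Function.Injective y := by
    intro i j hij
    have h1 : ι (z (κ.symm i)) = ι (z (κ.symm j)) := by
      rw [hκ, hκ, Equiv.apply_symm_apply, Equiv.apply_symm_apply, hij]
    exact κ.symm.injective (hz (ι.injective h1))
  obtain ⟨g, hgα, hg⟩ := exists_ker2 hn h (κ := κ⁻¹) (by rw [Equiv.Perm.sign_inv, hs])
  have hgπ : π₁ g = κ⁻¹ := by
    have h1 := hπ g
    rw [hg] at h1
    exact (bP_inj h1).1.symm
  have hal : Algebra.IsAlgebraic ℚ Qb := AlgebraicClosure.isAlgebraic ℚ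
  obtain ⟨r, hr⟩ := exists_res (K := K) ι
  have hα' : ∀ τ, α (ρ₁ (r τ)) = α (g * ρ τ * g⁻¹) := by
    intro τ
    rw [map_mul, map_mul, map_inv, hgα, one_mul, inv_one, mul_one]
    exact hα τ (r τ) (hr τ)
  have hpi : ∀ τ, π₁ (ρ₁ (r τ)) = π₁ (g * ρ τ * g⁻¹) := by
    intro τ
    rw [map_mul, map_mul, map_inv, hgπ, inv_inv]
    refine Equiv.ext fun i => ?_
    apply κ.injective
    apply hy
    have e1 : κ (κ⁻¹ (π₁ (ρ τ) (κ i))) = π₁ (ρ τ) (κ i) := Equiv.apply_symm_apply κ _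
    show y (κ (π₁ (ρ₁ (r τ)) i)) = y (κ (κ⁻¹ (π₁ (ρ τ) (κ i))))
    rw [e1, ← hκ, ← hρ₁, hr, hκ, hρ]
  have hχ : ∀ τ, ∃ u : ℤˣ, ρ₁ (r τ) = c u * (g * ρ τ * g⁻¹) := by
    intro τ
    have h1 : pi (n + m) (φ (ρ₁ (r τ) * (g * ρ τ * g⁻¹)⁻¹)) = 1 := by
      rw [hπ, map_mul, map_mul, map_inv, map_inv, hpi, hα', mul_inv_cancel, mul_inv_cancel,
        map_one, bP_one]
    have h2 : ρ₁ (r τ) = (ρ₁ (r τ) * (g * ρ τ * g⁻¹)⁻¹) * (g * ρ τ * g⁻¹) := by
      rw [inv_mul_cancel_right]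
    have h4 : α (ρ₁ (r τ) * (g * ρ τ * g⁻¹)⁻¹) = 1 := by
      rw [map_mul, map_inv, hα', mul_inv_cancel]
    generalize ρ₁ (r τ) * (g * ρ τ * g⁻¹)⁻¹ = w at h1 h2 h4
    have h5 : ∀ u : ℤˣ, ((φ w).1 : Matrix (Ix (n + m)) (Ix (n + m)) ℚ) =
        ((u : ℤ) : Matrix (Ix (n + m)) (Ix (n + m)) ℚ) → w = c u := by
      intro u hu
      refine lift2_inj h ?_ ?_
      · refine Subtype.ext (Units.ext ?_)
        rw [hu, hcφ]
      · rw [h4, hcα]
    rcases pi_ker h1 with h3 | h3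
    · exact ⟨1, by rw [h2, h5 1 (by rw [h3, Units.val_one, Int.cast_one])]⟩
    · exact ⟨-1, by rw [h2, h5 (-1) (by rw [h3, Units.val_neg, Units.val_one, Int.cast_neg,
        Int.cast_one])]⟩
  choose χ hχ using hχ
  obtain ⟨χ', hχ'⟩ : ∃ χ' : (Ω ≃ₐ[K] Ω) →* ℤˣ, ∀ τ, χ' τ = χ τ := by
    refine ⟨MonoidHom.mk' χ fun τ τ' => ?_, fun _ => rfl⟩
    apply Cmp2_inj hcφ
    have e1 : g * ρ (τ * τ') * g⁻¹ = (g * ρ τ * g⁻¹) * (g * ρ τ' * g⁻¹) := by
      rw [map_mul]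
      group
    have e2 : c (χ (τ * τ')) * (g * ρ (τ * τ') * g⁻¹) =
        c (χ τ * χ τ') * (g * ρ (τ * τ') * g⁻¹) := by
      rw [← hχ, map_mul, map_mul, hχ τ, hχ τ', e1, map_mul]
      rw [mul_assoc (c (χ τ)), ← mul_assoc (g * ρ τ * g⁻¹), ← hcc (χ τ') (g * ρ τ * g⁻¹)]
      simp only [mul_assoc]
    exact mul_right_cancel e2
  refine ⟨g, χ', hgα, ?_, ?_⟩
  · refine Cts.of_two (Cts.res ι hr hc₁) hc χ' fun τ h1 h2 => ?_
    rw [hχ']
    have h3 := hχ τ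
    have h1' : ρ₁ (r τ) = 1 := h1
    rw [h1', h2, mul_one, mul_inv_cancel, mul_one] at h3
    refine Cmp2_inj hcφ ?_
    rw [← h3, map_one]
  · intro τ τ₀ h
    have h1 : τ₀ = r τ := AlgEquiv.ext fun x => ι.injective ((h x).trans (hr τ x).symm)
    rw [h1, hχ']
    exact hχ τ

end DC83
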