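import Pool.Agent.H.MP_83e36b_nt.dc.Pt
import Pool.Agent.H.MP_83e36b_nt.dc.PermA
import Pool.Agent.H.MP_83e36b_nt.sp.WApi

/-! Quartic algebras with a given trace form; comparison of equivariant matrices. -/

set_option autoImplicit false

open Matrix Polynomial SpinWA

namespace DC83

section
variable {K : Type} [Field K] [CharZero K] {Ω : Type} [Field Ω] [Algebra K Ω] [IsAlgClosed Ω]
  [Algebra.IsAlgebraic K Ω]

private theorem Qrt_inj {κ : Type} {A B : Matrix κ κ K}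
    (h : A.map (algebraMap K Ω) = B.map (algebraMap K Ω)) : A = B := by
  ext i j
  exact (algebraMap K Ω).injective (congrFun (congrFun h i) j)

private theorem Qrt_desc {κ : Type} {C : Matrix κ κ Ω} (h : ∀ τ : Ω ≃ₐ[K] Ω, C.map τ = C) :
    ∃ D : Matrix κ κ K, D.map (algebraMap K Ω) = C := by
  have h1 : ∀ i j, ∃ a : K, algebraMap K Ω a = C i j := fun i j =>
    exists_of_fixed fun τ => congrFun (congrFun (h τ) i) j
  choose D hD using h1
  exact ⟨D, by ext i j; exact hD i j⟩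

/-- the diagonal form of the trace form -/
private theorem Qrt_form {s u D ν κ : K} (hs : s ≠ 0) (hu : u ≠ 0) (hD : D ≠ 0) (hν : ν ≠ 0)
    (hκ : κ ≠ 0) (h : s * ν ^ 2 + D * κ ^ 2 = 1) {t : K} (ht : t = s * (u * ν) ^ 2)
    {H : Matrix (Fin 4) (Fin 4) K}
    (hH : H = !![4, 0, 0, 0; 0, 4 * t, 0, 0; 0, 0, 4 * u, 4 * t; 0, 0, 4 * t, 4 * (t * u)]) :
    H.det ≠ 0 ∧ cls H = cl 1 + (cl s + (cl u + cl (u * s * D))) := by
  have h2 : (2 : K) ≠ 0 := two_ne_zero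
  obtain ⟨P, hP⟩ : ∃ P : Matrix (Fin 4) (Fin 4) K,
      P = !![1, 0, 0, 0; 0, 1, 0, 0; 0, 0, 1, -(t / u); 0, 0, 0, 1] := ⟨_, rfl⟩
  obtain ⟨d, hd⟩ : ∃ d : Fin 4 → K, d = ![1 * 2 ^ 2, s * (2 * (u * ν)) ^ 2, u * 2 ^ 2,
      u * s * D * (2 * (u * ν) * κ) ^ 2] := ⟨_, rfl⟩
  have hdd : ∀ i, d i ≠ 0 := by
    intro i
    rw [hd]
    fin_cases i
    · show (1 : K) * 2 ^ 2 ≠ 0
      rw [one_mul]
      exact pow_ne_zero _ h2
    · exact mul_ne_zero hs (pow_ne_zero _ (mul_ne_zero h2 (mul_ne_zero hu hν)))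
    · exact mul_ne_zero hu (pow_ne_zero _ h2)
    · exact mul_ne_zero (mul_ne_zero (mul_ne_zero hu hs) hD)
        (pow_ne_zero _ (mul_ne_zero (mul_ne_zero h2 (mul_ne_zero hu hν)) hκ))
  have hPH : Pᵀ * H * P = diagonal d := by
    rw [hP, hH, hd, ht]
    ext i j
    fin_cases i <;> fin_cases j <;>
      simp [Matrix.mul_apply, Fin.sum_univ_four, Matrix.transpose_apply]
    · norm_num
    · ring
    · ring
    · field_simp
      ring
    · field_simp
      ring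
    · have e : u * s * D * (2 * (u * ν) * κ) ^ 2 =
          u * s * (2 * (u * ν)) ^ 2 * (1 - s * ν ^ 2) := by
        linear_combination (u * s * (2 * (u * ν)) ^ 2) * h
      rw [e]
      field_simp
      ring
  have hdet := congrArg Matrix.det hPH
  rw [Matrix.det_mul, Matrix.det_mul, Matrix.det_diagonal] at hdet
  have hne : Pᵀ.det * H.det * P.det ≠ 0 := by
    rw [hdet]
    exact Finset.prod_ne_zero_iff.2 fun i _ => hdd i
  refine ⟨fun h0 => hne (by rw [h0]; ring), ?_⟩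
  rw [cls_eq_sum h2 hdd ⟨P, fun h0 => hne (by rw [h0]; ring), hPH⟩, Fin.sum_univ_four, hd]
  show cl ((1 : K) * 2 ^ 2) + cl (s * (2 * (u * ν)) ^ 2) + cl (u * 2 ^ 2) +
    cl (u * s * D * (2 * (u * ν) * κ) ^ 2) = _
  rw [cl_mul_sq _ h2, cl_mul_sq _ (mul_ne_zero h2 (mul_ne_zero hu hν)), cl_mul_sq _ h2,
    cl_mul_sq _ (mul_ne_zero (mul_ne_zero h2 (mul_ne_zero hu hν)) hκ)]
  abel

/-- Proof: let `θ = u + ν' √s`, `θ' = u - ν' √s` in `Ω`, `ν' = u ν`; `θ θ' = u² - s ν'² = u² D κ² ≠ 0`.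
Let `r² = θ`, `r'² = θ'` and let `x = (r, -r, r', -r')` (distinct), the roots of the polynomial
`(X² - u)² - s ν'²` over `K`; `exists_gal` of dc/Pt.lean gives `σ` with `τ (x i) = x (σ τ i)` (write the
polynomial as `AnWA.monicPoly ![u² - s ν'², 0, -2 u, 0]`); continuous by `Cts.of_fix` (if `τ` fixes all
`x i` then `σ τ = 1`).  The row `i` of `W` is `(1, δ_i, x_i, δ_i x_i)`, `δ_i = x_i² - u = ± ν' √s`: a
polynomial in `x_i` over `K`, so `W.map τ = pM (σ τ) * W`.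
`Wᵀ W = 4 * !![1, 0, 0, 0; 0, s ν'², 0, 0; 0, 0, u, s ν'²; 0, 0, s ν'², s ν'² u]`: determinant
`4 ^ 4 * s ν'² * s ν'² (u² - s ν'²) ≠ 0`, so `W.det ≠ 0`.  The class of the binary form
`!![u, t; t, t u]`, `t = s ν'²`, is `<u, (t u² - t²) / u>`, `(t u² - t²) / u = t u² D κ² / u`, class
`cl (u s D)`; `4` and `ν'²` are squares. -/
theorem quartic {s u D ν κ : K} (hs : s ≠ 0) (hu : u ≠ 0) (hD : D ≠ 0) (hν : ν ≠ 0) (hκ : κ ≠ 0)
    (h : s * ν ^ 2 + D * κ ^ 2 = 1) :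
    ∃ (σ : (Ω ≃ₐ[K] Ω) →* Equiv.Perm (Fin 4)) (W : Matrix (Fin 4) (Fin 4) Ω)
      (H : Matrix (Fin 4) (Fin 4) K), Cts σ ∧ W.det ≠ 0 ∧
      (∀ τ : Ω ≃ₐ[K] Ω, W.map τ = pM Ω (σ τ) * W) ∧ Hᵀ = H ∧ H.det ≠ 0 ∧
      H.map (algebraMap K Ω) = Wᵀ * W ∧
      cls H = cl 1 + (cl s + (cl u + cl (u * s * D))) := by
  obtain ⟨q, hq⟩ := IsAlgClosed.exists_pow_nat_eq (algebraMap K Ω s) (n := 2) (by norm_num)
  obtain ⟨v, hv⟩ : ∃ v : Ω, v = algebraMap K Ω u := ⟨_, rfl⟩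
  obtain ⟨e, he⟩ : ∃ e : Ω, e = v * algebraMap K Ω ν * q := ⟨_, rfl⟩
  obtain ⟨t, ht⟩ : ∃ t : K, t = s * (u * ν) ^ 2 := ⟨_, rfl⟩
  obtain ⟨r, hr⟩ := IsAlgClosed.exists_pow_nat_eq (v + e) (n := 2) (by norm_num)
  obtain ⟨r', hr'⟩ := IsAlgClosed.exists_pow_nat_eq (v - e) (n := 2) (by norm_num)
  have hee : e ^ 2 = algebraMap K Ω t := by
    rw [he, ht, map_mul, map_pow, map_mul, ← hv, ← hq]
    ring
  have ht0 : t ≠ 0 := by
    rw [ht]
    exact mul_ne_zero hs (pow_ne_zero _ (mul_ne_zero hu hν))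
  have he0 : e ≠ 0 := by
    intro h0
    rw [h0, zero_pow two_ne_zero] at hee
    exact ht0 ((map_eq_zero _).1 hee.symm)
  have hprod : (v + e) * (v - e) ≠ 0 := by
    have h1 : (v + e) * (v - e) = algebraMap K Ω (u ^ 2 * (D * κ ^ 2)) := by
      have h2 : u ^ 2 * (D * κ ^ 2) = u ^ 2 - t := by
        rw [ht]
        linear_combination u ^ 2 * h
      rw [h2, map_sub, map_pow, ← hv, ← hee]
      ring
    rw [h1]
    exact (_root_.map_ne_zero _).2 (mul_ne_zero (pow_ne_zero _ hu) (mul_ne_zero hD (pow_ne_zero _ hκ)))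
  have hr0 : r ≠ 0 := by
    intro h0
    apply hprod
    rw [← hr, h0]
    ring
  have hr0' : r' ≠ 0 := by
    intro h0
    apply hprod
    rw [← hr', h0]
    ring
  have hΩ2 : (2 : Ω) ≠ 0 := by
    have h1 := (_root_.map_ne_zero (algebraMap K Ω)).2 (two_ne_zero (α := K))
    rwa [map_ofNat] at h1
  have hrr : ∀ a b : Ω, a ^ 2 = v + e → b ^ 2 = v - e → a ≠ b := by
    intro a b ha hb hab
    rw [hab, hb] at ha
    have h1 : 2 * e = 0 := by linear_combination -ha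
    rcases mul_eq_zero.1 h1 with h2 | h2
    · exact hΩ2 h2
    · exact he0 h2
  have hneg : ∀ a : Ω, a ≠ 0 → a ≠ -a := by
    intro a ha h1
    have h2 : 2 * a = 0 := by linear_combination h1
    rcases mul_eq_zero.1 h2 with h3 | h3
    · exact hΩ2 h3
    · exact ha h3
  have hnr : (-r) ^ 2 = v + e := by rw [neg_sq, hr]
  have hnr' : (-r') ^ 2 = v - e := by rw [neg_sq, hr']
  obtain ⟨x, hx⟩ : ∃ x : Fin 4 → Ω, x = ![r, -r, r', -r'] := ⟨_, rfl⟩
  have hxinj : Function.Injective x := by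
    rw [hx]
    intro i j hij
    fin_cases i <;> fin_cases j <;> simp at hij ⊢
    · exact hneg r hr0 hij
    · exact hrr r r' hr hr' hij
    · exact hrr r (-r') hr hnr' hij
    · exact hneg r hr0 hij.symm
    · exact hrr (-r) r' hnr hr' hij
    · exact hrr (-r) (-r') hnr hnr' (by rw [hij])
    · exact hrr r r' hr hr' hij.symm
    · exact hrr (-r) r' hnr hr' hij.symm
    · exact hneg r' hr0' hij
    · exact hrr r (-r') hr hnr' hij.symm
    · exact hrr (-r) (-r') hnr hnr' (by rw [hij])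
    · exact hneg r' hr0' hij.symm
  have hpoly : AnWA.monicPoly (fun i => algebraMap K Ω ((![u ^ 2 - t, 0, -(2 * u), 0] : Fin 4 → K) i))
      = ∏ i, (X - C (x i)) := by
    have h1 : (C r : Polynomial Ω) ^ 2 = C v + C e := by rw [← C_pow, hr, C_add]
    have h2 : (C r' : Polynomial Ω) ^ 2 = C v - C e := by rw [← C_pow, hr', C_sub]
    have h3 : (C (algebraMap K Ω (u ^ 2 - t)) : Polynomial Ω) = C v ^ 2 - C e ^ 2 := by
      rw [map_sub, map_pow, ← hv, ← hee, C_sub, C_pow, C_pow]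
    have h4 : (C (algebraMap K Ω (-(2 * u))) : Polynomial Ω) = -(2 * C v) := by
      rw [map_neg, map_mul, map_ofNat, ← hv, C_neg, C_mul]
      rfl
    unfold AnWA.monicPoly
    rw [Fin.sum_univ_four, Fin.prod_univ_four, hx]
    show X ^ 4 + (C (algebraMap K Ω (u ^ 2 - t)) * X ^ 0 + C (algebraMap K Ω 0) * X ^ 1 +
      C (algebraMap K Ω (-(2 * u))) * X ^ 2 + C (algebraMap K Ω 0) * X ^ 3) =
      (X - C r) * (X - C (-r)) * (X - C r') * (X - C (-r'))
    rw [h3, h4, map_zero, C_0, C_neg, C_neg]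
    linear_combination (X ^ 2 - C r' ^ 2) * h1 + (X ^ 2 - (C v + C e)) * h2
  obtain ⟨σ, hσ⟩ := exists_gal hxinj hpoly
  obtain ⟨W, hW⟩ : ∃ W : Matrix (Fin 4) (Fin 4) Ω,
      W = Matrix.of fun i j => ![1, x i ^ 2 - v, x i, (x i ^ 2 - v) * x i] j := ⟨_, rfl⟩
  obtain ⟨H, hH⟩ : ∃ H : Matrix (Fin 4) (Fin 4) K, H = !![4, 0, 0, 0; 0, 4 * t, 0, 0;
      0, 0, 4 * u, 4 * t; 0, 0, 4 * t, 4 * (t * u)] := ⟨_, rfl⟩
  obtain ⟨hHd, hHc⟩ := Qrt_form hs hu hD hν hκ h ht hH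
  have hW' : W = !![1, e, r, e * r; 1, e, -r, -(e * r); 1, -e, r', -(e * r');
      1, -e, -r', e * r'] := by
    rw [hW, hx]
    ext i j
    fin_cases i <;> fin_cases j <;> simp [hr, hr']
  have hHW : H.map (algebraMap K Ω) = Wᵀ * W := by
    have ht' : algebraMap K Ω t = e ^ 2 := hee.symm
    rw [hW', hH]
    ext i j
    fin_cases i <;> fin_cases j <;>
      simp [Matrix.mul_apply, Fin.sum_univ_four, Matrix.transpose_apply, ht', ← hv, map_ofNat]
    · norm_num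
    · ring
    · linear_combination -2 * hr - 2 * hr'
    · linear_combination -2 * e * hr + 2 * e * hr'
    · linear_combination -2 * e * hr + 2 * e * hr'
    · linear_combination -2 * e ^ 2 * hr - 2 * e ^ 2 * hr'
  refine ⟨σ, W, H, ?_, ?_, ?_, ?_, hHd, hHW, hHc⟩
  · refine Cts.of_fix σ x fun τ hτ => ?_
    refine Equiv.ext fun i => hxinj ?_
    rw [← hσ, hτ]
    rfl
  · intro h0
    apply hHd
    have h1 : algebraMap K Ω H.det = W.det ^ 2 := by
      rw [RingHom.map_det, RingHom.mapMatrix_apply, hHW, Matrix.det_mul, Matrix.det_transpose, sq]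
    rw [h0, zero_pow two_ne_zero] at h1
    exact (map_eq_zero _).1 h1
  · intro τ
    ext i j
    rw [pM_mul_apply, Matrix.map_apply, hW, Matrix.of_apply, Matrix.of_apply, ← hσ]
    have hvτ : τ v = v := by
      rw [hv]
      exact τ.commutes u
    fin_cases j
    · exact map_one τ
    · show τ (x i ^ 2 - v) = τ (x i) ^ 2 - v
      rw [map_sub, map_pow, hvτ]
    · rfl
    · show τ ((x i ^ 2 - v) * x i) = (τ (x i) ^ 2 - v) * τ (x i)
      rw [map_mul, map_sub, map_pow, hvτ]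
  · rw [hH]
    ext i j
    fin_cases i <;> fin_cases j <;> rfl

/-- Proof: `C = W⁻¹ V` is fixed by all `τ`, so it comes from a matrix `C₀` over `K` (`exists_of_fixed`,
see `locP_desc` in dc/LocP.lean), `H = C₀ᵀ H' C₀` (`V = W C`); `cls_cong`. -/
theorem cls_equiv {n : ℕ} {σ : (Ω ≃ₐ[K] Ω) →* Equiv.Perm (Fin n)} {V W : Matrix (Fin n) (Fin n) Ω}
    (hV : V.det ≠ 0) (hW : W.det ≠ 0) (hVτ : ∀ τ : Ω ≃ₐ[K] Ω, V.map τ = pM Ω (σ τ) * V)
    (hWτ : ∀ τ : Ω ≃ₐ[K] Ω, W.map τ = pM Ω (σ τ) * W) {H H' : Matrix (Fin n) (Fin n) K}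
    (hH : H.map (algebraMap K Ω) = Vᵀ * V) (hH' : H'.map (algebraMap K Ω) = Wᵀ * W) :
    cls H = cls H' := by
  classical
  have h2 : (2 : K) ≠ 0 := two_ne_zero
  have huW : IsUnit W.det := isUnit_iff_ne_zero.2 hW
  have hWW : W * (W⁻¹ * V) = V := by
    rw [← Matrix.mul_assoc, Matrix.mul_nonsing_inv _ huW, Matrix.one_mul]
  obtain ⟨C, hC⟩ : ∃ C, C = W⁻¹ * V := ⟨_, rfl⟩
  rw [← hC] at hWW
  have hCτ : ∀ τ : Ω ≃ₐ[K] Ω, C.map τ = C := by
    intro τ
    have h3 := congrArg (fun M : Matrix (Fin n) (Fin n) Ω => M.map ((τ : Ω ≃+* Ω) : Ω →+* Ω)) hWW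
    simp only [Matrix.map_mul] at h3
    have h4 : W.map τ * C.map τ = V.map τ := h3
    have h5 : IsUnit (W.map τ).det := by
      have h6 : (W.map τ).det = τ W.det :=
        (RingHom.map_det ((τ : Ω ≃+* Ω) : Ω →+* Ω) W).symm
      rw [h6]
      exact isUnit_iff_ne_zero.2 ((_root_.map_ne_zero τ).2 hW)
    have h7 : W.map τ * C.map τ = W.map τ * C := by
      rw [h4, hVτ, hWτ, Matrix.mul_assoc, hWW]
    have h8 := congrArg (fun M => (W.map τ)⁻¹ * M) h7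
    simp only [← Matrix.mul_assoc, Matrix.nonsing_inv_mul _ h5, Matrix.one_mul] at h8
    exact h8
  obtain ⟨C₀, hC₀⟩ := Qrt_desc hCτ
  have hsym : H'ᵀ = H' := by
    apply Qrt_inj (Ω := Ω)
    rw [Matrix.transpose_map, hH', Matrix.transpose_mul, Matrix.transpose_transpose]
  have hdet : H'.det ≠ 0 := by
    intro h0
    have h3 : algebraMap K Ω H'.det = W.det ^ 2 := by
      rw [RingHom.map_det, RingHom.mapMatrix_apply, hH', Matrix.det_mul, Matrix.det_transpose, sq]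
    rw [h0, map_zero] at h3
    exact hW (pow_eq_zero_iff two_ne_zero |>.1 h3.symm)
  have hCC : C₀ᵀ * H' * C₀ = H := by
    apply Qrt_inj (Ω := Ω)
    rw [Matrix.map_mul, Matrix.map_mul, Matrix.transpose_map, hH', hC₀, hH, ← hWW,
      Matrix.transpose_mul]
    simp only [Matrix.mul_assoc]
  have hdC : C₀.det ≠ 0 := by
    intro h0
    have h3 : algebraMap K Ω C₀.det = C.det := by
      rw [RingHom.map_det, RingHom.mapMatrix_apply, hC₀]
    rw [h0, map_zero] at h3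
    apply hV
    rw [← hWW, Matrix.det_mul, ← h3, mul_zero]
  exact (cls_cong h2 hsym hdet ⟨C₀, hdC, hCC⟩).symm

end

end DC83
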