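import Pool.Agent.H.MP_83e36b_nt.td.Wit
import Pool.Agent.H.MP_83e36b_nt.td.Qrt
import Pool.Agent.H.MP_83e36b_nt.td.Blk
import Pool.Agent.H.MP_83e36b_nt.sp.CRoot
import Pool.Agent.H.MP_83e36b_nt.sp.PMap

/-! Every form in at least four variables over a field with `U5` is a trace form. -/

set_option autoImplicit false

open Matrix Polynomial SpinWA

namespace DC83

/-- Proof: `Ω = AlgebraicClosure K`.  `exists_diag` for `J`, `H`: `cls J - cls H = ∑ cl (d i) +
∑ cl (-h i)` is the class of a diagonal form in `n + 2 m` variables; `u5_peel`, `u5_ones`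
(`n = (n - 3) + 3`, `(n - 3) • cl 1 = (n - 4) • cl 1 + cl 1`), `u5_tern`: it is
`(n - 4) • cl 1 + (cl 1 + (cl s + (cl u + cl (u s D))))`.  `quartic`: `σ`, `W`, `H₄`.  For `n = 4 + l`:
the homomorphism `τ ↦ bP (σ τ) 1` to `Perm (Fin (4 + l))` (`bP_mul`; continuous), `exists_point` of
dc/Pt.lean: `a`, `x`; `cls_equiv` for `V = vandermonde x` (`vand_hk`, `hk_map`) and `bM W 1`
(`pM_bP`, `bM_mul`, `bM_map`), `H' = bM H₄ 1`, `cls_bM`, `cls 1 = l • cl 1`. -/
theorem loc_ex {K : Type} [Field K] [CharZero K] (hu : U5 K) {n m : ℕ} (hn : 4 ≤ n)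
    {J : Matrix (Fin (n + m)) (Fin (n + m)) K} (hJ : Jᵀ = J) (hJd : J.det ≠ 0)
    {H : Matrix (Fin m) (Fin m) K} (hH : Hᵀ = H) (hHd : H.det ≠ 0) :
    ∃ a : Fin n → K, (hk a).det ≠ 0 ∧ cls (hk a) + cls H = cls J := by
  have h2 : (2 : K) ≠ 0 := two_ne_zero
  obtain ⟨d, hd, hJc⟩ := exists_diag h2 hJ hJd
  obtain ⟨e, he, hHc⟩ := exists_diag h2 hH hHd
  have hJs := cls_eq_sum h2 hd hJc
  have hHs := cls_eq_sum h2 he hHc
  -- a diagonal form in `n + 2 m` variables
  have hcast : n + 2 * m = n + m + m := by omega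
  let d1 : Fin (n + 2 * m) → K := fun i => Fin.append d (fun j => -e j) (Fin.cast hcast i)
  have hd1 : ∀ i, d1 i ≠ 0 := by
    intro i
    show Fin.append d (fun j => -e j) (Fin.cast hcast i) ≠ 0
    generalize Fin.cast hcast i = k
    refine Fin.addCases (fun k => ?_) (fun k => ?_) k
    · rw [Fin.append_left]
      exact hd k
    · rw [Fin.append_right]
      exact neg_ne_zero.2 (he k)
  have hs1 : ∑ i, cl (d1 i) = ∑ i, cl (d i) + ∑ i, cl (-e i) := by
    have h3 : ∑ i, cl (d1 i) = ∑ k : Fin (n + m + m), cl (Fin.append d (fun j => -e j) k) :=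
      Equiv.sum_comp (finCongr hcast) fun k => cl (Fin.append d (fun j => -e j) k)
    rw [h3, Fin.sum_univ_add]
    congr 1
    · exact Finset.sum_congr rfl fun i _ => by rw [Fin.append_left]
    · exact Finset.sum_congr rfl fun i _ => by rw [Fin.append_right]
  have hneg : ∑ i, cl (e i) + ∑ i, cl (-e i) = 0 := by
    rw [← Finset.sum_add_distrib]
    exact Finset.sum_eq_zero fun i _ => cl_neg h2 (e i)
  obtain ⟨l, rfl⟩ : ∃ l, n = 4 + l := ⟨n - 4, by omega⟩
  obtain ⟨d2, hd2, hs2⟩ := u5_peel h2 hu (by omega : 3 ≤ 4 + l) m d1 hd1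
  have hcast2 : l + 1 + 3 = 4 + l := by omega
  obtain ⟨a, b, c, ha, hb, hc, hs3⟩ := u5_ones h2 hu (l + 1) (fun i => d2 (Fin.cast hcast2 i))
    fun i => hd2 _
  have hs4 : ∑ i, cl (d2 (Fin.cast hcast2 i)) = ∑ i, cl (d2 i) :=
    Equiv.sum_comp (finCongr hcast2) fun k => cl (d2 k)
  obtain ⟨s, u, ν, κ, hs, hu', hν, hκ, hval, hs5⟩ := u5_tern hu ha hb hc
  have halg : Algebra.IsAlgebraic K (AlgebraicClosure K) := AlgebraicClosure.isAlgebraic K
  obtain ⟨σ, W, H4, hσ, hW, hWτ, hH4, hH4d, hH4W, hcls⟩ :=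
    quartic (Ω := AlgebraicClosure K) hs hu' (mul_ne_zero (mul_ne_zero ha hb) hc) hν hκ hval
  let f : Equiv.Perm (Fin 4) →* Equiv.Perm (Fin (4 + l)) :=
    MonoidHom.mk' (fun s => bP s 1) fun s t => by rw [bP_mul, mul_one]
  have hf : ∀ s, f s = bP s 1 := fun s => rfl
  obtain ⟨g, x, hx, hgx, hτ⟩ := exists_point (hσ.comp f)
  refine ⟨g, ?_, ?_⟩
  · intro h0
    have h3 := hk_map (algebraMap K (AlgebraicClosure K)) g
    rw [← vand_hk x _ hx hgx] at h3
    have h4 := congrArg Matrix.det h3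
    rw [Matrix.det_mul, Matrix.det_transpose, ← RingHom.mapMatrix_apply, ← RingHom.map_det, h0,
      map_zero] at h4
    have h5 : (vandermonde x).det ≠ 0 := det_vandermonde_ne_zero_iff.2 hx
    exact mul_ne_zero h5 h5 h4.symm
  · have h1 : cls (hk g) = cls (bM H4 (1 : Matrix (Fin l) (Fin l) K)) := by
      refine cls_equiv (Ω := AlgebraicClosure K) (σ := f.comp σ) (V := vandermonde x)
        (W := bM W 1) (det_vandermonde_ne_zero_iff.2 hx) ?_ ?_ ?_ ?_ ?_
      · rw [bM_det, Matrix.det_one, mul_one]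
        exact hW
      · intro τ
        ext i j
        rw [pM_mul_apply, Matrix.map_apply, vandermonde_apply, vandermonde_apply, map_pow, hτ]
      · intro τ
        have h3 : (bM W (1 : Matrix (Fin l) (Fin l) (AlgebraicClosure K))).map τ =
            bM (W.map τ) ((1 : Matrix (Fin l) (Fin l) (AlgebraicClosure K)).map τ) :=
          bM_map (τ : AlgebraicClosure K →+* AlgebraicClosure K) W 1
        rw [h3, hWτ, MonoidHom.comp_apply, hf, pM_bP, bM_mul, pM_one, mul_one,
          Matrix.map_one _ (map_zero _) (map_one _)]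
      · rw [hk_map, vand_hk x _ hx hgx]
      · rw [bM_map, hH4W, bM_transpose, bM_mul, Matrix.transpose_one, mul_one,
          Matrix.map_one _ (map_zero _) (map_one _)]
    have h3 : cls (1 : Matrix (Fin l) (Fin l) K) = l • cl (1 : K) := by
      rw [← Matrix.diagonal_one, cls_diagonal h2 (fun _ => one_ne_zero), Finset.sum_const,
        Finset.card_univ, Fintype.card_fin]
    have h4 : cls (bM H4 (1 : Matrix (Fin l) (Fin l) K)) = cls H4 + l • cl (1 : K) := by
      rw [cls_bM h2 hH4 hH4d Matrix.transpose_one (by rw [Matrix.det_one]; exact one_ne_zero), h3]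
    rw [h1, h4, hcls, hJs, hHs]
    rw [hs4, ← hs2, hs1, hs5, succ_nsmul] at hs3
    generalize ∑ i, cl (d i) = A at *
    generalize ∑ i, cl (-e i) = B at *
    generalize ∑ i, cl (e i) = C at *
    have h5 : A = (A + B) + C := by
      rw [add_assoc, add_comm B, hneg, add_zero]
    rw [h5, hs3]
    abel

end DC83
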