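import Pool.Agent.H.MP_83e36b_nt.sp.XWa

/-! The existence of a global quadratic form. -/

set_option autoImplicit false

open Matrix SpinWA Topology

namespace DC83

/-- A class of the Witt group of `ℚ` which is everywhere locally the class of a trace form of degree
`n = 2 m + e` is the class of a form in `n` variables.
Proof: `x_loc (emb v)` for `Q = hk (a v)`, `x = (a v, 1)`, `U = Set.univ` gives `g v`, `C v` with
`(C v)ᵀ (hk (a v)) (C v) = gamM (dbl e (g v))`.  As in the proof of `z_wa` (sp/ZWa.lean):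
`det_gam`: `cf (g v) 0 = emb v c * τ_v²`, `τ_v ≠ 0`, `det (hk (g v)) ≠ 0` (here
`det (gamM (dbl e (g v))) = det (C v)² emb v c t_v²`); `cls_gam` and
`cls (gamM ...) = cls (hk (a v))` (`cls_cong`) `= WG.map (emb v) R`; a finite set `S'` containing
`none`, the primes `≤ m + 1`, 2, the primes where `c` is not a unit (`norm_eq_one_finite`) and the
primes of `res_finite R`; `zwab_star` (with `U = W = Set.univ`) gives `G`, `t`; `Q = gamM (dbl e G)`:
`gamM_transpose`, `det_gam`, `cls_gam`. -/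
theorem exists_Q {m e : ℕ} (he : e ≤ 1) (hm : 2 ≤ m) (R : WG ℚ) {c : ℚ} (hc : c ≠ 0)
    (a : ∀ v : Pl, Fin (2 * m + e) → Cpl v) (had : ∀ v, (hk (a v)).det ≠ 0)
    (hcl : ∀ v, cls (hk (a v)) = WG.map (emb v) R)
    (hdet : ∀ v, ∃ t : Cpl v, t ≠ 0 ∧ (hk (a v)).det = emb v c * t ^ 2) :
    ∃ Q : Matrix (Fin (2 * m + e)) (Fin (2 * m + e)) ℚ, Qᵀ = Q ∧ Q.det ≠ 0 ∧ cls Q = R := by
  classical
  -- the local points
  have hloc : ∀ v, ∃ (g : Fin m → Cpl v)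
      (C : Matrix (Fin (2 * m + e)) (Fin (2 * m + e)) (Cpl v)),
      Cᵀ * hk (a v) * C = gamM (dbl e g) ∧ C.det ≠ 0 := by
    intro v
    obtain ⟨g, y, C, hC, hCd, -⟩ := x_loc (emb v) he (hk_transpose (a v)) (had v)
      ((a v, 1) : (Fin (2 * m + e) → Cpl v) × Matrix (Fin (2 * m + e)) (Fin (2 * m + e)) (Cpl v))
      (by simp) (by simp) (U := Set.univ) Filter.univ_mem
    exact ⟨g, C, hC, hCd⟩
  choose g C hC hCd using hloc
  choose t₀ ht₀ hdt using hdet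
  -- the places
  obtain ⟨P0, hP0⟩ := res_finite R
  have hfin1 : {p : Nat.Primes | (p : ℕ) ≤ m + 1}.Finite := by
    have : Set.InjOn (fun p : Nat.Primes => (p : ℕ)) {p : Nat.Primes | (p : ℕ) ≤ m + 1} :=
      fun a _ b _ h => Subtype.ext h
    refine Set.Finite.of_finite_image ((Set.finite_Iic (m + 1)).subset ?_) this
    rintro _ ⟨p, hp, rfl⟩
    exact hp
  have hfin2 := norm_eq_one_finite c hc
  obtain ⟨S', hS'⟩ : ∃ S' : Finset Pl, S' = {none} ∪ (hfin1.toFinset.image some) ∪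
    (hfin2.toFinset.image some) ∪ (P0.image some) := ⟨_, rfl⟩
  have hnone : none ∈ S' := by rw [hS']; simp
  have hSp : ∀ p : Nat.Primes, ((p : ℕ) ≤ m + 1 ∨ (p : ℕ) = 2) → some p ∈ S' := by
    intro p hp
    have : (p : ℕ) ≤ m + 1 := by omega
    rw [hS']
    simp [this]
  have hcn : ∀ p : Nat.Primes, some p ∉ S' → ‖((c : ℚ) : ℚ_[(p : ℕ)])‖ = 1 := by
    intro p hp
    by_contra h
    apply hp
    rw [hS']
    simp only [Finset.mem_union, Finset.mem_image, Set.Finite.mem_toFinset, Set.mem_ofPred_eq]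
    exact Or.inl (Or.inr ⟨p, h, rfl⟩)
  have hR : ∀ p : Nat.Primes, some p ∉ S' →
      resW (p : ℕ) (WG.map (Rat.castHom ℚ_[(p : ℕ)]) R) = 0 := by
    intro p hp
    refine hP0 p fun h => hp ?_
    rw [hS']
    simp only [Finset.mem_union, Finset.mem_image]
    exact Or.inr ⟨p, h, rfl⟩
  have h2 : ∀ v : Pl, (2 : Cpl v) ≠ 0 := fun v => two_ne_zero
  have hdet : ∀ v, (2 ^ m * (hk (g v)).det * cf (g v) 0 ^ e) ^ 2 * cf (g v) 0 =
      ((C v).det * t₀ v) ^ 2 * emb v c := fun v => by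
    rw [← det_gam he, ← hC v, Matrix.det_mul, Matrix.det_mul, Matrix.det_transpose, hdt v]
    ring
  have hCt : ∀ v, (C v).det * t₀ v ≠ 0 := fun v => mul_ne_zero (hCd v) (ht₀ v)
  have hne : ∀ v, (2 ^ m * (hk (g v)).det * cf (g v) 0 ^ e) ^ 2 * cf (g v) 0 ≠ 0 := fun v => by
    rw [hdet]
    exact mul_ne_zero (pow_ne_zero _ (hCt v)) ((_root_.map_ne_zero _).2 hc)
  have hg0 : ∀ v, cf (g v) 0 ≠ 0 := fun v h => hne v (by rw [h, mul_zero])
  have hgd : ∀ v, (hk (g v)).det ≠ 0 := fun v h => hne v (by rw [h]; ring)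
  have hD : ∀ v, 2 ^ m * (hk (g v)).det * cf (g v) 0 ^ e ≠ 0 := fun v =>
    mul_ne_zero (mul_ne_zero (pow_ne_zero _ (h2 v)) (hgd v)) (pow_ne_zero _ (hg0 v))
  obtain ⟨τ, hτdef⟩ : ∃ τ : ∀ v, Cpl v, ∀ v, τ v = (C v).det * t₀ v /
    (2 ^ m * (hk (g v)).det * cf (g v) 0 ^ e) := ⟨_, fun v => rfl⟩
  have hτ0 : ∀ v, τ v ≠ 0 := fun v => by
    rw [hτdef]; exact div_ne_zero (hCt v) (hD v)
  have hDτ : ∀ v, 2 ^ m * (hk (g v)).det * cf (g v) 0 ^ e * τ v = (C v).det * t₀ v := fun v => by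
    rw [hτdef, mul_comm, div_mul_cancel₀ _ (hD v)]
  have hτ : ∀ v, cf (g v) 0 = emb v c * τ v ^ 2 := fun v => by
    have h1 := hdet v
    rw [← hDτ v] at h1
    have h3 : (2 ^ m * (hk (g v)).det * cf (g v) 0 ^ e) ^ 2 ≠ 0 := pow_ne_zero _ (hD v)
    apply mul_left_cancel₀ h3
    rw [h1]
    ring
  have hcl' : ∀ v, e • cl 1 + cls ((2 : Cpl v) • hk (g v)) + cls ((-2 : Cpl v) • hk1 (g v)) =
      WG.map (emb v) R := fun v => by
    rw [← cls_gam he (g v) (hgd v) (hg0 v), ← hcl v]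
    exact (cls_cong (h2 v) (hk_transpose (a v)) (had v) ⟨C v, hCd v, hC v⟩).symm
  obtain ⟨G, t, hGd, ht0, hG0, hGc, -⟩ := zwab_star hm e S' hnone hSp c hc hcn R hR g τ
    (fun v _ => hgd v) (fun v _ => hτ0 v) (fun v _ => hτ v) (fun v _ => hcl' v)
    (fun v => Set.univ) (fun v _ => Filter.univ_mem) (fun v => Set.univ)
    (fun v _ => Filter.univ_mem)
  have hGc0 : cf G 0 ≠ 0 := by
    rw [hG0]; exact mul_ne_zero hc (pow_ne_zero _ ht0)
  refine ⟨gamM (dbl e G), gamM_transpose he G, ?_, ?_⟩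
  · rw [det_gam he]
    exact mul_ne_zero (pow_ne_zero _ (mul_ne_zero (mul_ne_zero (by positivity) hGd)
      (pow_ne_zero _ hGc0))) hGc0
  · rw [cls_gam he G hGd hGc0, hGc]

/-- the same for `n ≥ 4` -/
theorem exists_Q' {n : ℕ} (hn : 4 ≤ n) (R : WG ℚ) {c : ℚ} (hc : c ≠ 0)
    (a : ∀ v : Pl, Fin n → Cpl v) (had : ∀ v, (hk (a v)).det ≠ 0)
    (hcl : ∀ v, cls (hk (a v)) = WG.map (emb v) R)
    (hdet : ∀ v, ∃ t : Cpl v, t ≠ 0 ∧ (hk (a v)).det = emb v c * t ^ 2) :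
    ∃ Q : Matrix (Fin n) (Fin n) ℚ, Qᵀ = Q ∧ Q.det ≠ 0 ∧ cls Q = R := by
  obtain ⟨m, e, he, hm, rfl⟩ : ∃ m e : ℕ, e ≤ 1 ∧ 2 ≤ m ∧ n = 2 * m + e :=
    ⟨n / 2, n % 2, by omega, by omega, by omega⟩
  exact exists_Q he hm R hc a had hcl hdet

end DC83
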