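import Pool.Agent.H.MP_83e36b_nt.dc.Glob
import Pool.Agent.H.MP_83e36b_nt.dc.Quad
import Pool.Agent.H.MP_83e36b_nt.td.Blk
import Pool.Agent.H.MP_83e36b_nt.sp.CRoot

/-! The lifting to `2.A_(n+m)` of the Galois representation of a product of two algebras. -/

set_option autoImplicit false

open Matrix Polynomial SpinWA

namespace DC83

private theorem Glo2_hk_map {n : ℕ} (φ : ℚ →+* Qb) (a : Fin n → ℚ) :
    (hk a).map φ = hk fun i => φ (a i) := by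
  ext i j
  simp only [hk, Matrix.map_apply, Matrix.of_apply, croot_psum_map φ]

/-- Proof: `V = bM (vandermonde z) (vandermonde zF)`, `V.map τ = pM (bP (σ τ) (ψ τ)) * V` (`pM_bP`,
`bM_mul`, `bM_map`), `Vᵀ V = bM (hk b) (hk aF)` over `Qb` (`vand_hk`, `hk_map`).  `cls_bM` and
`cong_of_cls`: `Cong (Js (n+m) s) (bM Q (hk aF))`: `P`; `B = P * bM C' 1`;
`Bᵀ Js B = bM (hk b) (hk aF)`.  `glob` of dc/Glob.lean for `n + m` and the homomorphism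
`τ ↦ bP (σ τ) (ψ τ)` (`bP_mul`). -/
theorem glob2 {n m s : ℕ} (hn : 2 ≤ n + m) (hs : 4 ∣ s) (hsn : s ≤ n + m)
    {Q : Matrix (Fin n) (Fin n) ℚ} (hQ : Qᵀ = Q) (hd : Q.det ≠ 0) {aF : Fin m → ℚ}
    (hcls : cls Q + cls (hk aF) = cls (Js (n + m) s)) {b : Fin n → ℚ}
    {C' : Matrix (Fin n) (Fin n) ℚ} (hC' : C'ᵀ * Q * C' = hk b) (hC'd : C'.det ≠ 0)
    {z : Fin n → Qb} (hz : Function.Injective z)
    (hzb : AnWA.monicPoly (fun i => algebraMap ℚ Qb (b i)) = ∏ i, (X - C (z i)))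
    {zF : Fin m → Qb} (hzF : Function.Injective zF)
    (hzFa : AnWA.monicPoly (fun i => algebraMap ℚ Qb (aF i)) = ∏ i, (X - C (zF i)))
    (σ : (Qb ≃ₐ[ℚ] Qb) →* Equiv.Perm (Fin n)) (hσ : ∀ τ i, τ (z i) = z (σ τ i))
    (ψ : (Qb ≃ₐ[ℚ] Qb) →* Equiv.Perm (Fin m)) (hψ : ∀ τ i, τ (zF i) = zF (ψ τ i)) :
    ∃ ρ : (Qb ≃ₐ[ℚ] Qb) →* dAlt (n + m), Cts ρ ∧ ∀ τ, pi (n + m) (ρ τ) = bP (σ τ) (ψ τ) := by
  have h2 : (2 : ℚ) ≠ 0 := two_ne_zero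
  obtain ⟨φ, hφ⟩ : ∃ φ : ℚ →+* Qb, φ = algebraMap ℚ Qb := ⟨_, rfl⟩
  have hVz : (vandermonde z).det ≠ 0 := det_vandermonde_ne_zero_iff.2 hz
  have hVF : (vandermonde zF).det ≠ 0 := det_vandermonde_ne_zero_iff.2 hzF
  have e1 : (hk b).map φ = (vandermonde z)ᵀ * vandermonde z := by
    rw [hφ, Glo2_hk_map]
    exact (vand_hk z _ hz hzb).symm
  have e2 : (hk aF).map φ = (vandermonde zF)ᵀ * vandermonde zF := by
    rw [hφ, Glo2_hk_map]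
    exact (vand_hk zF _ hzF hzFa).symm
  have hdF : (hk aF).det ≠ 0 := by
    intro h
    have e3 : φ (hk aF).det = (vandermonde zF).det ^ 2 := by
      rw [RingHom.map_det, RingHom.mapMatrix_apply, e2, det_mul, det_transpose, sq]
    rw [h, map_zero] at e3
    exact hVF (pow_eq_zero_iff two_ne_zero |>.1 e3.symm)
  have hbt : (bM Q (hk aF))ᵀ = bM Q (hk aF) := by rw [bM_transpose, hQ, hk_transpose]
  have hbd : (bM Q (hk aF)).det ≠ 0 := by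
    rw [bM_det]
    exact mul_ne_zero hd hdF
  have hJt : (Js (n + m) s)ᵀ = Js (n + m) s := by rw [Js, diagonal_transpose]
  have hJd : (Js (n + m) s).det ≠ 0 := by
    rw [Js_det _ _ hsn]
    exact pow_ne_zero _ (by norm_num)
  obtain ⟨P, _, hP'⟩ := cong_of_cls h2 hJt hJd hbt hbd
    (by rw [cls_bM h2 hQ hd (hk_transpose aF) hdF, hcls])
  obtain ⟨B, hB⟩ : ∃ B, B = P * bM C' (1 : Matrix (Fin m) (Fin m) ℚ) := ⟨_, rfl⟩
  have hBB : Bᵀ * Js (n + m) s * B = bM (hk b) (hk aF) := by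
    rw [hB, transpose_mul]
    calc (bM C' 1)ᵀ * Pᵀ * Js (n + m) s * (P * bM C' 1)
        = (bM C' 1)ᵀ * (Pᵀ * Js (n + m) s * P) * bM C' 1 := by simp only [Matrix.mul_assoc]
      _ = bM (hk b) (hk aF) := by
          rw [hP', bM_transpose, transpose_one, bM_mul, bM_mul, hC', Matrix.one_mul,
            Matrix.mul_one]
  have hmap : ∀ {k : ℕ} (x : Fin k → Qb) (π : Equiv.Perm (Fin k)) (τ : Qb ≃ₐ[ℚ] Qb),
      (∀ i, τ (x i) = x (π i)) →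
      (vandermonde x).map (τ : Qb →+* Qb) = pM Qb π * vandermonde x := by
    intro k x π τ h
    ext i j
    rw [pM_mul_apply, Matrix.map_apply, vandermonde_apply, vandermonde_apply, map_pow]
    have h3 : (τ : Qb →+* Qb) (x i) = τ (x i) := rfl
    rw [h3, h]
  obtain ⟨V, hV⟩ : ∃ V, V = bM (vandermonde z) (vandermonde zF) := ⟨_, rfl⟩
  have hVd : V.det ≠ 0 := by
    rw [hV, bM_det]
    exact mul_ne_zero hVz hVF
  obtain ⟨θ, hθ⟩ : ∃ θ : (Qb ≃ₐ[ℚ] Qb) →* Equiv.Perm (Fin (n + m)),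
      ∀ τ, θ τ = bP (σ τ) (ψ τ) :=
    ⟨MonoidHom.mk' (fun τ => bP (σ τ) (ψ τ)) fun τ τ' => by
      rw [map_mul, map_mul, bP_mul], fun τ => rfl⟩
  have hVτ : ∀ τ : Qb ≃ₐ[ℚ] Qb, V.map τ = pM Qb (θ τ) * V := by
    intro τ
    have h3 : V.map τ = V.map (τ : Qb →+* Qb) := rfl
    rw [h3, hθ, pM_bP, hV, bM_mul, bM_map, hmap z (σ τ) τ (hσ τ), hmap zF (ψ τ) τ (hψ τ)]
  have hVV : Vᵀ * V = (bM (hk b) (hk aF)).map φ := by
    rw [hV, bM_transpose, bM_mul, bM_map, e1, e2]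
  have hBφ : (B.map (algebraMap ℚ Qb))ᵀ * (Js (n + m) s).map (algebraMap ℚ Qb) *
      B.map (algebraMap ℚ Qb) = Vᵀ * V := by
    rw [hVV, ← hBB, Matrix.map_mul, Matrix.map_mul, hφ, Matrix.transpose_map]
  have halg : Algebra.IsAlgebraic ℚ Qb := AlgebraicClosure.isAlgebraic ℚ
  obtain ⟨ρ, hρ1, hρ2⟩ := glob hn hs hsn hVd θ hVτ hBφ
  exact ⟨ρ, hρ1, fun τ => by rw [hρ2, hθ]⟩

end DC83
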