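import Pool.Agent.H.MP_83e36b_nt.dc.LocB
import Pool.Agent.H.MP_83e36b_nt.dc.Quad

/-! Local isometries with a given determinant; the roots of a global polynomial in the right order. -/

set_option autoImplicit false

open Matrix Polynomial SpinWA

namespace DC83

/-- a reflection of a nondegenerate quadratic form -/
private theorem LocB2_flip {K : Type} [Field K] (h2 : (2 : K) ≠ 0) {n : ℕ} (hn : 1 ≤ n)
    {J : Matrix (Fin n) (Fin n) K} (hJt : Jᵀ = J) (hJ0 : J.det ≠ 0) :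
    ∃ D : Matrix (Fin n) (Fin n) K, Dᵀ * J * D = J ∧ D.det = -1 := by
  obtain ⟨d, -, R, hR, hR'⟩ := exists_diag h2 hJt hJ0
  obtain ⟨E, hE⟩ : ∃ E : Matrix (Fin n) (Fin n) K,
      E = diagonal fun i => if i = (⟨0, hn⟩ : Fin n) then (-1 : K) else 1 := ⟨_, rfl⟩
  have hEd : E.det = -1 := by
    rw [hE, det_diagonal, Finset.prod_ite_eq' Finset.univ (⟨0, hn⟩ : Fin n) fun _ => (-1 : K),
      if_pos (Finset.mem_univ _)]
  have hEJ : Eᵀ * diagonal d * E = diagonal d := by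
    rw [hE, diagonal_transpose, diagonal_mul_diagonal, diagonal_mul_diagonal]
    congr 1
    funext i
    split_ifs <;> ring
  have hRu : IsUnit R.det := isUnit_iff_ne_zero.2 hR
  have hRR : R * R⁻¹ = 1 := mul_nonsing_inv R hRu
  have hRR' : (R⁻¹)ᵀ * Rᵀ = 1 := by rw [← transpose_mul, hRR, transpose_one]
  have hJe : J = (R⁻¹)ᵀ * (Rᵀ * J * R) * R⁻¹ := by
    calc J = ((R⁻¹)ᵀ * Rᵀ) * J * (R * R⁻¹) := by rw [hRR, hRR', Matrix.one_mul, Matrix.mul_one]
      _ = (R⁻¹)ᵀ * (Rᵀ * J * R) * R⁻¹ := by simp only [Matrix.mul_assoc]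
  refine ⟨R * E * R⁻¹, ?_, ?_⟩
  · calc (R * E * R⁻¹)ᵀ * J * (R * E * R⁻¹) = (R⁻¹)ᵀ * (Eᵀ * (Rᵀ * J * R) * E) * R⁻¹ := by
          rw [transpose_mul, transpose_mul]
          simp only [Matrix.mul_assoc]
      _ = (R⁻¹)ᵀ * (Rᵀ * J * R) * R⁻¹ := by rw [hR', hEJ]
      _ = J := hJe.symm
  · have h1 : R.det * R⁻¹.det = 1 := by rw [← det_mul, hRR, det_one]
    rw [det_mul, det_mul, hEd]
    linear_combination - h1

/-- Proof: as `loc_B` of dc/LocB.lean: `cong_of_cls` gives `B`; `det(B)² det(Q) = det (hk a) =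
det (vandermonde x)²` (`vand_hk`), so `det (vandermonde x) = ± det B * δ`; if the sign is `-1` replace
`B` by `D B` with `Dᵀ Q D = Q`, `det D = -1` (`exists_diag` for `Q.map φ`, `Pᵀ Q P = diagonal d`,
`D = P diag(-1, 1, ..., 1) P⁻¹`). -/
theorem loc_B2 {K : Type} [Field K] [CharZero K] {Ω : Type} [Field Ω] [Algebra K Ω] (φ : ℚ →+* K)
    {n : ℕ} (hn : 1 ≤ n) {Q : Matrix (Fin n) (Fin n) ℚ} (hQ : Qᵀ = Q) (hd : Q.det ≠ 0)
    {a : Fin n → K} {x : Fin n → Ω} (hx : Function.Injective x)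
    (hax : AnWA.monicPoly (fun i => algebraMap K Ω (a i)) = ∏ i, (X - C (x i)))
    (hc : cls (hk a) = cls (Q.map φ)) {δ : Ω} (hδ : δ ^ 2 = algebraMap K Ω (φ Q.det)) :
    ∃ B : Matrix (Fin n) (Fin n) K, Bᵀ * Q.map φ * B = hk a ∧ B.det ≠ 0 ∧
      algebraMap K Ω B.det * δ = (vandermonde x).det := by
  have h2 : (2 : K) ≠ 0 := two_ne_zero
  have hV : (vandermonde x).det ≠ 0 := det_vandermonde_ne_zero_iff.2 hx
  have e1 : (hk a).map (algebraMap K Ω) = (vandermonde x)ᵀ * vandermonde x := by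
    rw [hk_map]
    exact (vand_hk x _ hx hax).symm
  have e2 : algebraMap K Ω (hk a).det = (vandermonde x).det ^ 2 := by
    rw [RingHom.map_det, RingHom.mapMatrix_apply, e1, det_mul, det_transpose, sq]
  have hd' : (hk a).det ≠ 0 := by
    intro h
    rw [h, map_zero] at e2
    exact hV (pow_eq_zero_iff two_ne_zero |>.1 e2.symm)
  obtain ⟨J, hJ⟩ : ∃ J, J = Q.map φ := ⟨_, rfl⟩
  have hJd : J.det = φ Q.det := by
    rw [hJ, ← RingHom.mapMatrix_apply, ← RingHom.map_det]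
  have hJ0 : J.det ≠ 0 := by
    rw [hJd]
    exact (map_ne_zero φ).2 hd
  have hJt : Jᵀ = J := by rw [hJ, ← Matrix.transpose_map, hQ]
  rw [← hJ] at hc ⊢
  obtain ⟨P, hP, hP'⟩ := cong_of_cls h2 hJt hJ0 (hk_transpose a) hd' hc.symm
  have e3 : P.det ^ 2 * J.det = (hk a).det := by
    rw [← hP', det_mul, det_mul, det_transpose]
    ring
  have e4 : (algebraMap K Ω P.det * δ) ^ 2 = (vandermonde x).det ^ 2 := by
    rw [mul_pow, hδ, ← map_pow, ← map_mul, ← hJd, e3, e2]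
  rcases sq_eq_sq_iff_eq_or_eq_neg.1 e4 with h | h
  · exact ⟨P, hP', hP, h⟩
  · obtain ⟨D, hDJ, hDd⟩ := LocB2_flip h2 hn hJt hJ0
    refine ⟨D * P, ?_, ?_, ?_⟩
    · calc (D * P)ᵀ * J * (D * P) = Pᵀ * (Dᵀ * J * D) * P := by
            rw [transpose_mul]
            simp only [Matrix.mul_assoc]
        _ = hk a := by rw [hDJ, hP']
    · rw [det_mul, hDd]
      simpa using hP
    · rw [det_mul, hDd, neg_one_mul, map_neg, neg_mul, h, neg_neg]

/-- Proof: as `Grun_roots` (private) in dc/Grun.lean. -/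
theorem roots2 {n : ℕ} (hn : 2 ≤ n) {Q : Matrix (Fin n) (Fin n) ℚ} (hd : Q.det ≠ 0)
    {b : Fin n → ℚ} {C' : Matrix (Fin n) (Fin n) ℚ} (h : C'ᵀ * Q * C' = hk b) (hC : C'.det ≠ 0)
    {δ : Qb} (hδ : δ ^ 2 = algebraMap ℚ Qb Q.det) :
    ∃ z : Fin n → Qb, Function.Injective z ∧
      AnWA.monicPoly (fun i => algebraMap ℚ Qb (b i)) = ∏ i, (X - C (z i)) ∧
      (vandermonde z).det = algebraMap ℚ Qb C'.det * δ := by
  have hdd : (hk b).det = C'.det ^ 2 * Q.det := by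
    rw [← h, det_mul, det_mul, det_transpose]
    ring
  have hd0 : (hk b).det ≠ 0 := by
    rw [hdd]
    exact mul_ne_zero (pow_ne_zero 2 hC) hd
  obtain ⟨z, hz, hzb⟩ := exists_roots (algebraMap ℚ Qb) b hd0
  have h1 : (vandermonde z).det ^ 2 = (algebraMap ℚ Qb C'.det * δ) ^ 2 := by
    have h2 := croot_hk_det_map (algebraMap ℚ Qb) b
    rw [← vand_hk z _ hz hzb, det_mul, det_transpose, hdd, map_mul, map_pow] at h2
    rw [sq, ← h2, mul_pow, hδ]
  rcases sq_eq_sq_iff_eq_or_eq_neg.1 h1 with h2 | h2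
  · exact ⟨z, hz, hzb, h2⟩
  · obtain ⟨κ, hκ⟩ : ∃ κ : Equiv.Perm (Fin n), κ = Equiv.swap ⟨0, by omega⟩ ⟨1, by omega⟩ :=
      ⟨_, rfl⟩
    have hne : (⟨0, by omega⟩ : Fin n) ≠ ⟨1, by omega⟩ := by
      intro h3
      have h4 := congrArg Fin.val h3
      simp at h4
    refine ⟨z ∘ κ, hz.comp κ.injective, ?_, ?_⟩
    · rw [hzb]
      exact (Equiv.prod_comp κ (fun i => (X - C (z i)))).symm
    · have h3 : vandermonde (z ∘ κ) = pM Qb κ * vandermonde z := by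
        ext i j
        rw [pM_mul_apply, vandermonde_apply, vandermonde_apply]
        rfl
      rw [h3, det_mul, pM_det, hκ, Equiv.Perm.sign_swap hne, h2]
      simp

end DC83
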