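import Pool.Agent.H.MP_83e36b_nt.dc.LocB
import Pool.Agent.H.MP_83e36b_nt.td.Blk

/-! The trace forms at all places. -/

set_option autoImplicit false

open Matrix Polynomial SpinWA

namespace DC83

private theorem locT_real {n : ℕ} (ρ : (AlgebraicClosure ℝ ≃ₐ[ℝ] AlgebraicClosure ℝ) →* dAlt n) :
    ∃ s : ℕ, 4 ∣ s ∧ s ≤ n ∧ ∀ (V : Matrix (Fin n) (Fin n) (AlgebraicClosure ℝ)), V.det ≠ 0 →
      (∀ τ : AlgebraicClosure ℝ ≃ₐ[ℝ] AlgebraicClosure ℝ,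
        V.map τ = pM (AlgebraicClosure ℝ) (pi n (ρ τ)) * V) →
      ∀ (H : Matrix (Fin n) (Fin n) ℝ), H.map (algebraMap ℝ (AlgebraicClosure ℝ)) = Vᵀ * V →
      cls H = s • cl (-1 : ℝ) + (n - s) • cl (1 : ℝ) :=
  locR ρ

private theorem locT_vand {K : Type} [Field K] {Ω : Type} [Field Ω] [Algebra K Ω] {n : ℕ}
    {x : Fin n → Ω} (τ : Ω ≃ₐ[K] Ω) (σ : Equiv.Perm (Fin n)) (h : ∀ i, τ (x i) = x (σ i)) :
    (vandermonde x).map τ = pM Ω σ * vandermonde x := by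
  ext i j
  rw [pM_mul_apply, map_apply, vandermonde_apply, vandermonde_apply, map_pow, h]

private theorem locT_hk {K : Type} [Field K] {Ω : Type} [Field Ω] [Algebra K Ω] {n : ℕ}
    {a : Fin n → K} {x : Fin n → Ω} (hx : Function.Injective x)
    (hax : AnWA.monicPoly (fun i => algebraMap K Ω (a i)) = ∏ i, (X - C (x i))) :
    (hk a).map (algebraMap K Ω) = (vandermonde x)ᵀ * vandermonde x ∧ (hk a).det ≠ 0 := by
  have hV : (vandermonde x).det ≠ 0 := det_vandermonde_ne_zero_iff.2 hx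
  have e1 : (hk a).map (algebraMap K Ω) = (vandermonde x)ᵀ * vandermonde x := by
    rw [hk_map]
    exact (vand_hk x _ hx hax).symm
  refine ⟨e1, fun h => ?_⟩
  have e2 : algebraMap K Ω (hk a).det = (vandermonde x).det ^ 2 := by
    rw [RingHom.map_det, RingHom.mapMatrix_apply, e1, det_mul, det_transpose, sq]
  rw [h, map_zero] at e2
  exact hV (pow_eq_zero_iff two_ne_zero |>.1 e2.symm)

/-- Proof: `s` from `locR` for `ρ none` (see `loc_all` in dc/LocB.lean; `Cpl none` is `ℝ` by definition);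
for every `v` `exists_point` for `σ v` gives `a`, `x`.  `V = bM (vandermonde x) (vandermonde (xF v))`
satisfies `V.map τ = pM (pi (ρ v τ)) * V` (`pM_bP`, `bM_mul`, `bM_map`) and
`Vᵀ V = H.map`, `H = bM (hk a) (hk (emb v ∘ aF))` (`vand_hk`, `hk_map`, `bM_transpose`).  `locP` with
`u5_padic` and `cls_Js_padic` for `v = some p`, `locR` and `cls_Js` for `v = none`; `cls_bM`. -/
theorem loc_all2 {n m : ℕ} (ρ : ∀ v : Pl, (Om v ≃ₐ[Cpl v] Om v) →* dAlt (n + m))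
    (hρ : ∀ v, Cts (ρ v)) (σ : ∀ v : Pl, (Om v ≃ₐ[Cpl v] Om v) →* Equiv.Perm (Fin n))
    (hσ : ∀ v, Cts (σ v)) (ψ : ∀ v : Pl, (Om v ≃ₐ[Cpl v] Om v) → Equiv.Perm (Fin m))
    (hpi : ∀ v τ, pi (n + m) (ρ v τ) = bP (σ v τ) (ψ v τ)) (aF : Fin m → ℚ)
    (xF : ∀ v : Pl, Fin m → Om v) (hxF : ∀ v, Function.Injective (xF v))
    (haF : ∀ v, AnWA.monicPoly (fun i => algebraMap (Cpl v) (Om v) (emb v (aF i))) =
      ∏ i, (X - C (xF v i)))
    (hF : ∀ v τ i, τ (xF v i) = xF v (ψ v τ i)) :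
    ∃ s : ℕ, 4 ∣ s ∧ s ≤ n + m ∧ ∀ v : Pl, ∃ (a : Fin n → Cpl v) (x : Fin n → Om v),
      Function.Injective x ∧
      AnWA.monicPoly (fun i => algebraMap (Cpl v) (Om v) (a i)) = ∏ i, (X - C (x i)) ∧
      (∀ τ i, τ (x i) = x (σ v τ i)) ∧
      cls (hk a) + cls (hk fun i => emb v (aF i)) = cls ((Js (n + m) s).map (emb v)) := by
  have hR : ∃ s : ℕ, 4 ∣ s ∧ s ≤ n + m ∧
      ∀ (V : Matrix (Fin (n + m)) (Fin (n + m)) (Om none)), V.det ≠ 0 →
      (∀ τ : Om none ≃ₐ[Cpl none] Om none,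
        V.map τ = pM (Om none) (pi (n + m) (ρ none τ)) * V) →
      ∀ (H : Matrix (Fin (n + m)) (Fin (n + m)) (Cpl none)),
      H.map (algebraMap (Cpl none) (Om none)) = Vᵀ * V →
      cls H = s • cl (-1 : Cpl none) + (n + m - s) • cl (1 : Cpl none) :=
    locT_real (ρ none)
  obtain ⟨s, h4, hsn, hR⟩ := hR
  refine ⟨s, h4, hsn, fun v => ?_⟩
  obtain ⟨a, x, hx, hax, hτ⟩ := exists_point (hσ v)
  obtain ⟨e1, hd⟩ := locT_hk hx hax
  obtain ⟨eF, hdF⟩ := locT_hk (hxF v) (haF v)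
  have hV : (vandermonde x).det ≠ 0 := det_vandermonde_ne_zero_iff.2 hx
  have hVF : (vandermonde (xF v)).det ≠ 0 := det_vandermonde_ne_zero_iff.2 (hxF v)
  obtain ⟨V, hVdef⟩ : ∃ V, V = bM (vandermonde x) (vandermonde (xF v)) := ⟨_, rfl⟩
  have hVd : V.det ≠ 0 := by
    rw [hVdef, bM_det]
    exact mul_ne_zero hV hVF
  have hVτ : ∀ τ : Om v ≃ₐ[Cpl v] Om v,
      V.map τ = pM (Om v) (pi (n + m) (ρ v τ)) * V := by
    intro τ
    rw [hpi, pM_bP, hVdef, bM_mul, ← locT_vand τ (σ v τ) (hτ τ),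
      ← locT_vand τ (ψ v τ) (hF v τ)]
    exact bM_map (τ : Om v →+* Om v) _ _
  obtain ⟨H, hH⟩ : ∃ H, H = bM (hk a) (hk fun i => emb v (aF i)) := ⟨_, rfl⟩
  have hHV : H.map (algebraMap (Cpl v) (Om v)) = Vᵀ * V := by
    rw [hH, hVdef, bM_map, bM_transpose, bM_mul, e1, eF]
  have hc : cls H = cls ((Js (n + m) s).map (emb v)) := by
    rcases v with _ | p
    · rw [hR V hVd hVτ H hHV, cls_Js two_ne_zero (emb none) hsn]
    · have hu : U5 (Cpl (some p)) := u5_padic (p : ℕ)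
      rw [locP hu (hρ (some p)) hVd hVτ hHV, cls_Js_padic two_ne_zero hu (emb (some p)) hsn h4]
  refine ⟨a, x, hx, hax, hτ, ?_⟩
  rw [← hc, hH, cls_bM two_ne_zero (hk_transpose _) hd (hk_transpose _) hdF]

end DC83
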