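import Pool.Agent.H.MP_83e36b_nt.dc.Pt
import Pool.Agent.H.MP_83e36b_nt.dc.Res
import Pool.Agent.H.MP_83e36b_nt.dc.Quad
import Pool.Agent.H.MP_83e36b_nt.nr.Base

/-! The restriction to `K` and the étale algebra of a permutation representation of `Gal(K/ℚ)`. -/

set_option autoImplicit false

open Polynomial SpinWA

namespace DC83

open NR83

/-- Artin's theorem. -/
theorem gal_of_fix {K : Type} [Field K] [Algebra ℚ K] {G : Type} [Group G] [Finite G]
    {α : G →* (K ≃ₐ[ℚ] K)} (hfix : fixF α = ⊥) :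
    FiniteDimensional ℚ K ∧ IsGalois ℚ K ∧ Function.Surjective α := by
  haveI : Finite α.range := Finite.of_surjective α.rangeRestrict α.rangeRestrict_surjective
  have h1 : FiniteDimensional (fixF α) K := by
    unfold fixF
    exact inferInstanceAs (FiniteDimensional (FixedPoints.subfield α.range K) K)
  rw [hfix] at h1
  have h2 : FiniteDimensional ℚ K := Module.Finite.trans (⊥ : IntermediateField ℚ K) K
  refine ⟨h2, IsGalois.of_fixedField_eq_bot ℚ K ?_, ?_⟩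
  · rw [eq_bot_iff, ← hfix]
    exact IntermediateField.fixedField_le le_top
  · have h3 := IntermediateField.fixingSubgroup_fixedField α.range
    have h4 : IntermediateField.fixedField α.range = ⊥ := hfix
    rw [h4, IntermediateField.fixingSubgroup_bot] at h3
    exact MonoidHom.range_eq_top.1 h3.symm

section
variable {K : Type} [Field K] [Algebra ℚ K] [FiniteDimensional ℚ K] [IsGalois ℚ K]

/-- Proof: as `exists_res` of dc/Res.lean (`AlgEquiv.restrictNormalHom` for the algebra structure on `Qb`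
given by `κ`); continuity: `Cts.of_fix` for the images of a basis of `K`. -/
theorem exists_resK (κ : K →+* Qb) :
    ∃ r : (Qb ≃ₐ[ℚ] Qb) →* (K ≃ₐ[ℚ] K), Cts r ∧ ∀ τ x, κ (r τ x) = τ (κ x) := by
  letI : Algebra K Qb := κ.toAlgebra
  haveI : IsScalarTower ℚ K Qb := IsScalarTower.of_algebraMap_eq' (Subsingleton.elim _ _)
  haveI : Algebra.IsAlgebraic ℚ Qb := AlgebraicClosure.isAlgebraic ℚ
  obtain ⟨r, hr⟩ : ∃ r : (Qb ≃ₐ[ℚ] Qb) →* (K ≃ₐ[ℚ] K), ∀ τ x, κ (r τ x) = τ (κ x) :=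
    ⟨AlgEquiv.restrictNormalHom K, fun τ x => AlgEquiv.restrictNormal_commutes τ K x⟩
  refine ⟨r, ?_, hr⟩
  let b := Module.finBasis ℚ K
  refine Cts.of_fix r (fun i => κ (b i)) fun τ hτ => ?_
  have h1 : (r τ).toLinearMap = LinearMap.id := b.ext fun i => κ.injective ((hr τ _).trans (hτ i))
  exact AlgEquiv.ext fun x => LinearMap.congr_fun h1 x

/-- Proof: `exists_point` of dc/Pt.lean for `π₂.comp r`, `r` of `exists_resK` (`Cts.comp`); if
`τ (κ x) = κ (s x)` for all `x` then `s = r τ`. -/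
theorem exists_F (κ : K →+* Qb) {m : ℕ} (π₂ : (K ≃ₐ[ℚ] K) →* Equiv.Perm (Fin m)) :
    ∃ (aF : Fin m → ℚ) (zF : Fin m → Qb), Function.Injective zF ∧
      AnWA.monicPoly (fun i => algebraMap ℚ Qb (aF i)) = ∏ i, (X - C (zF i)) ∧
      ∀ (τ : Qb ≃ₐ[ℚ] Qb) (s : K ≃ₐ[ℚ] K), (∀ x, τ (κ x) = κ (s x)) →
        ∀ i, τ (zF i) = zF (π₂ s i) := by
  haveI : Algebra.IsAlgebraic ℚ Qb := AlgebraicClosure.isAlgebraic ℚ
  obtain ⟨r, hc, hr⟩ := exists_resK κ
  obtain ⟨a, x, hx, hp, hτ⟩ := exists_point (hc.comp π₂)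
  refine ⟨a, x, hx, hp, fun τ s h i => ?_⟩
  have h1 : r τ = s := AlgEquiv.ext fun y => κ.injective ((hr τ y).trans (h y))
  rw [hτ, MonoidHom.comp_apply, h1]

end

/-- Proof: `exists_res` of dc/Res.lean: `ι (r τ x) = τ (ι x)`; then `r τ (κ x) = κ (s x)`. -/
theorem F_local {K : Type} [Field K] [Algebra ℚ K] {κ : K →+* Qb} {m : ℕ} {zF : Fin m → Qb}
    {π₂ : (K ≃ₐ[ℚ] K) →* Equiv.Perm (Fin m)}
    (hF : ∀ (τ : Qb ≃ₐ[ℚ] Qb) (s : K ≃ₐ[ℚ] K), (∀ x, τ (κ x) = κ (s x)) →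
      ∀ i, τ (zF i) = zF (π₂ s i))
    {L : Type} [Field L] {Ω : Type} [Field Ω] [Algebra L Ω] (ι : Qb →+* Ω) (τ : Ω ≃ₐ[L] Ω)
    (s : K ≃ₐ[ℚ] K) (h : ∀ x, τ (ι (κ x)) = ι (κ (s x))) (i : Fin m) :
    τ (ι (zF i)) = ι (zF (π₂ s i)) := by
  haveI : Algebra.IsAlgebraic ℚ Qb := AlgebraicClosure.isAlgebraic ℚ
  obtain ⟨r, hr⟩ := exists_res (K := L) ι
  have h1 := hF (r τ) s (fun x => ι.injective ((hr τ _).trans (h x))) i
  rw [← hr, h1]

end DC83
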