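import Pool.Agent.H.MP_83e36b_nt.td.GDef
import Pool.Agent.H.MP_83e36b_nt.td.Grp
import Pool.Agent.H.MP_83e36b_nt.td.ExQ
import Pool.Agent.H.MP_83e36b_nt.td.ResF
import Pool.Agent.H.MP_83e36b_nt.td.LocT
import Pool.Agent.H.MP_83e36b_nt.td.LocB2
import Pool.Agent.H.MP_83e36b_nt.td.Apx2
import Pool.Agent.H.MP_83e36b_nt.td.Glo2
import Pool.Agent.H.MP_83e36b_nt.td.Cmp2

/-! The relative Grunwald problem for groups with kernel `2.A_n`. -/

set_option autoImplicit false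

open Matrix Polynomial SpinWA

namespace DC83

/-- the trace form has a nonzero determinant -/
private theorem Core_det {K : Type*} [Field K] {L : Type*} [Field L] (f : K →+* L) {n : ℕ}
    (a : Fin n → K) {x : Fin n → L} (hx : Function.Injective x)
    (h : AnWA.monicPoly (fun i => f (a i)) = ∏ i, (X - C (x i))) : (hk a).det ≠ 0 := by
  intro h0
  have h1 := croot_hk_det_map f a
  rw [h0, map_zero, ← vand_hk x _ hx h, det_mul, det_transpose] at h1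
  exact det_vandermonde_ne_zero_iff.2 hx (mul_self_eq_zero.1 h1.symm)

/-- Proof: `exists_blocks2`: `π₁`, `π₂`.  `exists_F`: `aF`, `zF`.  `loc_all2` for `φ ∘ ρ v`, `π₁ ∘ ρ v`,
`ψ v τ = π₂ (α (ρ v τ))`, `xF v = ι v ∘ zF` (`F_local`; `ι v ∘ algebraMap ℚ Qb = algebraMap ∘ emb v`):
`s`, `a v`, `x v`.  `R = cls (Js (n+m) s) - cls (hk aF)`; `WG.map (emb v) R = cls (hk (a v))` (`map_cls`,
`hk_map`).  `exists_Q'` with `c = det (hk aF)` (`hdet`: from `cls_bM`, `cong_of_cls`, `Js_det`): `Q`.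
`δ² = det Q` in `Qb`.  `loc_B2` for `δ v = ι v δ`: `B v`.  `approx2`: `b`, `C'`.  `roots2`: `z`.
`exists_gal` (dc/Pt.lean): `σ`; `exists_resK`: `r`; `glob2` for `ψ = π₂ ∘ r`; `exists_hom2`: `ρ₁`;
continuous by `Cts.of_two`.  `exists_c`; `compare2` for `v ∈ S` (put `g v = 1`, `χ v = 1` for `v ∉ S`;
`hα`: `κ (α (ρ₁ τ₀) x) = τ₀ (κ x)` and `hcomp`).  `quad` (dc/Quad.lean): `χ₀`;
`ρ₀ τ = c (χ₀ τ) * ρ₁ τ`.  Compare with the proof of `grun` in dc/Grun.lean. -/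
theorem rel_grun {n m : ℕ} (hn : 4 ≤ n) {K : Type} [Field K] [Algebra ℚ K]
    [FiniteDimensional ℚ K] [IsGalois ℚ K] {G : Type} [Group G] [Finite G]
    {α : G →* (K ≃ₐ[ℚ] K)} (hα : Function.Surjective α) {φ : G →* dAlt (n + m)}
    (h : KerTwoAlt α φ) : RelGrunwald α := by
  intro S κ ι ρ hρ hρα
  have hal : Algebra.IsAlgebraic ℚ Qb := AlgebraicClosure.isAlgebraic ℚ
  have hn2 : 2 ≤ n := by omega
  obtain ⟨π₁, π₂, hπ⟩ := exists_blocks2 (by omega : 3 ≤ n) hα h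
  obtain ⟨aF, zF, hzF, hzFa, hFgal⟩ := exists_F κ π₂
  have hcomm : ∀ (v : Pl) (q : ℚ), ι v (algebraMap ℚ Qb q) =
      algebraMap (Cpl v) (Om v) (emb v q) := fun v q =>
    RingHom.congr_fun (Subsingleton.elim ((ι v).comp (algebraMap ℚ Qb))
      ((algebraMap (Cpl v) (Om v)).comp (emb v))) q
  have h2v : ∀ v : Pl, (2 : Cpl v) ≠ 0 := fun v => two_ne_zero
  have haF : ∀ v : Pl, AnWA.monicPoly (fun i => algebraMap (Cpl v) (Om v) (emb v (aF i))) =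
      ∏ i, (X - C (ι v (zF i))) := by
    intro v
    have h1 : AnWA.monicPoly (fun i => algebraMap (Cpl v) (Om v) (emb v (aF i))) =
        (AnWA.monicPoly (fun i => algebraMap ℚ Qb (aF i))).map (ι v) := by
      rw [← AnWA.monicPoly_map]
      exact congrArg AnWA.monicPoly (funext fun i => (hcomm v (aF i)).symm)
    rw [h1, hzFa, Polynomial.map_prod]
    refine Finset.prod_congr rfl fun i _ => ?_
    rw [Polynomial.map_sub, Polynomial.map_X, Polynomial.map_C]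
  have hF : ∀ (v : Pl) (τ : Om v ≃ₐ[Cpl v] Om v) (i : Fin m),
      τ (ι v (zF i)) = ι v (zF (π₂ (α (ρ v τ)) i)) := fun v τ i =>
    F_local hFgal (ι v) τ (α (ρ v τ)) (hρα v τ) i
  obtain ⟨s, hs, hsn, hloc⟩ := loc_all2 (fun v => φ.comp (ρ v)) (fun v => (hρ v).comp φ)
    (fun v => π₁.comp (ρ v)) (fun v => (hρ v).comp π₁) (fun v τ => π₂ (α (ρ v τ)))
    (fun v τ => hπ (ρ v τ)) aF (fun v i => ι v (zF i))
    (fun v => (ι v).injective.comp hzF) haF hF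
  choose a x hx hax hσx hcl using hloc
  -- determinants
  have hdF : (hk aF).det ≠ 0 := Core_det (algebraMap ℚ Qb) aF hzF hzFa
  have hda : ∀ v, (hk (a v)).det ≠ 0 := fun v =>
    Core_det (algebraMap (Cpl v) (Om v)) (a v) (hx v) (hax v)
  have hJt : (Js (n + m) s)ᵀ = Js (n + m) s := by
    unfold Js
    rw [diagonal_transpose]
  have hJd : (Js (n + m) s).det = 1 := by
    have h1 : Even s := even_iff_two_dvd.2 (dvd_trans (by norm_num) hs)
    rw [Js_det _ _ hsn, h1.neg_one_pow]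
  have hJ0 : (Js (n + m) s).det ≠ 0 := by
    rw [hJd]
    exact one_ne_zero
  obtain ⟨R, hR⟩ : ∃ R : WG ℚ, R = cls (Js (n + m) s) - cls (hk aF) := ⟨_, rfl⟩
  have hRv : ∀ v, cls (hk (a v)) = WG.map (emb v) R := by
    intro v
    rw [hR, map_sub, map_cls two_ne_zero (h2v v) (emb v) hJt hJ0,
      map_cls two_ne_zero (h2v v) (emb v) (hk_transpose aF) hdF, hk_map, ← hcl v]
    exact (add_sub_cancel_right _ _).symm
  have hdet : ∀ v, ∃ t : Cpl v, t ≠ 0 ∧ (hk (a v)).det = emb v (hk aF).det * t ^ 2 := by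
    intro v
    have hdFv : (hk fun i => emb v (aF i)).det ≠ 0 := by
      rw [← hk_det_map]
      exact (_root_.map_ne_zero _).2 hdF
    have h1 : cls (bM (hk (a v)) (hk fun i => emb v (aF i))) =
        cls ((Js (n + m) s).map (emb v)) := by
      rw [cls_bM (h2v v) (hk_transpose _) (hda v) (hk_transpose _) hdFv]
      exact hcl v
    have h2 : (bM (hk (a v)) (hk fun i => emb v (aF i))).det ≠ 0 := by
      rw [bM_det]
      exact mul_ne_zero (hda v) hdFv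
    have h3 : ((Js (n + m) s).map (emb v)).det = 1 := by
      rw [← RingHom.mapMatrix_apply, ← RingHom.map_det, hJd, map_one]
    obtain ⟨T, hT, hTJ⟩ := cong_of_cls (h2v v)
      (by rw [bM_transpose, hk_transpose, hk_transpose]) h2
      (by rw [← Matrix.transpose_map, hJt]) (by rw [h3]; exact one_ne_zero) h1
    have h4 := congrArg Matrix.det hTJ
    rw [det_mul, det_mul, det_transpose, h3, bM_det, ← hk_det_map] at h4
    have h5 : emb v (hk aF).det ≠ 0 := (_root_.map_ne_zero _).2 hdF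
    refine ⟨(T.det * emb v (hk aF).det)⁻¹, inv_ne_zero (mul_ne_zero hT h5), ?_⟩
    field_simp
    linear_combination h4
  obtain ⟨Q, hQt, hQd, hQR⟩ := exists_Q' hn R hdF a hda hRv hdet
  -- the square root of the determinant
  obtain ⟨δ, hδ⟩ := IsAlgClosed.exists_pow_nat_eq (algebraMap ℚ Qb Q.det) (n := 2) two_pos
  have hδ0 : δ ≠ 0 := by
    rintro rfl
    rw [zero_pow two_ne_zero] at hδ
    exact hQd ((map_eq_zero_iff _ (algebraMap ℚ Qb).injective).1 hδ.symm)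
  have hlB : ∀ v : Pl, ∃ B : Matrix (Fin n) (Fin n) (Cpl v),
      Bᵀ * Q.map (emb v) * B = hk (a v) ∧ B.det ≠ 0 ∧
      algebraMap (Cpl v) (Om v) B.det * ι v δ = (vandermonde (x v)).det := by
    intro v
    refine loc_B2 (emb v) (by omega) hQt hQd (hx v) (hax v) ?_ ?_
    · rw [hRv v, ← hQR, map_cls two_ne_zero (h2v v) (emb v) hQt hQd]
    · rw [← map_pow, hδ, hcomm]
  choose B hB hBd hBx using hlB
  obtain ⟨b, C', hC', hC'd, hy⟩ := approx2 hn hQt hQd S (fun v => π₁.comp (ρ v))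
    (fun v => ι v δ) (fun v => (_root_.map_ne_zero _).2 hδ0) a x B hx hax hσx hB hBd hBx
  obtain ⟨z, hz, hzb, hzd⟩ := roots2 hn2 hQd hC' hC'd hδ
  obtain ⟨σ, hσ⟩ := exists_gal hz hzb
  obtain ⟨r, hrc, hr⟩ := exists_resK κ
  have hcls : cls Q + cls (hk aF) = cls (Js (n + m) s) := by
    rw [hQR, hR]
    exact sub_add_cancel _ _
  obtain ⟨ρd, hcd, hρd⟩ := glob2 (by omega) hs hsn hQt hQd hcls hC' hC'd hz hzb hzF hzFa σ hσ
    (π₂.comp r) (fun τ i => hFgal τ (r τ) (fun x => (hr τ x).symm) i)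
  obtain ⟨ρ₁, h1φ, h1α⟩ := exists_hom2 hn2 hα h hπ ρd r (fun τ => σ τ) hρd
  have hc₁ : Cts ρ₁ := by
    refine Cts.of_two hcd hrc ρ₁ fun τ h1 h2 => ?_
    refine lift2_inj h ?_ ?_
    · rw [h1φ, h1, map_one]
    · rw [h1α, h2, map_one]
  have hρ₁σ : ∀ τ, π₁ (ρ₁ τ) = σ τ := by
    intro τ
    have h1 := hπ (ρ₁ τ)
    rw [h1φ, hρd] at h1
    exact (bP_inj h1).1.symm
  have hρ₁z : ∀ τ i, τ (z i) = z (π₁ (ρ₁ τ) i) := by
    intro τ i
    rw [hρ₁σ, hσ]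
  obtain ⟨c, hcα, hcφ, hcc⟩ := exists_c hn2 h
  have hcmp : ∀ v : Pl, ∃ (g : G) (χ : (Om v ≃ₐ[Cpl v] Om v) →* ℤˣ), α g = 1 ∧ Cts χ ∧
      (v ∈ S → ∀ τ τ₀, (∀ x, ι v (τ₀ x) = τ (ι v x)) →
        ρ₁ τ₀ = c (χ τ) * (g * ρ v τ * g⁻¹)) := by
    intro v
    by_cases hv : v ∈ S
    · obtain ⟨y, hyb, hyρ, hyd⟩ := hy v hv
      have hzb' : AnWA.monicPoly (fun i => (Rat.cast (b i) : Qb)) = ∏ i, (X - C (z i)) := by
        rw [← hzb]
        congr 1
      have hyb' : AnWA.monicPoly (fun i => (Rat.cast (b i) : Om v)) = ∏ i, (X - C (y i)) := by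
        rw [← hyb]
        congr 1
      have hdet' : (vandermonde y).det ≠ - (ι v) ((vandermonde z).det) := by
        rw [hzd, map_mul, hcomm]
        exact hyd
      have hα' : ∀ τ τ₀, (∀ x, ι v (τ₀ x) = τ (ι v x)) → α (ρ₁ τ₀) = α (ρ v τ) := by
        intro τ τ₀ hτ
        rw [h1α]
        refine AlgEquiv.ext fun x => ?_
        have h1 := hr τ₀ x
        have h2 := hτ (κ x)
        rw [hρα v τ x, ← h1] at h2
        exact κ.injective ((ι v).injective h2)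
      obtain ⟨g, χ, hg, hχ, hgχ⟩ := compare2 (ι v) hn2 h hπ hcα hcφ hcc hz hzb' hρ₁z hc₁ hyb' hyρ
        (hρ v) hα' hdet'
      exact ⟨g, χ, hg, hχ, fun _ => hgχ⟩
    · exact ⟨1, 1, map_one _, Cts.one, fun h => absurd h hv⟩
  choose g χ hgα hχ hg using hcmp
  obtain ⟨χ₀, hχ₀, hχ₀'⟩ := quad S ι χ hχ
  obtain ⟨ρ₀, hρ₀⟩ : ∃ ρ₀ : (Qb ≃ₐ[ℚ] Qb) →* G, ∀ τ, ρ₀ τ = c (χ₀ τ) * ρ₁ τ := by
    refine ⟨MonoidHom.mk' (fun τ => c (χ₀ τ) * ρ₁ τ) ?_, fun τ => rfl⟩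
    intro τ τ'
    rw [map_mul, map_mul, map_mul, mul_assoc, ← mul_assoc (c (χ₀ τ')), hcc (χ₀ τ') (ρ₁ τ)]
    simp only [mul_assoc]
  refine ⟨ρ₀, ?_, ?_, ?_⟩
  · refine Cts.of_two hc₁ hχ₀ ρ₀ fun τ h1 h2 => ?_
    rw [hρ₀, h1, h2, map_one, one_mul]
  · intro τ x
    rw [hρ₀, map_mul, hcα, one_mul, h1α, hr]
  · intro v hv
    refine ⟨g v, hgα v, fun τ τ₀ hτ₀ => ?_⟩
    rw [hρ₀, hg v hv τ τ₀ hτ₀, hχ₀' v hv τ τ₀ hτ₀, ← mul_assoc, ← map_mul, Int.units_mul_self,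
      map_one, one_mul]

end DC83
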