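import Pool.Agent.H.MP_83e36b_nt.dc.LocB
import Pool.Agent.H.MP_83e36b_nt.td.LocEx

/-! The trace forms at all places; at the places outside `T` the algebra is only required to exist. -/

set_option autoImplicit false

open Matrix Polynomial SpinWA

namespace DC83

private theorem LocT3_real {n : ℕ} (ρ : (AlgebraicClosure ℝ ≃ₐ[ℝ] AlgebraicClosure ℝ) →* dAlt n) :
    ∃ s : ℕ, 4 ∣ s ∧ s ≤ n ∧ ∀ (V : Matrix (Fin n) (Fin n) (AlgebraicClosure ℝ)), V.det ≠ 0 →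
      (∀ τ : AlgebraicClosure ℝ ≃ₐ[ℝ] AlgebraicClosure ℝ,
        V.map τ = pM (AlgebraicClosure ℝ) (pi n (ρ τ)) * V) →
      ∀ (H : Matrix (Fin n) (Fin n) ℝ), H.map (algebraMap ℝ (AlgebraicClosure ℝ)) = Vᵀ * V →
      cls H = s • cl (-1 : ℝ) + (n - s) • cl (1 : ℝ) :=
  locR ρ

private theorem LocT3_vand {K : Type} [Field K] {Ω : Type} [Field Ω] [Algebra K Ω] {n : ℕ}
    {x : Fin n → Ω} (τ : Ω ≃ₐ[K] Ω) (σ : Equiv.Perm (Fin n)) (h : ∀ i, τ (x i) = x (σ i)) :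
    (vandermonde x).map τ = pM Ω σ * vandermonde x := by
  ext i j
  rw [pM_mul_apply, map_apply, vandermonde_apply, vandermonde_apply, map_pow, h]

private theorem LocT3_hk {K : Type} [Field K] {Ω : Type} [Field Ω] [Algebra K Ω] {n : ℕ}
    {a : Fin n → K} {x : Fin n → Ω} (hx : Function.Injective x)
    (hax : AnWA.monicPoly (fun i => algebraMap K Ω (a i)) = ∏ i, (X - C (x i))) :
    (hk a).map (algebraMap K Ω) = (vandermonde x)ᵀ * vandermonde x ∧ (hk a).det ≠ 0 := by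
  have hV : (vandermonde x).det ≠ 0 := det_vandermonde_ne_zero_iff.2 hx
  have e1 : (hk a).map (algebraMap K Ω) = (vandermonde x)ᵀ * vandermonde x := by
    rw [hk_map]
    exact (vand_hk x _ hx hax).symm
  refine ⟨e1, fun h => ?_⟩
  have e2 : algebraMap K Ω (hk a).det = (vandermonde x).det ^ 2 := by
    rw [RingHom.map_det, RingHom.mapMatrix_apply, e1, det_mul, det_transpose, sq]
  rw [h, map_zero] at e2
  exact hV (pow_eq_zero_iff two_ne_zero |>.1 e2.symm)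

private theorem LocT3_Js {K : Type} [Field K] (φ : ℚ →+* K) {N s : ℕ} (hs : s ≤ N) :
    ((Js N s).map φ)ᵀ = (Js N s).map φ ∧ ((Js N s).map φ).det ≠ 0 := by
  constructor
  · unfold Js
    rw [diagonal_map (map_zero φ), diagonal_transpose]
  · rw [← RingHom.mapMatrix_apply, ← RingHom.map_det, Js_det _ _ hs]
    exact (map_ne_zero φ).2 (pow_ne_zero _ (neg_ne_zero.2 one_ne_zero))

/-- Proof: for `v ∈ T` as `loc_all2` in td/LocT.lean (`s` from the real place, `none ∈ T`), `σ' v = σ v`.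
For `v ∉ T`, `v = some p`: `loc_ex` (`u5_padic`) for `J = (Js (n+m) s).map (emb v)`,
`H = hk (emb v ∘ aF)` gives `a v`; `exists_roots` (sp/CRoot.lean) for `algebraMap (Cpl v) (Om v)`: `x v`;
`exists_gal` (dc/Pt.lean): `σ' v`. -/
theorem loc_all3 {n m : ℕ} (hn : 4 ≤ n) (T : Finset Pl) (hT : none ∈ T)
    (ρ : ∀ v : Pl, (Om v ≃ₐ[Cpl v] Om v) →* dAlt (n + m))
    (hρ : ∀ v, Cts (ρ v)) (σ : ∀ v : Pl, (Om v ≃ₐ[Cpl v] Om v) →* Equiv.Perm (Fin n))
    (hσ : ∀ v, Cts (σ v)) (ψ : ∀ v : Pl, (Om v ≃ₐ[Cpl v] Om v) → Equiv.Perm (Fin m))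
    (hpi : ∀ v ∈ T, ∀ τ, pi (n + m) (ρ v τ) = bP (σ v τ) (ψ v τ)) (aF : Fin m → ℚ)
    (xF : ∀ v : Pl, Fin m → Om v) (hxF : ∀ v, Function.Injective (xF v))
    (haF : ∀ v, AnWA.monicPoly (fun i => algebraMap (Cpl v) (Om v) (emb v (aF i))) =
      ∏ i, (X - C (xF v i)))
    (hF : ∀ v τ i, τ (xF v i) = xF v (ψ v τ i)) :
    ∃ s : ℕ, 4 ∣ s ∧ s ≤ n + m ∧
      ∃ (σ' : ∀ v : Pl, (Om v ≃ₐ[Cpl v] Om v) →* Equiv.Perm (Fin n))
        (a : ∀ v : Pl, Fin n → Cpl v) (x : ∀ v : Pl, Fin n → Om v),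
        (∀ v ∈ T, σ' v = σ v) ∧ ∀ v, Function.Injective (x v) ∧
        AnWA.monicPoly (fun i => algebraMap (Cpl v) (Om v) (a v i)) = ∏ i, (X - C (x v i)) ∧
        (∀ τ i, τ (x v i) = x v (σ' v τ i)) ∧
        cls (hk (a v)) + cls (hk fun i => emb v (aF i)) = cls ((Js (n + m) s).map (emb v)) := by
  have hR : ∃ s : ℕ, 4 ∣ s ∧ s ≤ n + m ∧
      ∀ (V : Matrix (Fin (n + m)) (Fin (n + m)) (Om none)), V.det ≠ 0 →
      (∀ τ : Om none ≃ₐ[Cpl none] Om none,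
        V.map τ = pM (Om none) (pi (n + m) (ρ none τ)) * V) →
      ∀ (H : Matrix (Fin (n + m)) (Fin (n + m)) (Cpl none)),
      H.map (algebraMap (Cpl none) (Om none)) = Vᵀ * V →
      cls H = s • cl (-1 : Cpl none) + (n + m - s) • cl (1 : Cpl none) :=
    LocT3_real (ρ none)
  obtain ⟨s, h4, hsn, hR⟩ := hR
  have key : ∀ v : Pl, ∃ (σ' : (Om v ≃ₐ[Cpl v] Om v) →* Equiv.Perm (Fin n))
      (a : Fin n → Cpl v) (x : Fin n → Om v), (v ∈ T → σ' = σ v) ∧ Function.Injective x ∧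
      AnWA.monicPoly (fun i => algebraMap (Cpl v) (Om v) (a i)) = ∏ i, (X - C (x i)) ∧
      (∀ τ i, τ (x i) = x (σ' τ i)) ∧
      cls (hk a) + cls (hk fun i => emb v (aF i)) = cls ((Js (n + m) s).map (emb v)) := by
    intro v
    obtain ⟨eF, hdF⟩ := LocT3_hk (hxF v) (haF v)
    by_cases hvT : v ∈ T
    · obtain ⟨a, x, hx, hax, hτ⟩ := exists_point (hσ v)
      obtain ⟨e1, hd⟩ := LocT3_hk hx hax
      have hV : (vandermonde x).det ≠ 0 := det_vandermonde_ne_zero_iff.2 hx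
      have hVF : (vandermonde (xF v)).det ≠ 0 := det_vandermonde_ne_zero_iff.2 (hxF v)
      obtain ⟨V, hVdef⟩ : ∃ V, V = bM (vandermonde x) (vandermonde (xF v)) := ⟨_, rfl⟩
      have hVd : V.det ≠ 0 := by
        rw [hVdef, bM_det]
        exact mul_ne_zero hV hVF
      have hVτ : ∀ τ : Om v ≃ₐ[Cpl v] Om v,
          V.map τ = pM (Om v) (pi (n + m) (ρ v τ)) * V := by
        intro τ
        rw [hpi v hvT, pM_bP, hVdef, bM_mul, ← LocT3_vand τ (σ v τ) (hτ τ),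
          ← LocT3_vand τ (ψ v τ) (hF v τ)]
        exact bM_map (τ : Om v →+* Om v) _ _
      obtain ⟨H, hH⟩ : ∃ H, H = bM (hk a) (hk fun i => emb v (aF i)) := ⟨_, rfl⟩
      have hHV : H.map (algebraMap (Cpl v) (Om v)) = Vᵀ * V := by
        rw [hH, hVdef, bM_map, bM_transpose, bM_mul, e1, eF]
      have hc : cls H = cls ((Js (n + m) s).map (emb v)) := by
        rcases v with _ | p
        · rw [hR V hVd hVτ H hHV, cls_Js two_ne_zero (emb none) hsn]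
        · have hu : U5 (Cpl (some p)) := u5_padic (p : ℕ)
          rw [locP hu (hρ (some p)) hVd hVτ hHV, cls_Js_padic two_ne_zero hu (emb (some p)) hsn h4]
      refine ⟨σ v, a, x, fun _ => rfl, hx, hax, hτ, ?_⟩
      rw [← hc, hH, cls_bM two_ne_zero (hk_transpose _) hd (hk_transpose _) hdF]
    · rcases v with _ | p
      · exact absurd hT hvT
      · have hu : U5 (Cpl (some p)) := u5_padic (p : ℕ)
        obtain ⟨hJ, hJd⟩ := LocT3_Js (emb (some p)) hsn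
        obtain ⟨a, hd, hcl⟩ := loc_ex hu hn hJ hJd
          (hk_transpose (fun i => emb (some p) (aF i))) hdF
        obtain ⟨x, hx, hax⟩ := exists_roots (algebraMap (Cpl (some p)) (Om (some p))) a hd
        obtain ⟨σ', hσ'⟩ := exists_gal hx hax
        exact ⟨σ', a, x, fun h => absurd h hvT, hx, hax, hσ', hcl⟩
  choose σ' a x h1 h2 using key
  exact ⟨s, h4, hsn, σ', a, x, h1, h2⟩

end DC83
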