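import Pool.Agent.H.MP_83e36b_nt.td.DDef

/-! Extensions of Galois groups by the double covers of the alternating and symmetric groups. -/

set_option autoImplicit false

namespace DC83

universe u

/-- The homomorphism `α` from the group `H` onto the Galois group of `K / ℚ` has kernel `2.A_n`, extended
by an elementary abelian 2-group: for some homomorphism `χ : H → {1, -1}^t` the homomorphism
`(α, χ) : H → Gal(K/ℚ) × {1, -1}^t` is surjective, and some homomorphism `φ` from `H` to the double
cover `2.A_(n+m)` maps its kernel isomorphically onto the subgroup `2.A_n`. -/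
def DoubleExt (n : ℕ) {K : Type} [Field K] [Algebra ℚ K] {H : Type u} [Group H]
    (α : H →* (K ≃ₐ[ℚ] K)) : Prop :=
  ∃ (t m : ℕ) (χ : H →* (Fin t → ℤˣ)) (φ : H →* dAlt (n + m)),
    Function.Surjective (α.prod χ) ∧ KerTwoAlt (α.prod χ) φ

end DC83
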