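import Pool.Agent.H.MP_83e36b_nt.td.SFin3
import Pool.Agent.H.MP_83e36b_nt.td.MDef3

/-! The main theorem. -/

set_option autoImplicit false

open Polynomial

namespace DC83

open CM83 NR83 WA83

universe u v

attribute [local instance 2000] OreLocalization.instAlgebra IntermediateField.algebra' Algebra.id

theorem main4 {n : ℕ} (hn : 4 ≤ n) {K : Type} [Field K] [Algebra ℚ K] {G : Type v} [Group G]
    [Finite G] (N : Subgroup G) [N.Normal] (hN : AltSeries N ∨ Tower G N)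
    (α : G ⧸ N →* (K ≃ₐ[ℚ] K)) (hfix : fixF α = ⊥) (hα : DoubleExt n α) {d : ℕ}
    (β : G →* (RF K d ≃ₐ[ℚ] RF K d)) (hβ : SemiLin (α.comp (QuotientGroup.mk' N)) β) {r : ℕ}
    {f g : (MvPolynomial (Fin r) ℚ)[X]} {F : Type u} [Field F] [Algebra ℚ F] {ξ : Fin r → F} {η : F}
    (h : Generic f F ξ η) (hg : evP (algebraMap ℚ F) ξ η g ≠ 0) (hF : StablyIso ℚ F (fixF β)) :
    WeakApprox f g := by
  obtain ⟨t, m, χ, φ, h1, h2⟩ := hα
  have e1 : (MonoidHom.fst (K ≃ₐ[ℚ] K) (Fin t → ℤˣ)).comp (α.prod χ) = α := MonoidHom.fst_comp_prod _ _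
  refine main3 hn N hN (α.prod χ) h1 (by rw [e1]; exact hfix) φ h2 β (by rw [e1]; exact hβ) h hg hF

end DC83
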