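import Pool.Agent.H.MP_83e36b_nt.td.GDef
import Pool.Agent.H.MP_83e36b_nt.td.ResF

/-! The relative Grunwald problem for the product of `Gal(K/ℚ)` and an elementary abelian 2-group. -/

set_option autoImplicit false

open SpinWA

namespace DC83

/-- Proof: `exists_resK`: `r`; `quad` (dc/Quad.lean) for each of the `t` characters:
`ρ₀ τ = (r τ, χ₀ τ)`; continuity: `Cts.of_two` (or directly).  At `v`: `(ρ v τ).1 = r τ₀` by the
hypothesis, `(ρ v τ).2 = χ₀ τ₀`; `g = 1`. -/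
theorem rel_grun_quad {K : Type} [Field K] [Algebra ℚ K] [FiniteDimensional ℚ K] [IsGalois ℚ K]
    (t : ℕ) : RelGrunwald (MonoidHom.fst (K ≃ₐ[ℚ] K) (Fin t → ℤˣ)) := by
  intro S κ ι ρ hρ hκ
  obtain ⟨r, hr, hrκ⟩ := exists_resK (K := K) κ
  have h1 : ∀ j : Fin t, ∃ χ₀ : (Qb ≃ₐ[ℚ] Qb) →* ℤˣ, Cts χ₀ ∧ ∀ v ∈ S, ∀ τ τ₀,
      (∀ x, ι v (τ₀ x) = τ (ι v x)) → χ₀ τ₀ = (ρ v τ).2 j := fun j =>
    quad S ι (fun v => ((Pi.evalMonoidHom (fun _ : Fin t => ℤˣ) j).comp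
      (MonoidHom.snd (K ≃ₐ[ℚ] K) (Fin t → ℤˣ))).comp (ρ v)) fun v => (hρ v).comp _
  choose χ hχ hχv using h1
  have h2 : Cts (MonoidHom.pi χ) := by
    choose L hL hLχ using hχ
    refine ⟨⨆ j, L j, IntermediateField.finiteDimensional_iSup_of_finite, fun τ hτ => ?_⟩
    funext j
    exact hLχ j τ fun x hx => hτ x ((le_iSup L j) hx)
  refine ⟨r.prod (MonoidHom.pi χ), ?_, fun τ x => (hrκ τ x).symm, fun v hv => ⟨1, map_one _, ?_⟩⟩
  · refine Cts.of_two hr h2 _ fun τ h3 h4 => ?_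
    exact Prod.ext h3 h4
  · intro τ τ₀ hτ
    rw [one_mul, inv_one, mul_one]
    refine Prod.ext ?_ ?_
    · refine AlgEquiv.ext fun x => ?_
      apply κ.injective
      apply (ι v).injective
      have h3 := hκ v τ x
      show ι v (κ (r τ₀ x)) = ι v (κ ((ρ v τ).1 x))
      rw [hrκ τ₀ x, hτ, h3]
      rfl
    · funext j
      exact hχv j v hv τ τ₀ hτ

end DC83
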