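import Pool.Agent.H.MP_83e36b_nt.td.STrG
import Pool.Agent.H.MP_83e36b_nt.td.Core
import Pool.Agent.H.MP_83e36b_nt.dc.FinC
import Pool.Agent.H.MP_83e36b_nt.nr.Galois

/-! Weak approximation for the homogeneous spaces with geometric stabilizer `2.A_n`. -/

set_option autoImplicit false

open Matrix Polynomial SpinWA Topology

namespace DC83

open CM83 NR83 WA83

universe u v w x

attribute [local instance 2000] OreLocalization.instAlgebra IntermediateField.algebra' Algebra.id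

/-- The local points as a family over all places. -/
private noncomputable def SFin_glue {m : ℕ} {f g : (MvPolynomial (Fin m) ℚ)[X]}
    (xr : Pts f g (algebraMap ℚ ℝ)) (xp : ∀ q : Nat.Primes, Pts f g (algebraMap ℚ ℚ_[(q : ℕ)])) :
    ∀ v : Pl, Pts f g (emb v)
  | none => xr
  | some q => xp q

/-- density in the product over all places -/
private theorem SFin_dense {K : Type} [Field K] [Algebra ℚ K] [FiniteDimensional ℚ K]
    [IsGalois ℚ K] {G : Type} [Group G] [Finite G] {α : G →* (K ≃ₐ[ℚ] K)}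
    (hα : Function.Surjective α) (hG : RelGrunwald α) {d : ℕ} (β : G →* (RF K d ≃ₐ[ℚ] RF K d))
    (hβ : SemiLin α β) {m : ℕ} {f g : (MvPolynomial (Fin m) ℚ)[X]} {F : Type u} [Field F]
    [Algebra ℚ F] {ξ : Fin m → F} {η : F} (h : Generic f F ξ η)
    (hg : evP (algebraMap ℚ F) ξ η g ≠ 0) (hF : StablyIso ℚ F (fixF β)) :
    DenseRange (fun p : Pts f g (RingHom.id ℚ) =>
      (mapPts (algebraMap ℚ ℝ) p, fun q : Nat.Primes => mapPts (algebraMap ℚ ℚ_[(q : ℕ)]) p)) := by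
  rintro ⟨xr, xp⟩
  rw [mem_closure_iff_nhds]
  intro t ht
  rw [nhds_prod_eq, Filter.mem_prod_iff] at ht
  obtain ⟨t1, ht1, t2, ht2, ht12⟩ := ht
  rw [nhds_pi, Filter.mem_pi] at ht2
  obtain ⟨I, hI, s, hs, hst⟩ := ht2
  obtain ⟨e1, he1, hb1⟩ := Metric.mem_nhds_iff.1 ht1
  have hs' : ∀ q, ∃ e : ℝ, 0 < e ∧ Metric.ball (xp q) e ⊆ s q := fun q =>
    Metric.mem_nhds_iff.1 (hs q)
  choose e he hb using hs'
  obtain ⟨ε, ⟨hε1, hε2⟩, hε⟩ : ∃ ε : ℝ, (ε ≤ e1 ∧ ∀ q ∈ I, ε ≤ e q) ∧ 0 < ε := by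
    have h1 : ∀ᶠ ε : ℝ in 𝓝[>] 0, ε ≤ e1 :=
      nhdsWithin_le_nhds (Iic_mem_nhds he1)
    have h2 : ∀ᶠ ε : ℝ in 𝓝[>] 0, ∀ q ∈ I, ε ≤ e q :=
      (Filter.eventually_all_finite hI).2 fun q _ => nhdsWithin_le_nhds (Iic_mem_nhds (he q))
    have h3 : ∀ᶠ ε : ℝ in 𝓝[>] 0, 0 < ε := self_mem_nhdsWithin
    exact ((h1.and h2).and h3).exists
  obtain ⟨p, hp⟩ := transfer2 hα hG β hβ h hg hF (insert none (hI.toFinset.image some))
    (SFin_glue xr xp) hε
  refine ⟨_, ht12 (Set.mem_prod.2 ⟨hb1 ?_, hst ?_⟩), ⟨p, rfl⟩⟩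
  · obtain ⟨h1, h2⟩ := hp none (Finset.mem_insert_self _ _)
    rw [Metric.mem_ball, Subtype.dist_eq, Prod.dist_eq]
    refine max_lt ((dist_pi_lt_iff he1).2 fun j => ?_) ?_
    · exact (dist_eq_norm _ _).trans_lt ((h1 j).trans_le hε1)
    · exact (dist_eq_norm _ _).trans_lt (h2.trans_le hε1)
  · intro q hq
    refine hb q ?_
    obtain ⟨h1, h2⟩ := hp (some q)
      (Finset.mem_insert_of_mem (Finset.mem_image_of_mem _ (hI.mem_toFinset.2 hq)))
    rw [Metric.mem_ball, Subtype.dist_eq, Prod.dist_eq]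
    refine max_lt ((dist_pi_lt_iff (he q)).2 fun j => ?_) ?_
    · exact (dist_eq_norm _ _).trans_lt ((h1 j).trans_le (hε2 q hq))
    · exact (dist_eq_norm _ _).trans_lt (h2.trans_le (hε2 q hq))

/-- Proof: as `transfer_dense` in dc/Fin.lean and `weakApprox_of_dense` in dc/FinC.lean, with
`transfer2` (or directly from `transfer2` for `S' = insert none (image of S)`). -/
theorem transfer_wa {K : Type} [Field K] [Algebra ℚ K] [FiniteDimensional ℚ K] [IsGalois ℚ K]
    {G : Type} [Group G] [Finite G] {α : G →* (K ≃ₐ[ℚ] K)} (hα : Function.Surjective α)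
    (hG : RelGrunwald α) {d : ℕ} (β : G →* (RF K d ≃ₐ[ℚ] RF K d)) (hβ : SemiLin α β) {m : ℕ}
    {f g : (MvPolynomial (Fin m) ℚ)[X]} {F : Type u} [Field F] [Algebra ℚ F] {ξ : Fin m → F} {η : F}
    (h : Generic f F ξ η) (hg : evP (algebraMap ℚ F) ξ η g ≠ 0) (hF : StablyIso ℚ F (fixF β)) :
    WeakApprox f g :=
  weakApprox_of_dense (SFin_dense hα hG β hβ h hg hF)

/-- the reduction to the quotient, over an arbitrary field -/
private theorem SFin_red {k : Type u} [Field k] [CharZero k] {K : Type w} [Field K] [Algebra k K]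
    {G : Type v} [Group G] [Finite G] (N : Subgroup G) [N.Normal] (hN : AltSeries N ∨ Tower G N)
    {H : Type x} [Group H] [Finite H] (e : G ⧸ N ≃* H) (α : G ⧸ N →* (K ≃ₐ[k] K)) {d : ℕ}
    (β : G →* (RF K d ≃ₐ[k] RF K d)) (hβ : SemiLin (α.comp (QuotientGroup.mk' N)) β) :
    ∃ (c : ℕ) (γ : H →* (RF K c ≃ₐ[k] RF K c)), SemiLin (α.comp e.symm.toMonoidHom) γ ∧
      StablyIso k (fixF β) (fixF γ) := by
  obtain ⟨c, γ, hγ⟩ := exists_semi (α.comp e.symm.toMonoidHom)
  have hT : Tower G N := hN.elim (Tower.of_alt N) id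
  have hR : Red k K G N := red_tower hT
  have h1 := hR α d c β hβ (γ.comp e.toMonoidHom)
    ⟨fun g a => by
      have h2 := hγ.coeff (e g) a
      have h3 : (α.comp e.symm.toMonoidHom) (e g) = α g := congrArg α (e.symm_apply_apply g)
      rw [h3] at h2
      exact h2, fun g i => hγ.lin (e g) i, hγ.inj.comp e.injective⟩
  refine ⟨c, γ, hγ, ?_⟩
  have h2 : fixF (γ.comp e.toMonoidHom) = fixF γ := by
    ext x
    rw [mem_fixF, mem_fixF]
    constructor
    · intro h g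
      obtain ⟨g', rfl⟩ := e.surjective g
      exact h g'
    · intro h g
      exact h _
  rw [h2] at h1
  exact h1

/-- the hypotheses for an isomorphic group -/
private theorem SFin_iso {n m : ℕ} {G : Type v} [Group G] {H : Type w} [Group H] {A : Type x}
    [Group A] (e : G ≃* H) {α : G →* A} {φ : G →* dAlt (n + m)} (hφ : KerTwoAlt α φ) :
    KerTwoAlt (α.comp e.symm.toMonoidHom) (φ.comp e.symm.toMonoidHom) := by
  refine ⟨fun g h1 h2 => ?_, ?_⟩
  · have h3 : e.symm g = 1 := hφ.inj (e.symm g) h1 h2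
    rw [← e.apply_symm_apply g, h3, map_one]
  · rw [← hφ.image]
    ext x
    rw [Subgroup.mem_map, Subgroup.mem_map]
    constructor
    · rintro ⟨g, hg, rfl⟩
      exact ⟨e.symm g, hg, rfl⟩
    · rintro ⟨g, hg, rfl⟩
      refine ⟨e g, ?_, ?_⟩
      · rw [MonoidHom.mem_ker] at hg ⊢
        rw [← hg]
        exact congrArg α (e.symm_apply_apply g)
      · exact congrArg φ (e.symm_apply_apply g)

/-- the fixed field for an isomorphic group -/
private theorem SFin_fix {k : Type u} [Field k] {K : Type w} [Field K] [Algebra k K]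
    {G : Type v} [Group G] {H : Type x} [Group H] (e : G ≃* H) {α : G →* (K ≃ₐ[k] K)}
    (hα : fixF α = ⊥) : fixF (α.comp e.symm.toMonoidHom) = ⊥ := by
  rw [← hα]
  ext x
  rw [mem_fixF, mem_fixF]
  constructor
  · intro h g
    have h1 := h (e g)
    have h3 : (α.comp e.symm.toMonoidHom) (e g) = α g := congrArg α (e.symm_apply_apply g)
    rw [h3] at h1
    exact h1
  · intro h g
    exact h _

/-- The main theorem.  Proof: `red_tower` (nr/SMain.lean), `exists_semi` (nr/Semi.lean): a semilinear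
action `γ` of `G ⧸ N` over `α` with `StablyIso ℚ (fixF β) (fixF γ)` (see `FinB_red` in dc/FinB.lean).
Let `G₀ : Type` be a group isomorphic to `G ⧸ N` (transport of the structure to `Fin (card)`,
`Finite.equivFin`, `Equiv.group`), `e : G₀ ≃* G ⧸ N`; compose `α`, `γ`, `φ` with `e`.  `gal_of_fix`,
`rel_grun`, `transfer_wa`. -/
theorem main2 {n m : ℕ} (hn : 4 ≤ n) {K : Type} [Field K] [Algebra ℚ K] {G : Type v} [Group G]
    [Finite G] (N : Subgroup G) [N.Normal] (hN : AltSeries N ∨ Tower G N)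
    (α : G ⧸ N →* (K ≃ₐ[ℚ] K)) (hfix : fixF α = ⊥) (φ : G ⧸ N →* dAlt (n + m))
    (hφ : KerTwoAlt α φ) {d : ℕ} (β : G →* (RF K d ≃ₐ[ℚ] RF K d))
    (hβ : SemiLin (α.comp (QuotientGroup.mk' N)) β) {r : ℕ}
    {f g : (MvPolynomial (Fin r) ℚ)[X]} {F : Type u} [Field F] [Algebra ℚ F] {ξ : Fin r → F} {η : F}
    (h : Generic f F ξ η) (hg : evP (algebraMap ℚ F) ξ η g ≠ 0) (hF : StablyIso ℚ F (fixF β)) :
    WeakApprox f g := by
  obtain ⟨e⟩ : Nonempty (G ⧸ N ≃* Shrink.{0} (G ⧸ N)) := ⟨Shrink.mulEquiv.symm⟩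
  have hfin : Finite (Shrink.{0} (G ⧸ N)) := Finite.of_equiv _ e.toEquiv
  obtain ⟨c, γ, hγ, h1⟩ := SFin_red N hN e α β hβ
  have hfix' := SFin_fix e hfix
  obtain ⟨hK1, hK2, hsurj⟩ := gal_of_fix hfix'
  exact transfer_wa hsurj (rel_grun hn hsurj (SFin_iso e hφ)) γ hγ h hg (hF.trans h1)

end DC83
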