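import Pool.Agent.H.MP_83e36b_nt.td.SFin
import Pool.Agent.H.MP_83e36b_nt.td.Core3
import Pool.Agent.H.MP_83e36b_nt.td.Quad3

/-! Weak approximation for the homogeneous spaces with geometric stabilizer `2.A_n` or `2.S_n`. -/

set_option autoImplicit false

open Matrix Polynomial SpinWA Topology

namespace DC83

open CM83 NR83 WA83

universe u v w

attribute [local instance 2000] OreLocalization.instAlgebra IntermediateField.algebra' Algebra.id

/-- a finite group is isomorphic to a group in `Type` -/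
private theorem SFin3_small (H : Type v) [Group H] [Finite H] :
    ∃ (G₀ : Type) (_ : Group G₀) (_ : Finite G₀), Nonempty (G₀ ≃* H) := by
  have e₀ : Shrink.{0} H ≃* H := Shrink.mulEquiv
  exact ⟨Shrink.{0} H, inferInstance, Finite.of_equiv H e₀.symm.toEquiv, ⟨e₀⟩⟩

/-- the fixed field of an action composed with a surjection -/
private theorem SFin3_fix {k : Type} [Field k] {E : Type w} [Field E] [Algebra k E] {G : Type v}
    [Group G] {H : Type} [Group H] (α : G →* (E ≃ₐ[k] E)) (f : H →* G)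
    (hf : Function.Surjective f) : fixF (α.comp f) = fixF α := by
  ext x
  rw [mem_fixF, mem_fixF]
  constructor
  · intro h g
    obtain ⟨g', rfl⟩ := hf g
    exact h g'
  · intro h g
    exact h _

/-- transport of the hypothesis on the kernel along an isomorphism -/
private theorem SFin3_ker {n m : ℕ} {G : Type v} [Group G] {A : Type} [Group A] {α : G →* A}
    {φ : G →* dAlt (n + m)} (h : KerTwoAlt α φ) {G₀ : Type} [Group G₀] (e : G₀ ≃* G) :
    KerTwoAlt (α.comp e.toMonoidHom) (φ.comp e.toMonoidHom) := by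
  refine ⟨fun g h1 h2 => ?_, ?_⟩
  · exact (map_eq_one_iff e e.injective).1 (h.inj (e g) h1 h2)
  · rw [← h.image]
    ext x
    simp only [Subgroup.mem_map, MonoidHom.mem_ker]
    constructor
    · rintro ⟨y, hy, rfl⟩
      exact ⟨e y, hy, rfl⟩
    · rintro ⟨y, hy, rfl⟩
      obtain ⟨z, rfl⟩ := e.surjective y
      exact ⟨z, hy, rfl⟩

/-- The main theorem.  Proof: as `main2` in td/SFin.lean, with `rel_grun1` for `q = α`,
`γ = MonoidHom.fst`, and `rel_grun_quad`. -/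
theorem main3 {n m t : ℕ} (hn : 4 ≤ n) {K : Type} [Field K] [Algebra ℚ K] {G : Type v} [Group G]
    [Finite G] (N : Subgroup G) [N.Normal] (hN : AltSeries N ∨ Tower G N)
    (α : G ⧸ N →* (K ≃ₐ[ℚ] K) × (Fin t → ℤˣ)) (hα : Function.Surjective α)
    (hfix : fixF ((MonoidHom.fst (K ≃ₐ[ℚ] K) (Fin t → ℤˣ)).comp α) = ⊥)
    (φ : G ⧸ N →* dAlt (n + m)) (hφ : KerTwoAlt α φ) {d : ℕ}
    (β : G →* (RF K d ≃ₐ[ℚ] RF K d))
    (hβ : SemiLin (((MonoidHom.fst (K ≃ₐ[ℚ] K) (Fin t → ℤˣ)).comp α).comp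
      (QuotientGroup.mk' N)) β) {r : ℕ}
    {f g : (MvPolynomial (Fin r) ℚ)[X]} {F : Type u} [Field F] [Algebra ℚ F] {ξ : Fin r → F} {η : F}
    (h : Generic f F ξ η) (hg : evP (algebraMap ℚ F) ξ η g ≠ 0) (hF : StablyIso ℚ F (fixF β)) :
    WeakApprox f g := by
  obtain ⟨G₀, iG, iF, ⟨e⟩⟩ := SFin3_small (G ⧸ N)
  have he : Function.Surjective e.toMonoidHom := e.surjective
  obtain ⟨α₁, hα₁⟩ : ∃ α₁ : G ⧸ N →* (K ≃ₐ[ℚ] K),
      α₁ = (MonoidHom.fst (K ≃ₐ[ℚ] K) (Fin t → ℤˣ)).comp α := ⟨_, rfl⟩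
  rw [← hα₁] at hfix hβ
  -- reduction to the quotient
  obtain ⟨c, γ, hγ⟩ := exists_semi α₁
  have hT : Tower G N := hN.elim (Tower.of_alt N) id
  have hR : Red ℚ K G N := red_tower hT
  have h1 : StablyIso ℚ (fixF β) (fixF γ) := hR α₁ d c β hβ γ hγ
  -- transport to a group in `Type`
  have hγ' : SemiLin (α₁.comp e.toMonoidHom) (γ.comp e.toMonoidHom) :=
    ⟨fun g a => hγ.coeff (e g) a, fun g i => hγ.lin (e g) i, hγ.inj.comp e.injective⟩
  rw [← SFin3_fix γ e.toMonoidHom he] at h1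
  have hfix' : fixF (α₁.comp e.toMonoidHom) = ⊥ := by
    rw [SFin3_fix α₁ e.toMonoidHom he, hfix]
  obtain ⟨hfd, hgal, hsurj⟩ := gal_of_fix hfix'
  have hG : RelGrunwald ((MonoidHom.fst (K ≃ₐ[ℚ] K) (Fin t → ℤˣ)).comp (α.comp e.toMonoidHom)) :=
    rel_grun1 hn (q := α.comp e.toMonoidHom) (hα.comp e.surjective) (SFin3_ker hφ e)
      (MonoidHom.fst (K ≃ₐ[ℚ] K) (Fin t → ℤˣ)) (rel_grun_quad t)
  rw [← MonoidHom.comp_assoc, ← hα₁] at hG
  exact transfer_wa hsurj hG (γ.comp e.toMonoidHom) hγ' h hg (hF.trans h1)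

end DC83
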